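import Pool.Agent.Lib.TWQ.Defs
import Pool.Agent.Lib.TWN.LURS
import Pool.Agent.Lib.TWN.LUWa
import Pool.Agent.Lib.LU2_h15z.Final

/-!
# TANK W, Q (row Q5a): log uniformization of real valuations of Abhyankar defect at most one,
arbitrary residue field
-/

set_option autoImplicit false

open Polynomial

namespace Pool.Agent.TW

open Pool.Agent.H15JM (RVal)
open Pool.Agent.LU1 (VPos adj)
open Pool.Agent.LUC (Cl LUs IsMod Par SM QuoIs lv)
open Pool.Agent.LU2 (IsR1 IndVal IndRes DefLE)

universe u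

variable {k Ω : Type u} [Field k] [Field Ω] [Algebra k Ω] {v : RVal Ω}

/-- Elements with algebraically independent residues, in the valuation ring of a subfield. -/
theorem indRes_vring_of {K : IntermediateField k Ω} {q : ℕ} {y : Fin q → K}
    (hy : ∀ i, v.Ge 0 (y i : Ω))
    (hP : ∀ P : MvPolynomial (Fin q) k, P ≠ 0 →
      MvPolynomial.aeval (fun i => (y i : Ω)) P ≠ 0 ∧
        v (MvPolynomial.aeval (fun i => (y i : Ω)) P) = 0) :
    IndRes k (LUW.vring v K) y := by
  refine ⟨hy, fun P hlt => ?_⟩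
  by_contra hP0
  obtain ⟨h1, h2⟩ := hP P hP0
  have h3 : ((MvPolynomial.aeval y P : K) : Ω) = MvPolynomial.aeval (fun i => (y i : Ω)) P := by
    have h4 : (K.val : K →ₐ[k] Ω) (MvPolynomial.aeval y P) =
        MvPolynomial.aeval (fun i => K.val (y i)) P := by
      rw [← AlgHom.comp_apply, MvPolynomial.comp_aeval]
    exact h4
  have h5 : MvPolynomial.aeval y P ≠ 0 := by
    intro h0
    rw [h0] at h3
    exact h1 h3.symm
  have h6 := LUW.val_lt_one h5 hlt
  rw [h3, h2] at h6
  exact lt_irrefl _ h6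

/-- ROW Q5a.  Defect at most one. -/
theorem lus_of_defL (p : ℕ) [Fact p.Prime] [CharP k p] [IsAlgClosed k] (h : Triv k v)
    {E : IntermediateField k Ω} (hE : E.FG) (hpos : ∃ a ∈ E, a ≠ 0 ∧ 0 < v a)
    (hD : DefL v E 1) : LUs v (algebraMap k Ω).range E.toSubfield := by
  have hkg : ∀ c : k, v.Ge 0 (algebraMap k Ω c) := by
    intro c h0
    have hc : c ≠ 0 := by
      rintro rfl
      exact h0 (map_zero _)
    rw [h c hc]
  have hEtop : (⊤ : IntermediateField k E).FG := by
    rw [← IntermediateField.essFiniteType_iff] at hE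
    rw [IntermediateField.fg_top_iff]
    exact hE
  obtain ⟨a, haE, ha0, hav⟩ := hpos
  obtain ⟨r, q, x, y, htr, hx, hxi, hy, hyP⟩ := hD
  refine lus_of_lur hkg (V := LUW.vring v E) (fun f => LUW.mem_vring)
    (LU2.realCaseR p Fact.out E hEtop _ (fun c => ?_) (LUW.isR1_vring haE ha0 hav) ?_)
  · exact hkg c
  · refine ⟨r, q, htr, ⟨fun i => ⟨x i, (hx i).1⟩, ?_⟩, ⟨fun i => ⟨y i, (hy i).1⟩, ?_⟩⟩
    · exact LUW.indVal_vring (fun i h0 => (hx i).2 (congrArg Subtype.val h0)) hxi
    · exact indRes_vring_of (fun i => (hy i).2) hyP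

end Pool.Agent.TW
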