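import Pool.Agent.Lib.TWQ.Defs
import Pool.Agent.Lib.D2P.R0

/-!
# TANK W, row Q1: conjugation over a henselian field preserves the value, any residue field
-/

set_option autoImplicit false

open Polynomial

namespace Pool.Agent.TW

open Pool.Agent.H15JM (RVal)
open Pool.Agent.LU1 (VPos adj fixO decG mem_fixO val_add_vpos)
open Pool.Agent.LUC (Cl)
open Pool.Agent.D2 (exists_theta0 exists_pow_ge_finset vpos_sum0)
open Pool.Agent.D2P (hen mem_hen)

universe u

variable {k Ω : Type u} [Field k] [Field Ω] [Algebra k Ω] {v : RVal Ω}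

/-- The decomposition field of `N` over the fixed field of `H` is in the closure (`D2.cl_dec`
without any assumption on the residue field). -/
theorem cl_decQ (F : IntermediateField k Ω) (N : IntermediateField F Ω)
    [FiniteDimensional F N] [IsGalois F N] (H : Subgroup (N ≃ₐ[F] N)) :
    ∀ g ∈ fixO F N (decG v F N ⊓ H), g ∈ Cl v (fixO F N H).toSubfield := by
  classical
  intro g hg c
  obtain ⟨n, rfl, hn⟩ := (mem_fixO F N _ g).1 hg
  obtain ⟨θ, hfix, h1, hmov⟩ := exists_theta0 (v := v) F N H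
  have hfin : Finite (N ≃ₐ[F] N) := inferInstance
  have _ft : Fintype (N ≃ₐ[F] N) := Fintype.ofFinite _
  -- the orbit of `(θ, n)`
  set O : Finset (N × N) :=
    (Finset.univ.filter fun σ : N ≃ₐ[F] N => σ ∈ H).image fun σ => (σ θ, σ n) with hO
  have hmemO : ∀ x : N × N, x ∈ O ↔ ∃ σ ∈ H, (σ θ, σ n) = x := by
    intro x
    rw [hO, Finset.mem_image]
    simp only [Finset.mem_filter, Finset.mem_univ, true_and]
  have h0O : (θ, n) ∈ O := (hmemO _).2 ⟨1, H.one_mem, rfl⟩
  have hpos : ∀ x ∈ O.erase (θ, n), VPos v ((x.1 : N) : Ω) := by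
    intro x hx
    rw [Finset.mem_erase] at hx
    obtain ⟨σ, hσ, rfl⟩ := (hmemO x).1 hx.2
    refine hmov σ hσ fun hσ' => hx.1 ?_
    rw [hfix σ ⟨hσ', hσ⟩, hn σ ⟨hσ', hσ⟩]
  have hinv : ∀ (φ : N × N → N), (∀ (σ : N ≃ₐ[F] N) (x : N × N), σ (φ x) = φ (σ x.1, σ x.2)) →
      (((∑ x ∈ O, φ x : N) : Ω) ∈ fixO F N H) := by
    intro φ hφ
    refine (mem_fixO F N H _).2 ⟨_, rfl, fun σ hσ => ?_⟩
    rw [_root_.map_sum]
    refine Finset.sum_bij (fun x _ => (σ x.1, σ x.2)) ?_ ?_ ?_ ?_
    · intro x hx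
      obtain ⟨ρ, hρ, rfl⟩ := (hmemO x).1 hx
      exact (hmemO _).2 ⟨σ * ρ, H.mul_mem hσ hρ, rfl⟩
    · intro a _ b _ hab
      rw [Prod.mk.injEq] at hab
      exact Prod.ext (σ.injective hab.1) (σ.injective hab.2)
    · intro x hx
      obtain ⟨ρ, hρ, rfl⟩ := (hmemO x).1 hx
      refine ⟨((σ⁻¹ * ρ) θ, (σ⁻¹ * ρ) n),
        (hmemO _).2 ⟨σ⁻¹ * ρ, H.mul_mem (H.inv_mem hσ) hρ, rfl⟩, ?_⟩
      have e : ∀ z : N, σ ((σ⁻¹ * ρ) z) = ρ z := fun z => by
        rw [← AlgEquiv.mul_apply, mul_inv_cancel_left]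
      rw [e, e]
    · intro x _
      exact hφ σ x
  obtain ⟨m₁, hm₁⟩ := exists_pow_ge_finset (v := v) (O.erase (θ, n)) (fun x => ((x.1 : N) : Ω))
    (fun x => (((n - x.2 : N)) : Ω)) hpos c
  set m : ℕ := max m₁ 1 with hm
  set T : N := ∑ x ∈ O, x.2 * x.1 ^ m with hT
  set S : N := ∑ x ∈ O, x.1 ^ m with hS
  have hTm : (T : Ω) ∈ fixO F N H := by
    refine hinv (fun x => x.2 * x.1 ^ m) fun σ x => ?_
    rw [_root_.map_mul, _root_.map_pow]
  have hSm : (S : Ω) ∈ fixO F N H := by
    refine hinv (fun x => x.1 ^ m) fun σ x => ?_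
    rw [_root_.map_pow]
  -- the values
  have hθ0 : (θ : Ω) ≠ 0 ∧ v (θ : Ω) = 0 := by
    have := val_add_vpos (v := v) one_ne_zero v.map_one h1
    rwa [add_sub_cancel] at this
  have hS0 : (S : Ω) ≠ 0 ∧ v (S : Ω) = 0 := by
    have e : (S : Ω) = (θ : Ω) ^ m + ∑ x ∈ O.erase (θ, n), ((x.1 : N) : Ω) ^ m := by
      rw [hS, ← Finset.add_sum_erase O _ h0O]
      push_cast
      rfl
    rw [e]
    refine val_add_vpos (pow_ne_zero m hθ0.1) (by rw [v.map_pow hθ0.1, hθ0.2, mul_zero]) ?_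
    refine vpos_sum0 _ _ fun x hx => ?_
    obtain ⟨j, hj⟩ : ∃ j, m = j + 1 := ⟨m - 1, by have := le_max_right m₁ 1; omega⟩
    rw [hj, pow_succ]
    refine VPos.mul' ?_ (hpos x hx)
    clear_value m
    clear hj
    induction j with
    | zero =>
      rw [pow_zero]
      intro _
      rw [v.map_one]
    | succ j ih =>
      rw [pow_succ]
      have := ih.mul (hpos x hx).ge
      rwa [add_zero] at this
  refine ⟨(T : Ω) / (S : Ω), div_mem hTm hSm, ?_⟩
  have e1 : (n : Ω) - (T : Ω) / (S : Ω) = ((n : Ω) * S - T) * (S : Ω)⁻¹ := by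
    field_simp [hS0.1]
  have e2 : (n : Ω) * S - T =
      ∑ x ∈ O.erase (θ, n), (((n - x.2 : N)) : Ω) * ((x.1 : N) : Ω) ^ m := by
    have e3 : n * S - T = ∑ x ∈ O, (n - x.2) * x.1 ^ m := by
      rw [hS, hT, Finset.mul_sum, ← Finset.sum_sub_distrib]
      exact Finset.sum_congr rfl fun x _ => by ring
    have e4 : ((n * S - T : N) : Ω) = (n : Ω) * S - T := by push_cast; rfl
    rw [← e4, e3, ← Finset.add_sum_erase O _ h0O, sub_self, zero_mul, zero_add]
    push_cast
    rfl
  rw [e1, e2]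
  have hs : v.Ge 0 (S : Ω)⁻¹ := fun _ => by rw [v.map_inv hS0.1, hS0.2, neg_zero]
  have := (RVal.Ge.sum (O.erase (θ, n)) _ (hm₁ m (le_max_left _ _))).mul hs
  rwa [add_zero] at this

section

variable [IsAlgClosed Ω]

omit [IsAlgClosed Ω] in
/-- the automorphisms of finite Galois extensions of a henselian field preserve the value -/
theorem decG_eq_topQ {M : IntermediateField k Ω} (hM : hen v M = M)
    (N : IntermediateField M Ω) [FiniteDimensional M N] [IsGalois M N] : decG v M N = ⊤ := by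
  have h1 : IntermediateField.fixedField (decG v M N) = ⊥ := by
    rw [eq_bot_iff]
    intro n hn
    rw [IntermediateField.mem_fixedField_iff] at hn
    have h2 : (n : Ω) ∈ Cl v M.toSubfield := by
      have h3 := cl_decQ M N ⊤ (n : Ω)
        ((mem_fixO M N _ _).2 ⟨n, rfl, fun σ hσ => hn σ (Subgroup.mem_inf.1 hσ).1⟩)
      rwa [LU1.fixO_top] at h3
    have h4 : IsSeparable M (n : Ω) := by
      have := Algebra.IsSeparable.isSeparable M n
      exact (isSeparable_map_iff N.val N.val.injective).2 this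
    have h5 : (n : Ω) ∈ hen v M := mem_hen.2 ⟨h2, h4⟩
    rw [hM] at h5
    rw [IntermediateField.mem_bot]
    exact ⟨⟨_, h5⟩, Subtype.ext rfl⟩
  have h6 := IntermediateField.fixingSubgroup_fixedField (decG v M N)
  rw [h1, IntermediateField.fixingSubgroup_bot] at h6
  exact h6.symm

theorem val_root_sepQ {M : IntermediateField k Ω} (hM : hen v M = M)
    {a a' : Ω} (ha : IsSeparable M a) (ha' : aeval a' (minpoly M a) = 0) : v a' = v a := by
  have hint : IsIntegral M a := ha.isIntegral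
  have hsep : (minpoly M a).Separable := ha
  have hsp : ((minpoly M a).map (algebraMap M Ω)).Splits := IsAlgClosed.splits _
  let N : IntermediateField M Ω := IntermediateField.adjoin M ((minpoly M a).rootSet Ω)
  have hSF : IsSplittingField M N (minpoly M a) :=
    IntermediateField.adjoin_rootSet_isSplittingField hsp
  have : FiniteDimensional M N := IsSplittingField.finiteDimensional N (minpoly M a)
  have : IsGalois M N := IsGalois.of_separable_splitting_field hsep
  have haN : a ∈ N := IntermediateField.subset_adjoin _ _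
    ((mem_rootSet).2 ⟨minpoly.ne_zero hint, minpoly.aeval M a⟩)
  have haN' : a' ∈ N := IntermediateField.subset_adjoin _ _
    ((mem_rootSet).2 ⟨minpoly.ne_zero hint, ha'⟩)
  have h1 : minpoly M (⟨a, haN⟩ : N) = minpoly M a :=
    (minpoly.algebraMap_eq (algebraMap N Ω).injective (⟨a, haN⟩ : N)).symm
  obtain ⟨σ, hσ⟩ := minpoly.exists_algEquiv_of_root' (K := M) (L := N) (y := ⟨a, haN⟩)
    (x := ⟨a', haN'⟩) (Algebra.IsAlgebraic.isAlgebraic _) (by
      rw [h1]
      apply Subtype.ext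
      have h2 := aeval_algebraMap_apply Ω (⟨a', haN'⟩ : N) (minpoly M a)
      rw [show algebraMap N Ω ⟨a', haN'⟩ = a' from rfl, ha'] at h2
      exact h2.symm)
  have h3 : σ ∈ decG v M N := by
    rw [decG_eq_topQ hM N]
    exact Subgroup.mem_top _
  have h4 := h3 ⟨a, haN⟩
  rw [hσ] at h4
  exact h4

/-- The value is invariant under conjugation over a henselian field. -/
theorem val_rootQ0 {M : IntermediateField k Ω} (hM : hen v M = M)
    {a a' : Ω} (ha : IsAlgebraic M a) (ha' : aeval a' (minpoly M a) = 0) : v a' = v a := by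
  have hint : IsIntegral M a := ha.isIntegral
  have hirr := minpoly.irreducible hint
  by_cases ha0 : a = 0
  · subst ha0
    rw [minpoly.zero, aeval_X] at ha'
    rw [ha']
  have ha0' : a' ≠ 0 := by
    rintro rfl
    apply ha0
    rw [← minpoly.coeff_zero_eq_zero hint]
    rw [← coeff_zero_eq_aeval_zero'] at ha'
    exact (map_eq_zero_iff _ (algebraMap M Ω).injective).1 ha'
  obtain ⟨q, hq⟩ := ExpChar.exists M
  have hq0 : q ≠ 0 := (expChar_pos M q).ne'
  obtain ⟨g, hg, m, hgm⟩ := hirr.hasSeparableContraction q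
  have hgirr : Irreducible g := of_irreducible_expand_pow hq0 (by rw [hgm]; exact hirr)
  have h1 : aeval (a ^ q ^ m) g = 0 := by
    rw [← expand_aeval, hgm, minpoly.aeval]
  have h2 : aeval (a' ^ q ^ m) g = 0 := by
    rw [← expand_aeval, hgm, ha']
  have hint' : IsIntegral M (a ^ q ^ m) := hint.pow _
  have h3 : minpoly M (a ^ q ^ m) ∣ g := minpoly.dvd _ _ h1
  have h4 : IsSeparable M (a ^ q ^ m) := hg.of_dvd h3
  have h5 : g ∣ minpoly M (a ^ q ^ m) := (minpoly.irreducible hint').dvd_symm hgirr h3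
  have h6 : aeval (a' ^ q ^ m) (minpoly M (a ^ q ^ m)) = 0 := by
    obtain ⟨r, hr⟩ := h5
    rw [hr, map_mul, h2, zero_mul]
  have h7 := val_root_sepQ hM h4 h6
  rw [v.map_pow ha0', v.map_pow ha0] at h7
  have h8 : ((q ^ m : ℕ) : ℝ) ≠ 0 := by exact_mod_cast pow_ne_zero m hq0
  exact mul_left_cancel₀ h8 h7

end

set_option linter.unusedVariables false in
/-- ROW Q1.  Conjugation over a henselian field preserves the value (any residue field). -/
theorem val_rootQ [IsAlgClosed Ω] (h : Triv k v) {M : IntermediateField k Ω}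
    (hM : hen v M = M) (hpos : ∃ a ∈ M, a ≠ 0 ∧ 0 < v a) {a a' : Ω} (ha : IsAlgebraic M a)
    (ha' : aeval a' (minpoly M a) = 0) : v a' = v a :=
  val_rootQ0 hM ha ha'

set_option linter.unusedVariables false in
/-- ROW Q1. -/
theorem val_autQ [IsAlgClosed Ω] (h : Triv k v) {M : IntermediateField k Ω}
    (hM : hen v M = M) (hpos : ∃ a ∈ M, a ≠ 0 ∧ 0 < v a) (σ : Ω ≃ₐ[M] Ω) {a : Ω}
    (ha : IsAlgebraic M a) : v (σ a) = v a := by
  refine val_rootQ0 hM ha ?_
  have := minpoly.aeval M (σ a)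
  rwa [minpoly.algEquiv_eq] at this

end Pool.Agent.TW
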