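import Pool.Agent.Lib.TWQ.Q2a
import Pool.Agent.Lib.TWQ.Q1

/-!
# TANK W, row Q2: `exists_gen_of_limAlg` for any residue field
-/

set_option autoImplicit false

open Polynomial

namespace Pool.Agent.TW

open Pool.Agent.H15JM (RVal)
open Pool.Agent.LU1 (VPos adj)
open Pool.Agent.D2P (hen)

universe u

variable {k Ω : Type u} [Field k] [Field Ω] [Algebra k Ω] {v : RVal Ω}

/-- ROW Q2.  `exists_gen_of_limAlg` (row NB2) for any residue field. -/
theorem exists_gen_of_limAlgQ [IsAlgClosed k] [IsAlgClosed Ω] (h : Triv k v)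
    {L : IntermediateField k Ω} (hpos : ∃ a ∈ L, a ≠ 0 ∧ 0 < v a) {w θ : Ω}
    (hw : Transcendental L w) (hθ : IsSeparable (adj L w) θ) (hcl : LimAlg v L w)
    (hΩ : ∀ g : Ω, IsAlgebraic (adj L w) g) :
    ∃ z : Ω, Transcendental L z ∧ LimAlg v L z ∧ hen v (adj (adj L w) θ) = hen v (adj L z) :=
  Q2.exists_gen h (fun _ hM hposM hΩM σ a => val_autQ h hM hposM σ (hΩM a)) hpos hw hθ hcl hΩ

end Pool.Agent.TW
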