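import Pool.Agent.Lib.TWN.Defs

/-!
# TANK W, Q: definitions for the real valuations with arbitrary residue field
-/

set_option autoImplicit false

namespace Pool.Agent.TW

open Pool.Agent.H15JM (RVal)
open Pool.Agent.LU1 (VPos adj)

universe u

/-- `v` is trivial on `k` (no condition on the residue field). -/
def Triv (k : Type u) {Ω : Type u} [Field k] [Field Ω] [Algebra k Ω] (v : RVal Ω) : Prop :=
  ∀ c : k, c ≠ 0 → v (algebraMap k Ω c) = 0

variable {k Ω : Type u} [Field k] [Field Ω] [Algebra k Ω]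

/-- The residue of `u` is transcendental over the residues of the elements algebraic over `L`. -/
def GenRes (W : RVal Ω) (L : IntermediateField k Ω) (u : Ω) : Prop :=
  ∀ β : Ω, IsAlgebraic L β → W.Ge 0 β → u ≠ β ∧ W (u - β) = 0

/-- The Abhyankar defect of `v` on `C` is at most `δ`: `r` elements of `C` with rationally
independent values, `q` elements with algebraically independent residues,
`trdeg C ≤ r + q + δ`. -/
def DefL (v : RVal Ω) (C : IntermediateField k Ω) (δ : ℕ) : Prop :=
  ∃ (r q : ℕ) (x : Fin r → Ω) (y : Fin q → Ω), Algebra.trdeg k C ≤ ((r + q + δ : ℕ) : Cardinal) ∧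
    (∀ i, x i ∈ C ∧ x i ≠ 0) ∧ LinearIndependent ℚ (fun i => v (x i)) ∧
    (∀ i, y i ∈ C ∧ v.Ge 0 (y i)) ∧
    ∀ P : MvPolynomial (Fin q) k, P ≠ 0 →
      MvPolynomial.aeval y P ≠ 0 ∧ v (MvPolynomial.aeval y P) = 0

end Pool.Agent.TW
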