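import Pool.Agent.Lib.TWN.WTa
import Pool.Agent.Lib.TWN.GWs
import Pool.Agent.Lib.TWQ.Defs
import Pool.Agent.Lib.TWQ.Q3

/-!
# TANK W, Q4: the W-trick for any residue field
-/

set_option autoImplicit false

open Polynomial

namespace Pool.Agent.TW

open Pool.Agent.H15JM (RVal)
open Pool.Agent.LU1 (VPos adj)
open Pool.Agent.LUC (LUs QuoIs)
open Pool.Agent.TWT (cm cm_apply Dom quoIs_of_closure lus_of_trans vpos_hasse)

universe u

variable {k Ω : Type u} [Field k] [Field Ω] [Algebra k Ω] {v : RVal Ω}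

open WTa in
/-- The W-trick, with a predicate `Pr` for the residue of the new element. -/
theorem lus_of_gauss_core [IsAlgClosed k] [IsAlgClosed Ω] (h : Triv k v)
    {L : IntermediateField k Ω} (Pr : RVal Ω → Ω → Prop) (hL : L.FG) (hpos : ∃ a ∈ L, a ≠ 0 ∧ 0 < v a) {z : Ω}
    (hz : Transcendental L z) (hΩ : ∀ g : Ω, IsAlgebraic (adj L z) g) (hroom : Room v L z)
    (hshift : ∀ {z c₀ : Ω}, Transcendental L z → c₀ ∈ L → (∀ g : Ω, IsAlgebraic (adj L z) g) →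
      ∃ Φ : k → (Ω ≃ₐ[L] Ω), (∀ c, Φ c z = z + algebraMap k Ω c * c₀) ∧
        ∀ (c : k) (α : Ω), IsAlgebraic L α → Φ c α = α)
    (hgauss : ∀ {z c₀ α : Ω}, Transcendental L z → c₀ ∈ L → c₀ ≠ 0 → IsAlgebraic L α →
      v c₀ < v (z - α) → (∀ g : Ω, IsAlgebraic (adj L z) g) → ∀ Φ : k → (Ω ≃ₐ[L] Ω),
      Shift L z c₀ Φ →
      ∃ W : RVal Ω, (∀ f, f ≠ 0 → IsAlgebraic L f → W f = v f) ∧
        (∀ f ∈ adj ((algebraicClosure L Ω).restrictScalars k) z, f ≠ 0 →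
          {c : k | v (Φ c f) ≠ W f}.Finite) ∧
        (∀ β : Ω, IsAlgebraic L β → v (z - β) < v c₀ → W (z - β) = v (z - β)) ∧
        Pr W ((z - α) / c₀))
    (hW : ∀ W : RVal Ω, (∀ f, f ≠ 0 → IsAlgebraic L f → W f = v f) →
      (∃ α c₀ : Ω, IsAlgebraic L α ∧ c₀ ∈ L ∧ c₀ ≠ 0 ∧ Pr W ((z - α) / c₀)) →
      LUs W (algebraMap k Ω).range (adj L z).toSubfield) :
    LUs v (algebraMap k Ω).range (adj L z).toSubfield := by
  classical
  have hk : ∀ c : k, c ≠ 0 → v (algebraMap k Ω c) = 0 := h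
  obtain ⟨A1, hA1, hq1⟩ := exists_gens v hL
  have hz0 : z ≠ 0 := by
    rintro rfl
    exact hz (isAlgebraic_zero)
  -- `z' = d z` has value `≥ 0`
  obtain ⟨d, hd, hd0, hdv⟩ : ∃ d ∈ L, d ≠ 0 ∧ 0 ≤ v (d * z) := by
    obtain ⟨a, ha, ha0, hav⟩ := hpos
    obtain ⟨N, hN⟩ := exists_nat_gt (-v z / v a)
    refine ⟨a ^ N, pow_mem ha N, pow_ne_zero N ha0, ?_⟩
    rw [v.map_mul (pow_ne_zero N ha0) hz0, v.map_pow ha0]
    rw [div_lt_iff₀ hav] at hN
    linarith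
  have hz'tr := transcendental_smul hz hd hd0
  have hadj := adj_smul (z := z) hd hd0
  have hΩ' : ∀ g : Ω, IsAlgebraic (adj L (d * z)) g := by rw [hadj]; exact hΩ
  have hz'0 : d * z ≠ 0 := mul_ne_zero hd0 hz0
  rw [← hadj]
  rw [← hadj] at hW
  obtain ⟨z', hz'⟩ : ∃ z' : Ω, z' = d * z := ⟨_, rfl⟩
  have hz'd : z' = d * z := hz'
  rw [← hz'] at hdv hz'tr hΩ' hz'0 hW ⊢
  refine lus_of_trans hk (fun c => L.algebraMap_mem c) ?_ (LU1.mem_adj_self L z')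
    (fun _ => hdv) (fun f hf hf0 => exists_frac hf hf0) A1 hA1 hq1 ?_
  · intro x hx
    exact LU1.mem_adj_left hx
  intro S hS
  -- room
  obtain ⟨RS, hRS⟩ : ∃ RS : Finset Ω, RS = insert 0 (S.biUnion fun P => P.roots.toFinset) :=
    ⟨_, rfl⟩
  have hRSalg : ∀ β ∈ RS, IsAlgebraic L β := by
    intro β hβ
    rw [hRS, Finset.mem_insert, Finset.mem_biUnion] at hβ
    rcases hβ with rfl | ⟨P, hP, hβ⟩
    · exact isAlgebraic_zero
    · rw [Multiset.mem_toFinset] at hβ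
      exact root_alg (hS P hP).1 (Polynomial.ne_zero_of_mem_roots hβ)
        (Polynomial.isRoot_of_mem_roots hβ)
  have hdalg : IsAlgebraic L d := isAlgebraic_algebraMap (⟨d, hd⟩ : L)
  have hdialg : IsAlgebraic L (d⁻¹ : Ω) := isAlgebraic_algebraMap (⟨d⁻¹, L.inv_mem hd⟩ : L)
  have hzne : ∀ β : Ω, IsAlgebraic L β → z' - β ≠ 0 := by
    intro β hβ h0
    apply hz'tr
    rw [sub_eq_zero.1 h0]
    exact hβ
  have hzne' : ∀ β : Ω, IsAlgebraic L β → z - β ≠ 0 := by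
    intro β hβ h0
    apply hz
    rw [sub_eq_zero.1 h0]
    exact hβ
  obtain ⟨X, hX, hroom⟩ := hroom
  obtain ⟨e, α, hα, h1, h2⟩ := hroom (RS.image fun β => d⁻¹ * β) (by
    intro β hβ
    obtain ⟨γ, hγ, rfl⟩ := Finset.mem_image.1 hβ
    exact hdialg.mul (hRSalg γ hγ))
  obtain ⟨c₁, hc₁⟩ : ∃ c₁ : Ω, c₁ = ∏ x ∈ X, x ^ e x := ⟨_, rfl⟩
  rw [← hc₁] at h1 h2
  have hc₁L : c₁ ∈ L := by
    rw [hc₁]
    exact prod_mem fun x hx => zpow_mem (hX x hx).1 _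
  have hc₁0 : c₁ ≠ 0 := by
    rw [hc₁]
    exact Finset.prod_ne_zero_iff.2 fun x hx => zpow_ne_zero _ (hX x hx).2
  obtain ⟨c₀, hc₀⟩ : ∃ c₀ : Ω, c₀ = d * c₁ := ⟨_, rfl⟩
  have hc₀L : c₀ ∈ L := by rw [hc₀]; exact mul_mem hd hc₁L
  have hc₀0 : c₀ ≠ 0 := by rw [hc₀]; exact mul_ne_zero hd0 hc₁0
  have hval : v c₀ = v d + v c₁ := by rw [hc₀, v.map_mul hd0 hc₁0]
  have hlow : ∀ β ∈ RS, v (z' - β) < v c₀ := by
    intro β hβ
    have h3 := h1 (d⁻¹ * β) (Finset.mem_image_of_mem _ hβ)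
    have h4 : z' - β = d * (z - d⁻¹ * β) := by
      rw [hz', mul_sub, mul_inv_cancel_left₀ hd0]
    rw [h4, v.map_mul hd0 (hzne' _ (hdialg.mul (hRSalg β hβ))), hval]
    linarith
  have hhigh : v c₀ < v (z' - d * α) := by
    have h4 : z' - d * α = d * (z - α) := by rw [hz']; ring
    rw [h4, v.map_mul hd0 (hzne' _ hα), hval]
    linarith
  obtain ⟨Φ, hΦz, hΦa⟩ := hshift hz'tr hc₀L hΩ'
  obtain ⟨W, hWL, hWf, hWβ, hWu⟩ := hgauss hz'tr hc₀L hc₀0 (hdalg.mul hα) hhigh hΩ' Φ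
    ⟨hΦz, hΦa⟩
  have hWL' : ∀ x ∈ L.toSubfield, x ≠ 0 → W x = v x := fun x hx hx0 =>
    hWL x hx0 (isAlgebraic_algebraMap (⟨x, hx⟩ : L))
  have hz'W : W z' = v z' := by
    have h3 := hWβ 0 isAlgebraic_zero (hlow 0 (by rw [hRS]; exact Finset.mem_insert_self _ _))
    rwa [sub_zero] at h3
  refine ⟨W, c₀, hc₀L, ?_, hWL', ?_, ?_, ?_, ?_⟩
  · intro _
    have h3 := hlow 0 (by rw [hRS]; exact Finset.mem_insert_self _ _)
    rw [sub_zero] at h3
    linarith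
  · intro _
    rw [hz'W]
    exact hdv
  · refine hW W hWL ⟨α, c₁, hα, hc₁L, hc₁0, ?_⟩
    have h3 : (z - α) / c₁ = (z' - d * α) / c₀ := by
      rw [hz'd, hc₀, ← mul_sub, mul_div_mul_left _ _ hd0]
    rw [h3]
    exact hWu
  · -- the errors
    intro P hP j hj
    have hP0 : P ≠ 0 := by
      rintro rfl
      exact (hS 0 hP).2 eval_zero
    refine vpos_hasse P.roots (a := P.leadingCoeff) ?_ (hS P hP).2 ?_ j hj
    · exact (IsAlgClosed.splits P).eq_prod_roots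
    · intro β hβ
      have hβRS : β ∈ RS := by
        rw [hRS, Finset.mem_insert, Finset.mem_biUnion]
        exact Or.inr ⟨P, hP, Multiset.mem_toFinset.2 hβ⟩
      intro _
      rw [W.map_div hc₀0 (hzne β (hRSalg β hβRS)), hWL' c₀ hc₀L hc₀0,
        hWβ β (hRSalg β hβRS) (hlow β hβRS)]
      have := hlow β hβRS
      linarith
  · intro U hU
    have hle : adj L z' ≤ adj ((algebraicClosure L Ω).restrictScalars k) z' := by
      refine sup_le_sup_right ?_ _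
      intro x hx
      rw [IntermediateField.mem_restrictScalars]
      exact (algebraicClosure L Ω).algebraMap_mem (⟨x, hx⟩ : L)
    have hfin : (⋃ f ∈ (U.filter fun f => f ≠ 0 : Finset Ω), {c : k | v (Φ c f) ≠ W f}).Finite := by
      refine Set.Finite.biUnion (Finset.finite_toSet _) fun f hf => ?_
      have hf' := Finset.mem_filter.1 (Finset.mem_coe.1 hf)
      exact hWf f (hle (hU f hf'.1)) hf'.2
    have hkinf : Infinite k := IsAlgClosed.instInfinite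
    obtain ⟨a, ha⟩ := hfin.exists_notMem
    refine ⟨a, (Φ a).toRingEquiv, fun x hx => ?_, hΦz a, ?_⟩
    · exact (Φ a).commutes (⟨x, hx⟩ : L)
    · intro f hf hf0
      have h3 : v (Φ a f) = W f := by
        by_contra h4
        apply ha
        rw [Set.mem_iUnion₂]
        exact ⟨f, Finset.mem_filter.2 ⟨hf, hf0⟩, h4⟩
      have h4 : (cm v (Φ a).toRingEquiv) f = W f := h3
      rw [h4]
      exact ⟨fun h => h, fun h => h⟩

/-- ROW Q4.  The W-trick for any residue field. -/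
theorem lus_of_gaussQ [IsAlgClosed k] [IsAlgClosed Ω] (h : Triv k v) {L : IntermediateField k Ω}
    (hL : L.FG) (hpos : ∃ a ∈ L, a ≠ 0 ∧ 0 < v a) {z : Ω} (hz : Transcendental L z)
    (hΩ : ∀ g : Ω, IsAlgebraic (adj L z) g) (hlim : LimAlg v L z)
    (hW : ∀ W : RVal Ω, Triv k W → (∀ f, f ≠ 0 → IsAlgebraic L f → W f = v f) →
      (∃ α c₀ : Ω, IsAlgebraic L α ∧ c₀ ∈ L ∧ c₀ ≠ 0 ∧ GenRes W L ((z - α) / c₀)) →
      LUs W (algebraMap k Ω).range (adj L z).toSubfield) :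
    LUs v (algebraMap k Ω).range (adj L z).toSubfield := by
  classical
  have halg : ∀ f ∈ L, IsAlgebraic L f := fun f hf => isAlgebraic_algebraMap (⟨f, hf⟩ : L)
  have hne : ∀ β : Ω, IsAlgebraic L β → z ≠ β := by
    rintro β hβ rfl
    exact hz hβ
  -- room
  have hroom : Room v L z := by
    obtain ⟨a, ha, ha0, hav⟩ := hpos
    refine ⟨{a}, fun x hx => by rw [Finset.mem_singleton.1 hx]; exact ⟨ha, ha0⟩, fun S hS => ?_⟩
    obtain ⟨C, hC⟩ : ∃ C : ℝ, ∀ β ∈ S, v (z - β) < C := by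
      obtain ⟨C, hC⟩ := (S.image fun β => v (z - β)).bddAbove
      exact ⟨C + 1, fun β hβ => (hC (Finset.mem_coe.2 (Finset.mem_image_of_mem _ hβ))).trans_lt
        (lt_add_one C)⟩
    obtain ⟨n, hn⟩ := exists_nat_gt (C / v a)
    rw [div_lt_iff₀ hav] at hn
    have hprod : ∏ x ∈ ({a} : Finset Ω), x ^ ((fun _ => (n : ℤ)) x : ℤ) = a ^ n := by
      rw [Finset.prod_singleton, zpow_natCast]
    obtain ⟨α, hα, h1⟩ := hlim (v (a ^ n) + 1)
    refine ⟨fun _ => (n : ℤ), α, hα, fun β hβ => ?_, ?_⟩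
    · rw [hprod, v.map_pow ha0]
      exact (hC β hβ).trans hn
    · rw [hprod]
      have h2 := h1 (sub_ne_zero.2 (hne α hα))
      linarith
  refine lus_of_gauss_core h (fun W u => (∀ f, f ≠ 0 → IsAlgebraic L f → W f = v f) →
    GenRes W L u) hL hpos hz hΩ hroom (fun hz hc hΩ => exists_shift hz hc hΩ) ?_ ?_
  · intro z c₀ α hz hc hc0 hα hlt hΩ Φ hΦ
    obtain ⟨W, h1, h2, h3, h4⟩ := exists_gaussQ h hz hc hc0 hα hlt hΩ Φ hΦ
    refine ⟨W, h1, h2, h3, fun _ β hβ hβW => ⟨?_, h4 β hβ ?_⟩⟩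
    · intro h5
      apply hz
      have h6 : z = β * c₀ + α := by
        rw [div_eq_iff hc0] at h5
        rw [← h5]
        ring
      rw [h6]
      exact (hβ.mul (isAlgebraic_algebraMap (⟨c₀, hc⟩ : L))).add hα
    · intro hβ0
      rw [← h1 β hβ0 hβ]
      exact hβW hβ0
  · intro W hWL ⟨α, c₀, hα, hc, hc0, hG⟩
    refine hW W (fun c hc => ?_) hWL ⟨α, c₀, hα, hc, hc0, hG hWL⟩
    rw [hWL _ ((_root_.map_ne_zero _).2 hc) (halg _ (L.algebraMap_mem c))]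
    exact h c hc

end Pool.Agent.TW
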