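import Pool.Agent.Lib.TWQ.Defs
import Pool.Agent.Lib.TWM.StabA

/-!
# TANK W, row Q5b: the limits of elements algebraic over `C` form an algebraically closed field
-/

set_option autoImplicit false

open Polynomial

namespace Pool.Agent.TW

open Pool.Agent.H15JM (RVal)
open Pool.Agent.D2P (clI mem_clI)

universe u

variable {k Ω : Type u} [Field k] [Field Ω] [Algebra k Ω] {v : RVal Ω}

/-- The limits of elements algebraic over `C` are the elements of the closure of the algebraic
closure of `C`. -/
theorem limAlg_iff {C : IntermediateField k Ω} {z : Ω} :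
    LimAlg v C z ↔ z ∈ clI v (TWM.algc C) := by
  rw [mem_clI]
  constructor
  · intro h c
    obtain ⟨α, hα, h1⟩ := h c
    exact ⟨α, TWM.mem_algc.2 hα, h1⟩
  · intro h c
    obtain ⟨α, hα, h1⟩ := h c
    exact ⟨α, TWM.mem_algc.1 hα, h1⟩

/-- ROW Q5b.  The field of the limits is algebraically closed. -/
theorem LimAlg.of_isAlgebraic [IsAlgClosed Ω] {C E : IntermediateField k Ω}
    (hE : ∀ a ∈ E, LimAlg v C a) {e : Ω} (he : IsAlgebraic E e) : LimAlg v C e := by
  have hle : E ≤ clI v (TWM.algc C) := fun a ha => limAlg_iff.1 (hE a ha)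
  intro c
  obtain ⟨θ, hθ, h1⟩ := TWM.exists_near_alg (D2P.isAlgebraic_mono hle he) c
  exact ⟨θ, TWM.isAlgebraic_of_algc hθ, h1⟩

/-- ROW Q5b.  The field of the limits is algebraically closed (only the closure under the field
operations and under separable roots is needed). -/
theorem LimAlg.field [IsAlgClosed Ω] {C : IntermediateField k Ω}
    (_hpos : ∃ a ∈ C, a ≠ 0 ∧ 0 < v a) {S : Set Ω} (hS : ∀ s ∈ S, LimAlg v C s) {e : Ω}
    (he : IsAlgebraic (IntermediateField.adjoin k ((C : Set Ω) ∪ S)) e) : LimAlg v C e := by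
  refine LimAlg.of_isAlgebraic (fun a ha => ?_) he
  have hle : IntermediateField.adjoin k ((C : Set Ω) ∪ S) ≤ clI v (TWM.algc C) := by
    rw [IntermediateField.adjoin_le_iff]
    rintro s (hs | hs)
    · exact LUC.Cl.subset (TWM.le_algc C hs)
    · exact limAlg_iff.1 (hS s hs)
  exact limAlg_iff.2 (hle ha)

end Pool.Agent.TW
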