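import Pool.Agent.Lib.TWQ.Q5
import Pool.Agent.Lib.TWQ.Q2
import Pool.Agent.Lib.TWQ.Q4
import Pool.Agent.Lib.TWQ.Q5a
import Pool.Agent.Lib.TWQ.Q5b

/-!
# TANK W, row Q5: the induction, unconditional
-/

set_option autoImplicit false

namespace Pool.Agent.TW

open Pool.Agent.H15JM (RVal)
open Pool.Agent.LUC (LUs)

universe u

variable {k Ω : Type u} [Field k] [Field Ω] [Algebra k Ω]

/-- ROW Q5.  The induction: `t_1 .. t_(m+s)` is a separating transcendence basis of `E`, and `E` is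
in the completion of the algebraic closure of `k(t_1 .. t_m)`, which has defect at most one. -/
theorem lus_of_basis (p : ℕ) [Fact p.Prime] [CharP k p] [IsAlgClosed k] [IsAlgClosed Ω] :
    ∀ (s m : ℕ) (v : RVal Ω) (_ : Triv k v) (t : Fin m → Ω) (t' : Fin s → Ω)
      (_ : AlgebraicIndependent k (Sum.elim t t')) (E : IntermediateField k Ω) (_ : E.FG)
      (_ : ∀ i, t i ∈ E) (_ : ∀ i, t' i ∈ E)
      (_ : ∀ e ∈ E, IsSeparable (IntermediateField.adjoin k (Set.range t ∪ Set.range t')) e)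
      (_ : ∀ g : Ω, IsAlgebraic E g)
      (_ : ∃ a ∈ IntermediateField.adjoin k (Set.range t), a ≠ 0 ∧ 0 < v a)
      (_ : DefL v (IntermediateField.adjoin k (Set.range t)) 1)
      (_ : ∀ i, LimAlg v (IntermediateField.adjoin k (Set.range t)) (t' i)),
      LUs v (algebraMap k Ω).range E.toSubfield :=
  lus_of_basis_of
    (fun _ h _ hpos _ _ hw hθ hcl hΩ => exists_gen_of_limAlgQ h hpos hw hθ hcl hΩ)
    (fun _ h _ hL hpos _ hz hΩ hlim hW => lus_of_gaussQ h hL hpos hz hΩ hlim hW)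
    (fun _ h _ hE hpos hD => lus_of_defL p h hE hpos hD)
    (fun _ _ hpos _ hS _ he => LimAlg.field hpos hS he)

end Pool.Agent.TW
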