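import Pool.Agent.Lib.TWQ.Defs
import Pool.Agent.Lib.TWN.LUWa
import Pool.Agent.Lib.LU2_h15.AbhD
import Pool.Agent.Lib.TWM.A1

/-!
# TANK W, Q (row Q7): perturbation of a core

If no `t i` is in the completion of the algebraic closure of `k(t j : j ≠ i)` and all `t i` are
limits of elements algebraic over `L₀`, the defect of `k(t)` is at most the one of `L₀`: the `t i`
are moved one by one to elements algebraic over `L₀` without changing the values of the polynomials.
-/

set_option autoImplicit false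

open Polynomial

namespace Pool.Agent.TW

open Pool.Agent.H15JM (RVal)
open Pool.Agent.LU1 (VPos adj)
open Pool.Agent.LU2 (IsR1 IndVal IndRes DefLE)
open Pool.Agent.TWM (Gt Str PI algc mem_algc le_algc)

universe u

variable {k Ω : Type u} [Field k] [Field Ω] [Algebra k Ω] {v : RVal Ω}

namespace Q7

section sh

variable {m : ℕ}

/-- `f(X + τ e_i)`, as polynomial in `τ`. -/
noncomputable def sh (k : Type u) [Field k] {m : ℕ} (i : Fin m) :
    MvPolynomial (Fin m) k →ₐ[k] Polynomial (MvPolynomial (Fin m) k) :=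
  MvPolynomial.aeval fun j => C (MvPolynomial.X j) + if j = i then X else 0

/-- `f(t + τ e_i)`. -/
noncomputable def shT (t : Fin m → Ω) (i : Fin m) (f : MvPolynomial (Fin m) k) : Polynomial Ω :=
  (sh k i f).map (MvPolynomial.aeval t : MvPolynomial (Fin m) k →ₐ[k] Ω).toRingHom

theorem sh_coeff_zero (i : Fin m) (f : MvPolynomial (Fin m) k) : (sh k i f).coeff 0 = f := by
  have h : (Polynomial.constantCoeff (R := MvPolynomial (Fin m) k)).comp
      (sh k i).toRingHom = RingHom.id _ := by
    refine MvPolynomial.ringHom_ext (fun c => ?_) (fun j => ?_)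
    · simp [sh]
    · by_cases hj : j = i <;> simp [sh, hj]
  exact congrArg (fun φ => φ f) h

theorem shT_coeff (t : Fin m → Ω) (i : Fin m) (f : MvPolynomial (Fin m) k) (l : ℕ) :
    (shT t i f).coeff l = MvPolynomial.aeval t ((sh k i f).coeff l) := by
  rw [shT, coeff_map]
  rfl

theorem shT_coeff_zero (t : Fin m → Ω) (i : Fin m) (f : MvPolynomial (Fin m) k) :
    (shT t i f).coeff 0 = MvPolynomial.aeval t f := by
  rw [shT_coeff, sh_coeff_zero]

theorem shT_eval (t : Fin m → Ω) (i : Fin m) (f : MvPolynomial (Fin m) k) (d : Ω) :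
    (shT t i f).eval d = MvPolynomial.aeval (Function.update t i (t i + d)) f := by
  have h : (evalRingHom d).comp ((mapRingHom
      (MvPolynomial.aeval t : MvPolynomial (Fin m) k →ₐ[k] Ω).toRingHom).comp (sh k i).toRingHom) =
      (MvPolynomial.aeval (Function.update t i (t i + d)) :
        MvPolynomial (Fin m) k →ₐ[k] Ω).toRingHom := by
    refine MvPolynomial.ringHom_ext (fun c => ?_) (fun j => ?_)
    · simp [sh]
    · by_cases hj : j = i
      · subst hj
        simp [sh]
      · simp [sh, hj]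
  exact congrArg (fun φ => φ f) h

/-- The polynomial in the variable number `i`, the other ones at `t`. -/
noncomputable def one (t : Fin m → Ω) (i : Fin m) (f : MvPolynomial (Fin m) k) : Polynomial Ω :=
  MvPolynomial.aeval (fun j => if j = i then X else C (t j)) f

theorem shT_eq (t : Fin m → Ω) (i : Fin m) (f : MvPolynomial (Fin m) k) :
    shT t i f = taylor (t i) (one t i f) := by
  have h : (mapRingHom
      (MvPolynomial.aeval t : MvPolynomial (Fin m) k →ₐ[k] Ω).toRingHom).comp (sh k i).toRingHom =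
      (taylorAlgHom (t i)).toRingHom.comp (MvPolynomial.aeval
        (fun j => if j = i then X else C (t j)) : MvPolynomial (Fin m) k →ₐ[k] Polynomial Ω).toRingHom
      := by
    refine MvPolynomial.ringHom_ext (fun c => ?_) (fun j => ?_)
    · simp [sh]
    · by_cases hj : j = i
      · subst hj
        simp [sh, add_comm]
      · simp [sh, hj]
  exact congrArg (fun φ => φ f) h

theorem one_mem (t : Fin m → Ω) (i : Fin m) (f : MvPolynomial (Fin m) k) :
    one t i f ∈ PI (IntermediateField.adjoin k (t '' {j | j ≠ i})) := by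
  induction f using MvPolynomial.induction_on with
  | C c =>
    rw [one, MvPolynomial.aeval_C, IsScalarTower.algebraMap_apply k Ω (Polynomial Ω)]
    exact TWM.C_mem_PI (IntermediateField.algebraMap_mem _ c)
  | add f g hf hg =>
    rw [one, map_add]
    exact add_mem hf hg
  | mul_X f j hf =>
    rw [one, map_mul, MvPolynomial.aeval_X]
    refine mul_mem hf ?_
    split_ifs with h
    · exact TWM.X_mem_PI
    · exact TWM.C_mem_PI (IntermediateField.subset_adjoin _ _ ⟨j, h, rfl⟩)

end sh

/-- Far from the algebraic elements: the constant term dominates. -/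
theorem str_of_far [IsAlgClosed Ω] {A : IntermediateField k Ω} {z : Ω} {s : ℝ}
    (hfar : ∀ θ : Ω, IsAlgebraic A θ → z ≠ θ ∧ v (z - θ) < s) {f : Polynomial Ω} (hf : f ∈ PI A)
    (h0 : f ≠ 0) : Str v s (taylor z f) := by
  have h1 := (IsAlgClosed.splits f).eq_prod_roots
  rw [h1, taylor_mul, taylor_C]
  refine Str.mul (Str.C (leadingCoeff_ne_zero.2 h0)) (Str.multiset _ fun θ hθ => ?_)
  rw [mem_roots h0] at hθ
  exact hfar θ (TWM.isAlgebraic_root hf h0 hθ)

theorem Str.eval_near {s : ℝ} {G : Polynomial Ω} (h : Str v s G) {d : Ω} (hd : v.Ge s d) :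
    G.eval d ≠ 0 ∧ v (G.eval d) = v (G.coeff 0) := by
  have h1 : G.eval d = G.coeff 0 + ∑ l ∈ Finset.range G.natDegree, G.coeff (l + 1) * d ^ (l + 1) := by
    rw [eval_eq_sum_range, Finset.sum_range_succ', pow_zero, mul_one, add_comm]
  refine Gt.val_eq h.ne ?_
  rw [h1, sub_add_cancel_left]
  refine (Gt.sum _ _ fun l _ => ?_).neg
  have h2 := (h.gt (l + 1) (by omega)).mul_ge (TWM.ge_pow hd (l + 1))
  rwa [sub_add_cancel] at h2

section move

variable {m : ℕ}

/-- The values of the polynomials at `t` and `t'` are the same. -/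
def Same (k : Type u) {Ω : Type u} [Field k] [Field Ω] [Algebra k Ω] (v : RVal Ω) {m : ℕ}
    (t t' : Fin m → Ω) : Prop :=
  ∀ f : MvPolynomial (Fin m) k, f ≠ 0 →
    MvPolynomial.aeval t' f ≠ 0 ∧ v (MvPolynomial.aeval t' f) = v (MvPolynomial.aeval t f)

theorem Same.str {t t' : Fin m → Ω} (hti : ∀ f : MvPolynomial (Fin m) k, f ≠ 0 →
    MvPolynomial.aeval t f ≠ 0) (h : Same k v t t') {i : Fin m} {s : ℝ}
    {f : MvPolynomial (Fin m) k} (hf : f ≠ 0) (ht : Str v s (shT t i f)) : Str v s (shT t' i f) where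
  ne := by
    rw [shT_coeff_zero]
    exact (h f hf).1
  gt l hl := by
    have h1 := ht.gt l hl
    rw [shT_coeff_zero, (h f hf).2, shT_coeff]
    rw [shT_coeff_zero, shT_coeff] at h1
    by_cases h0 : (sh k i f).coeff l = 0
    · rw [h0, map_zero]
      exact Gt.zero
    · intro _
      rw [(h _ h0).2]
      exact h1 (hti _ h0)

/-- The coordinates in `S` are moved to algebraic elements. -/
theorem exists_move {L₀ : IntermediateField k Ω} {t : Fin m → Ω}
    (hti : ∀ f : MvPolynomial (Fin m) k, f ≠ 0 → MvPolynomial.aeval t f ≠ 0)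
    (hfar : ∀ i, ∃ s : ℝ, ∀ f : MvPolynomial (Fin m) k, f ≠ 0 → Str v s (shT t i f))
    (hlim : ∀ i, LimAlg v L₀ (t i)) (S : Finset (Fin m)) :
    ∃ t' : Fin m → Ω, (∀ i ∈ S, IsAlgebraic L₀ (t' i)) ∧ (∀ i, i ∉ S → t' i = t i) ∧
      Same k v t t' := by
  classical
  induction S using Finset.induction_on with
  | empty => exact ⟨t, by simp, fun _ _ => rfl, fun f hf => ⟨hti f hf, rfl⟩⟩
  | insert a S ha ih =>
    obtain ⟨t', h1, h2, h3⟩ := ih
    obtain ⟨s, hs⟩ := hfar a
    obtain ⟨α, hα, h4⟩ := hlim a s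
    have h5 : v.Ge s (α - t' a) := by
      rw [h2 a ha]
      exact TWM.ge_sub_comm h4
    refine ⟨Function.update t' a α, fun i hi => ?_, fun i hi => ?_, fun f hf => ?_⟩
    · by_cases hia : i = a
      · subst hia
        rwa [Function.update_self]
      · rw [Function.update_of_ne hia]
        exact h1 i ((Finset.mem_insert.1 hi).resolve_left hia)
    · rw [Finset.mem_insert, not_or] at hi
      rw [Function.update_of_ne hi.1]
      exact h2 i hi.2
    · have h6 := Str.eval_near (Same.str hti h3 hf (hs f hf)) h5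
      rw [shT_eval, add_sub_cancel, shT_coeff_zero, (h3 f hf).2] at h6
      exact h6

end move

/-- All the coordinates are moved. -/
theorem exists_move_all [IsAlgClosed Ω] {m : ℕ} {t : Fin m → Ω} (ht : AlgebraicIndependent k t)
    (hfar : ∀ i, ¬ LimAlg v (IntermediateField.adjoin k (t '' {j | j ≠ i})) (t i))
    {L₀ : IntermediateField k Ω} (hlim : ∀ i, LimAlg v L₀ (t i)) :
    ∃ t' : Fin m → Ω, (∀ i, IsAlgebraic L₀ (t' i)) ∧ Same k v t t' := by
  have hti : ∀ f : MvPolynomial (Fin m) k, f ≠ 0 → MvPolynomial.aeval t f ≠ 0 := fun f hf h0 =>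
    hf (ht (by rw [h0, map_zero]))
  have hfar' : ∀ i, ∃ s : ℝ, ∀ f : MvPolynomial (Fin m) k, f ≠ 0 → Str v s (shT t i f) := by
    intro i
    have h1 := hfar i
    unfold LimAlg at h1
    push Not at h1
    obtain ⟨s, hs⟩ := h1
    refine ⟨s, fun f hf => ?_⟩
    rw [shT_eq]
    refine str_of_far (A := IntermediateField.adjoin k (t '' {j | j ≠ i})) (fun θ hθ => ?_)
      (one_mem t i f) ?_
    · have h2 := hs θ hθ
      unfold RVal.Ge at h2
      push Not at h2
      exact ⟨sub_ne_zero.1 h2.1, h2.2⟩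
    · intro h0
      have h3 : (shT t i f).coeff 0 = 0 := by
        rw [shT_eq, h0, map_zero, coeff_zero]
      rw [shT_coeff_zero] at h3
      exact hti f hf h3
  obtain ⟨t', h1, -, h2⟩ := exists_move hti hfar' hlim Finset.univ
  exact ⟨t', fun i => h1 i (Finset.mem_univ i), h2⟩

/-- The isometry `t ↦ t'`. -/
theorem exists_isometry {m : ℕ} {t t' : Fin m → Ω} (ht : AlgebraicIndependent k t)
    (h : Same k v t t') {D : IntermediateField k Ω} (hD : ∀ i, t' i ∈ D) :
    ∃ φ : IntermediateField.adjoin k (Set.range t) →ₐ[k] D,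
      ∀ a : IntermediateField.adjoin k (Set.range t), a ≠ 0 → v (φ a : Ω) = v (a : Ω) := by
  have hti : ∀ f : MvPolynomial (Fin m) k, f ≠ 0 → MvPolynomial.aeval t f ≠ 0 := fun f hf h0 =>
    hf (ht (by rw [h0, map_zero]))
  have ht' : AlgebraicIndependent k t' := by
    rw [algebraicIndependent_iff]
    intro f hf
    by_contra h0
    exact (h f h0).1 hf
  let e := ht.aevalEquivField
  let e' := ht'.aevalEquivField
  have hle : IntermediateField.adjoin k (Set.range t') ≤ D :=
    IntermediateField.adjoin_le_iff.2 (by rintro _ ⟨i, rfl⟩; exact hD i)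
  let φ : IntermediateField.adjoin k (Set.range t) →ₐ[k] D :=
    (IntermediateField.inclusion hle).comp ((e'.toAlgHom).comp e.symm.toAlgHom)
  refine ⟨φ, fun a ha => ?_⟩
  have hφ : (φ a : Ω) = (e' (e.symm a) : Ω) := rfl
  have ha2 : (a : Ω) = (e (e.symm a) : Ω) := by rw [AlgEquiv.apply_symm_apply]
  obtain ⟨f, g, hg, hfg⟩ := IsFractionRing.div_surjective (A := MvPolynomial (Fin m) k) (e.symm a)
  have hg0 : g ≠ 0 := nonZeroDivisors.ne_zero hg
  have hf0 : f ≠ 0 := by
    rintro rfl
    rw [map_zero, zero_div] at hfg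
    have h3 : e.symm a = 0 := hfg.symm
    rw [map_eq_zero_iff _ e.symm.injective] at h3
    exact ha h3
  have e1 : (e (e.symm a) : Ω) = MvPolynomial.aeval t f / MvPolynomial.aeval t g := by
    rw [← hfg, map_div₀]
    change ((e (algebraMap _ _ f) : Ω)) / (e (algebraMap _ _ g) : Ω) = _
    rw [ht.aevalEquivField_algebraMap_apply_coe, ht.aevalEquivField_algebraMap_apply_coe]
  have e2 : (e' (e.symm a) : Ω) = MvPolynomial.aeval t' f / MvPolynomial.aeval t' g := by
    rw [← hfg, map_div₀]
    change ((e' (algebraMap _ _ f) : Ω)) / (e' (algebraMap _ _ g) : Ω) = _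
    rw [ht'.aevalEquivField_algebraMap_apply_coe, ht'.aevalEquivField_algebraMap_apply_coe]
  rw [hφ, ha2, e1, e2, v.map_div (h f hf0).1 (h g hg0).1, v.map_div (hti f hf0) (hti g hg0),
    (h f hf0).2, (h g hg0).2]

/-! ### valuation rings -/

theorem val_one {K : Type u} [Field K] {V : ValuationSubring K} {b : K} (hb : b ≠ 0) (h1 : b ∈ V)
    (h2 : b⁻¹ ∈ V) : V.valuation b = 1 := by
  refine le_antisymm ((V.valuation_le_one_iff b).2 h1) ?_
  have h3 := (V.valuation_le_one_iff _).2 h2
  have h5 : V.valuation b ≠ 0 := by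
    rw [Ne, map_eq_zero]
    exact hb
  rw [map_inv₀] at h3
  by_contra hcon
  push Not at hcon
  have h6 : 1 < (V.valuation b)⁻¹ := (one_lt_inv₀ (zero_lt_iff.2 h5)).2 hcon
  exact absurd h3 (not_le.2 h6)

theorem val_lt {K : Type u} [Field K] {V : ValuationSubring K} {b : K} (hb : b ≠ 0)
    (h2 : b⁻¹ ∉ V) : V.valuation b < 1 := by
  have h3 : ¬ V.valuation b⁻¹ ≤ 1 := fun h => h2 ((V.valuation_le_one_iff _).1 h)
  rw [map_inv₀, not_le] at h3
  have h5 : V.valuation b ≠ 0 := by
    rw [Ne, map_eq_zero]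
    exact hb
  exact (one_lt_inv₀ (zero_lt_iff.2 h5)).1 h3

/-- Independent residues, in the valuation ring of a subfield. -/
theorem indRes_vring {K : IntermediateField k Ω} {q : ℕ} {y : Fin q → K}
    (hy : ∀ i, v.Ge 0 (y i : Ω))
    (hP : ∀ P : MvPolynomial (Fin q) k, P ≠ 0 →
      MvPolynomial.aeval (fun i => (y i : Ω)) P ≠ 0 ∧
        v (MvPolynomial.aeval (fun i => (y i : Ω)) P) = 0) :
    IndRes k (LUW.vring v K) y := by
  refine ⟨hy, fun P hlt => ?_⟩
  by_contra hP0
  obtain ⟨h1, h2⟩ := hP P hP0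
  have h3 : ((MvPolynomial.aeval y P : K) : Ω) = MvPolynomial.aeval (fun i => (y i : Ω)) P := by
    have h4 : (K.val : K →ₐ[k] Ω) (MvPolynomial.aeval y P) =
        MvPolynomial.aeval (fun i => K.val (y i)) P := by
      rw [← AlgHom.comp_apply, MvPolynomial.comp_aeval]
    exact h4
  have h5 : MvPolynomial.aeval y P ≠ 0 := by
    intro h0
    rw [h0] at h3
    exact h1 h3.symm
  have h6 := LUW.val_lt_one h5 hlt
  rw [h3, h2] at h6
  exact lt_irrefl _ h6

/-- The transcendence degree of the algebraic closure. -/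
theorem trdeg_algc (L : IntermediateField k Ω) :
    Algebra.trdeg k (algc L) = Algebra.trdeg k L := by
  have hle : L ≤ algc L := le_algc L
  let R := IntermediateField.restrict hle
  have hadd := trdeg_add_eq k R (A := algc L)
  have h1 : Algebra.trdeg R (algc L) = 0 := by
    have : Algebra.IsAlgebraic R (algc L) := by
      refine ⟨fun x => ?_⟩
      have hx : IsAlgebraic L (x : Ω) := mem_algc.1 x.2
      obtain ⟨P, hP0, hP⟩ := hx
      let τ : L →+* R := (IntermediateField.restrictAlgEquiv hle).toRingEquiv.toRingHom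
      have hτ : Function.Injective τ := (IntermediateField.restrictAlgEquiv hle).injective
      refine ⟨P.map τ, fun h0 => hP0 (Polynomial.map_injective τ hτ ?_), ?_⟩
      · rw [Polynomial.map_zero]
        exact h0
      · refine Subtype.ext ?_
        rw [ZeroMemClass.coe_zero, ← hP]
        have h2 : (algc L).val (aeval x (P.map τ)) = aeval (x : Ω) P := by
          rw [aeval_def, eval₂_map, aeval_def]
          exact hom_eval₂ P ((algebraMap R (algc L)).comp τ) ((algc L).val : algc L →+* Ω) x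
        exact h2
    exact trdeg_eq_zero
  rw [h1, add_zero] at hadd
  rw [← hadd]
  exact (IntermediateField.restrictAlgEquiv hle).trdeg_eq.symm

/-- The defect of a field which embeds isometrically. -/
theorem defL_of_isometry (h : Triv k v) {D K : IntermediateField k Ω} {δ : ℕ}
    (hD : DefLE k (LUW.vring v D) δ) (hfin : Algebra.trdeg k D < Cardinal.aleph0)
    (φ : K →ₐ[k] D) (hφ : ∀ a : K, a ≠ 0 → v (φ a : Ω) = v (a : Ω)) : DefL v K δ := by
  have hk : ∀ c : k, algebraMap k D c ∈ LUW.vring v D := by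
    intro c h0
    have hc : c ≠ 0 := by
      rintro rfl
      exact h0 (by rw [map_zero]; rfl)
    exact (h c hc).ge
  have hL := DefLE.comap_any hk hfin φ.fieldRange hD
  set L := φ.fieldRange with hLdef
  set V := (LUW.vring v D).comap (algebraMap L D) with hV
  let e : K ≃ₐ[k] L := AlgEquiv.ofInjectiveField φ
  have he : ∀ a : K, ((e a : L) : D) = φ a := fun a => rfl
  have hval : ∀ b : L, b ≠ 0 → v ((e.symm b : K) : Ω) = v ((b : D) : Ω) := by
    intro b hb
    rw [← hφ _ (fun h0 => hb ((map_eq_zero_iff _ e.symm.injective).1 h0)), ← he,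
      AlgEquiv.apply_symm_apply]
  have hmem : ∀ b : L, b ∈ V ↔ v.Ge 0 ((b : D) : Ω) := fun b => Iff.rfl
  have hne : ∀ b : L, b ≠ 0 → ((b : D) : Ω) ≠ 0 := fun b hb h0 =>
    hb (Subtype.ext (Subtype.ext h0))
  have hinv : ∀ b : L, (((b⁻¹ : L) : D) : Ω) = ((b : D) : Ω)⁻¹ := fun b => rfl
  obtain ⟨r, q, htr, ⟨x, hx0, hx⟩, z, hz, hzP⟩ := hL
  refine ⟨r, q, fun i => ((e.symm (x i) : K) : Ω), fun i => ((e.symm (z i) : K) : Ω), ?_,
    fun i => ⟨(e.symm (x i)).2, ?_⟩, ?_, fun i => ⟨(e.symm (z i)).2, ?_⟩, fun P hP => ?_⟩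
  · rw [e.trdeg_eq]
    exact htr
  · intro h0
    have h1 : e.symm (x i) = 0 := Subtype.ext h0
    exact hx0 i ((map_eq_zero_iff _ e.symm.injective).1 h1)
  · rw [← LinearIndependent.iff_fractionRing ℤ ℚ, Fintype.linearIndependent_iff]
    intro g hg
    have h1 : v (((∏ i, x i ^ g i : L) : D) : Ω) = 0 := by
      have h2 : (((∏ i, x i ^ g i : L) : D) : Ω) = ∏ i, ((x i : D) : Ω) ^ g i := by
        have h3 : (((∏ i, x i ^ g i : L) : D) : Ω) = D.val (L.val (∏ i, x i ^ g i)) := rfl
        rw [h3, map_prod, map_prod]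
        refine Finset.prod_congr rfl fun i _ => ?_
        rw [map_zpow₀, map_zpow₀]
        rfl
      rw [h2, v.map_prod _ _ fun i _ => zpow_ne_zero _ (hne _ (hx0 i)), ← hg]
      refine Finset.sum_congr rfl fun i _ => ?_
      rw [v.map_zpow (hne _ (hx0 i)), hval _ (hx0 i), zsmul_eq_mul]
    have h0 : (∏ i, x i ^ g i : L) ≠ 0 :=
      Finset.prod_ne_zero_iff.2 fun i _ => zpow_ne_zero _ (hx0 i)
    have h3 := hx (Finsupp.equivFunOnFinite.symm g) (by
      rw [Finsupp.prod_fintype _ _ (fun i => zpow_zero _)]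
      refine val_one h0 ?_ ?_
      · rw [hmem]
        intro _
        exact h1.ge
      · rw [hmem, hinv]
        intro _
        change 0 ≤ v ((((∏ i, x i ^ g i : L) : D) : Ω)⁻¹)
        rw [v.map_inv (hne _ h0), h1, neg_zero])
    intro i
    exact congrArg (fun f => f i) h3
  · intro h0
    have h0' : ((e.symm (z i) : K) : Ω) ≠ 0 := h0
    have h1 : z i ≠ 0 := by
      intro h2
      rw [h2, map_zero] at h0'
      exact h0' rfl
    change 0 ≤ v ((e.symm (z i) : K) : Ω)
    rw [hval _ h1]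
    exact (hmem _).1 (hz i) (hne _ h1)
  · have h1 : MvPolynomial.aeval (fun i => ((e.symm (z i) : K) : Ω)) P =
        ((e.symm (MvPolynomial.aeval z P) : K) : Ω) := by
      have h2 : ((e.symm (MvPolynomial.aeval z P) : K) : Ω) =
          (K.val.comp e.symm.toAlgHom) (MvPolynomial.aeval z P) := rfl
      rw [h2, ← AlgHom.comp_apply, MvPolynomial.comp_aeval]
      rfl
    have h3 : MvPolynomial.aeval z P ≠ 0 := by
      intro h0
      refine hP (hzP P ?_)
      rw [h0, map_zero]
      exact zero_lt_one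
    have h4 : MvPolynomial.aeval z P ∈ V := by
      clear h1 h3 hP
      induction P using MvPolynomial.induction_on with
      | C c =>
        rw [MvPolynomial.aeval_C]
        exact hk c
      | add P Q hP hQ =>
        rw [map_add]
        exact V.add_mem _ _ hP hQ
      | mul_X P i hP =>
        rw [map_mul, MvPolynomial.aeval_X]
        exact V.mul_mem _ _ hP (hz i)
    rw [h1]
    refine ⟨fun h0 => h3 ?_, ?_⟩
    · have h5 : e.symm (MvPolynomial.aeval z P) = 0 := Subtype.ext h0
      exact (map_eq_zero_iff _ e.symm.injective).1 h5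
    · rw [hval _ h3]
      refine le_antisymm ?_ ((hmem _).1 h4 (hne _ h3))
      by_contra hcon
      push Not at hcon
      refine hP (hzP P (val_lt h3 fun h6 => ?_))
      rw [hmem, hinv] at h6
      have h7 := h6 (inv_ne_zero (hne _ h3))
      rw [v.map_inv (hne _ h3)] at h7
      linarith

end Q7

open Q7 in
/-- ROW Q7.  Perturbation: if no `t i` is in the completion of the algebraic closure of
`k(t j : j ≠ i)` and all `t i` are limits of elements algebraic over `L₀`, the defect of `k(t)` is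
at most the one of `L₀`. -/
theorem DefL.of_core' [IsAlgClosed Ω] (h : Triv k v) {m : ℕ} {t : Fin m → Ω}
    (ht : AlgebraicIndependent k t)
    (hfar : ∀ i, ¬ LimAlg v (IntermediateField.adjoin k (t '' {j | j ≠ i})) (t i))
    {L₀ : IntermediateField k Ω} {δ : ℕ}
    (hD : DefL v L₀ δ) (hlim : ∀ i, LimAlg v L₀ (t i)) :
    DefL v (IntermediateField.adjoin k (Set.range t)) δ := by
  obtain ⟨t', h1, h2⟩ := exists_move_all ht hfar hlim
  obtain ⟨φ, hφ⟩ := exists_isometry ht h2 (D := algc L₀) fun i => mem_algc.2 (h1 i)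
  obtain ⟨r, q, x, y, htr, hx, hxi, hy, hyP⟩ := hD
  have htr' : Algebra.trdeg k (algc L₀) ≤ ((r + q + δ : ℕ) : Cardinal) := by
    rw [trdeg_algc]
    exact htr
  refine defL_of_isometry h ⟨r, q, htr', ⟨fun i => ⟨x i, le_algc L₀ (hx i).1⟩, ?_⟩,
    ⟨fun i => ⟨y i, le_algc L₀ (hy i).1⟩, ?_⟩⟩
    (lt_of_le_of_lt htr' (Cardinal.natCast_lt_aleph0)) φ hφ
  · exact LUW.indVal_vring (fun i h0 => (hx i).2 (congrArg Subtype.val h0)) hxi
  · exact indRes_vring (fun i => (hy i).2) hyP

/-- ROW Q7, with the hypotheses of the skeleton. -/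
theorem DefL.of_core [IsAlgClosed k] [IsAlgClosed Ω] (h : Triv k v) {m : ℕ} {t : Fin m → Ω}
    (ht : AlgebraicIndependent k t)
    (hfar : ∀ i, ¬ LimAlg v (IntermediateField.adjoin k (t '' {j | j ≠ i})) (t i))
    {L₀ : IntermediateField k Ω} (_hL₀ : L₀.FG) (_hpos : ∃ a ∈ L₀, a ≠ 0 ∧ 0 < v a) {δ : ℕ}
    (hD : DefL v L₀ δ) (hlim : ∀ i, LimAlg v L₀ (t i)) :
    DefL v (IntermediateField.adjoin k (Set.range t)) δ :=
  DefL.of_core' h ht hfar hD hlim

end Pool.Agent.TW
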