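import Pool.Agent.Lib.TWQ.Q8a
import Pool.Agent.Lib.TWQ.Q7
import Pool.Agent.Lib.TWQ.Q5f

/-!
# TANK W, row Q8 = THEOREM N
-/

set_option autoImplicit false

namespace Pool.Agent.TW

open Pool.Agent.H15JM (RVal)
open Pool.Agent.LUC (LUs)

universe u

variable {k Ω : Type u} [Field k] [Field Ω] [Algebra k Ω] {v : RVal Ω}

/-- ROW Q8 = THEOREM N: local uniformization of the real valuations (any residue field) of a
finitely generated field contained in the completion of the algebraic closure of a finitely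
generated field of defect at most one. -/
theorem lus_of_limAlg (p : ℕ) [Fact p.Prime] [CharP k p] [IsAlgClosed k] [IsAlgClosed Ω]
    (h : Triv k v) {E : IntermediateField k Ω} (hE : E.FG) (hΩ : ∀ g : Ω, IsAlgebraic E g)
    (hpos : ∃ a ∈ E, a ≠ 0 ∧ 0 < v a) {L₀ : IntermediateField k Ω} (hL₀ : L₀.FG)
    (hpos₀ : ∃ a ∈ L₀, a ≠ 0 ∧ 0 < v a) (hD : DefL v L₀ 1) (hlim : ∀ e ∈ E, LimAlg v L₀ e) :
    LUs v (algebraMap k Ω).range E.toSubfield :=
  lus_of_limAlg_of (fun s m => lus_of_basis p s m v h)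
    (fun _ _ ht hfar _ hL hp hd hl => DefL.of_core h ht hfar hL hp hd hl) h hE hΩ hpos hL₀ hpos₀
    hD hlim

end Pool.Agent.TW
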