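import Pool.Agent.Lib.TWQ.QXa
import Pool.Agent.Lib.TWQ.Q8
import Pool.Agent.Lib.TW.Cls
import Pool.Agent.Lib.LUC.H3
import Pool.Agent.Lib.D2.Fin1b

/-!
# TANK W, row QX: the class of the valuations approximable from a field of small defect
-/

set_option autoImplicit false

open Polynomial

namespace Pool.Agent.TW

open Pool.Agent.H15JM (RVal)
open Pool.Agent.LU1 (VPos)
open Pool.Agent.LU2 Pool.Agent.LU2G
open Pool.Agent.LUC (LUs LUrV)
open Pool.Agent.D2 (lur_of_lurV)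

universe u

/-- The valuation ring `V` of `K` is the restriction of a valuation ring `W` of rank one of a field
`Ω` with a subfield `L` of finite transcendence degree and of Abhyankar defect at most `δ`, such
that all elements of `K` are limits of elements of `L`. -/
def LimCls (k : Type u) [Field k] (δ : ℕ) : Cls k := fun K _ _ V =>
  ∃ (Ω : Type u) (_ : Field Ω) (_ : Algebra k Ω) (j : K →ₐ[k] Ω) (W : ValuationSubring Ω)
    (L : IntermediateField k Ω), (∀ c : k, algebraMap k Ω c ∈ W) ∧ W ⋖ ⊤ ∧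
      W.comap (j : K →+* Ω) = V ∧ DefLE k (W.comap (algebraMap L Ω)) δ ∧
      ∀ (f : K) (g : Ω), g ≠ 0 → ∃ α ∈ L, W.valuation (j f - α) < W.valuation g

theorem LimCls.sub (k : Type u) [Field k] (δ : ℕ) : (LimCls k δ).Sub := by
  rintro K _ _ V - - ⟨Ω, _, _, j, W, L, hk, hW, hV, hD, hd⟩ L'
  refine ⟨Ω, inferInstance, inferInstance, j.comp L'.val, W, L, hk, hW, ?_, hD,
    fun f g hg => hd f g hg⟩
  rw [← hV]
  rfl

namespace QX

theorem isR1_of_covBy {Ω : Type u} [Field Ω] {W : ValuationSubring Ω} (h : W ⋖ ⊤) : IsR1 W := by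
  refine ⟨h.lt.ne, fun V' hle => ?_⟩
  rcases eq_or_lt_of_le hle with h1 | h1
  · exact Or.inl h1.symm
  · right
    by_contra h2
    exact h.2 h1 (lt_top_iff_ne_top.2 h2)

/-- Everything in an algebraically closed overfield. -/
theorem exists_over {k K Ω : Type u} [Field k] [IsAlgClosed k] [Field K] [Algebra k K] [Field Ω]
    [Algebra k Ω] {δ : ℕ} (hK : (⊤ : IntermediateField k K).FG)
    {V : ValuationSubring K} (hVtop : V ≠ ⊤) (j : K →ₐ[k] Ω)
    {W : ValuationSubring Ω} {L : IntermediateField k Ω}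
    (hk : ∀ c : k, algebraMap k Ω c ∈ W) (hW : W ⋖ ⊤) (hV : W.comap (j : K →+* Ω) = V)
    (hD : DefLE k (W.comap (algebraMap L Ω)) δ)
    (hd : ∀ (f : K) (g : Ω), g ≠ 0 → ∃ α ∈ L, W.valuation (j f - α) < W.valuation g) :
    ∃ (Ω₁ : Type u) (_ : Field Ω₁) (_ : Algebra k Ω₁) (_ : IsAlgClosed Ω₁) (v : RVal Ω₁)
      (j₁ : K →ₐ[k] Ω₁), Triv k v ∧ (∀ f : K, f ∈ V ↔ v.Ge 0 (j₁ f)) ∧
        (∃ f : K, f ≠ 0 ∧ 0 < v (j₁ f)) ∧
        ∃ (m : ℕ) (t : Fin m → K),
          (∃ a ∈ IntermediateField.adjoin k (Set.range fun i => j₁ (t i)), a ≠ 0 ∧ 0 < v a) ∧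
          DefL v (IntermediateField.adjoin k (Set.range fun i => j₁ (t i))) δ ∧
          ∀ f : K, LimAlg v (IntermediateField.adjoin k (Set.range fun i => j₁ (t i))) (j₁ f) := by
  classical
  obtain ⟨v₀, w, hrel, hw, hWw, -, c₀, hc₀, hc₀v⟩ := LUC.exists_entry W (isR1_of_covBy hW)
  let Ω₁ : Type u := AlgebraicClosure Ω
  let ι : Ω →ₐ[k] Ω₁ := IsScalarTower.toAlgHom k Ω Ω₁
  have hι : ∀ g : Ω, ι g = algebraMap Ω Ω₁ g := fun g => rfl
  let j₁ : K →ₐ[k] Ω₁ := ι.comp j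
  have htriv₀ : ∀ c : k, c ≠ 0 → v₀ (algebraMap k Ω c) = 0 := by
    intro c hc
    have hc' : algebraMap k Ω c ≠ 0 := by rwa [_root_.map_ne_zero]
    have h1 := (hrel _ hc').1 (hk c)
    have h2 := (hrel _ (inv_ne_zero hc')).1 (by rw [← map_inv₀]; exact hk c⁻¹)
    rw [v₀.map_inv hc'] at h2
    linarith
  have htriv : Triv k w := by
    intro c hc
    have hc' : algebraMap k Ω c ≠ 0 := by rwa [_root_.map_ne_zero]
    rw [IsScalarTower.algebraMap_apply k Ω Ω₁, hw _ hc']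
    exact htriv₀ c hc
  have hVw : ∀ f : K, f ∈ V ↔ w.Ge 0 (j₁ f) := by
    intro f
    rw [← hV]
    exact hWw (j f)
  -- elements of positive value
  have hpos : ∃ f : K, f ≠ 0 ∧ 0 < w (j₁ f) := by
    by_contra hcon
    push Not at hcon
    apply hVtop
    rw [eq_top_iff]
    intro f _
    rw [hVw]
    intro h0
    have hf : f ≠ 0 := by
      rintro rfl
      exact h0 (map_zero j₁)
    by_contra h1
    have h2 := hcon f⁻¹ (inv_ne_zero hf)
    rw [map_inv₀, w.map_inv h0] at h2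
    linarith
  have hlim : ∀ f : K, LimAlg w (L.map ι) (j₁ f) := by
    intro f C
    obtain ⟨n, hn⟩ := exists_nat_gt (C / v₀ c₀)
    have hn' : C < n * v₀ c₀ := (div_lt_iff₀ hc₀v).1 hn
    obtain ⟨α, hα, h1⟩ := hd f (c₀ ^ n) (pow_ne_zero _ hc₀)
    have hαL : ι α ∈ L.map ι := (IntermediateField.mem_map _).2 ⟨α, hα, rfl⟩
    refine ⟨ι α, isAlgebraic_algebraMap (⟨ι α, hαL⟩ : L.map ι), ?_⟩
    · intro h0
      have h3 : j₁ f - ι α = ι (j f - α) := by
        rw [map_sub]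
        rfl
      rw [h3] at h0 ⊢
      have h4 : j f - α ≠ 0 := by
        intro h4
        rw [h4, map_zero] at h0
        exact h0 rfl
      rw [hι, hw _ h4]
      have h5 := (hrel.lt_iff h4 (pow_ne_zero _ hc₀)).1 h1
      rw [v₀.map_pow hc₀] at h5
      linarith
  have hEfg : j₁.fieldRange.FG := by
    obtain ⟨S, hS⟩ := hK
    refine ⟨S.image j₁, ?_⟩
    rw [Finset.coe_image, ← IntermediateField.adjoin_map, hS]
    exact (AlgHom.fieldRange_eq_map j₁).symm
  have hposE : ∃ a ∈ j₁.fieldRange, a ≠ 0 ∧ 0 < w a := by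
    obtain ⟨f, hf, hfv⟩ := hpos
    exact ⟨j₁ f, ⟨f, rfl⟩, (map_ne_zero j₁).2 hf, hfv⟩
  have hlimE : ∀ e ∈ j₁.fieldRange, LimAlg w (L.map ι) e := by
    rintro _ ⟨f, rfl⟩
    exact hlim f
  have hDL : DefL w (L.map ι) δ := by
    have h1 : (ι.comp L.val).fieldRange = L.map ι := IntermediateField.fieldRange_comp_val L ι
    rw [← h1]
    refine defL_of_defLE (V := W.comap (algebraMap L Ω)) (ι.comp L.val) (fun f hf => ?_)
      (fun c => ?_) hD
    · have hf' : (f : Ω) ≠ 0 := fun h0 => hf (Subtype.ext h0)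
      rw [ValuationSubring.mem_comap]
      change (f : Ω) ∈ W ↔ 0 ≤ w (algebraMap Ω Ω₁ (f : Ω))
      rw [hw _ hf']
      exact hrel _ hf'
    · rw [ValuationSubring.mem_comap]
      exact hk c
  obtain ⟨m, t, ht, hpt, hDt, hlt⟩ := exists_small htriv hEfg hposE hDL hlimE
  choose t' ht' using ht
  have hr : (Set.range fun i => j₁ (t' i)) = Set.range t := by
    congr 1
    funext i
    exact ht' i
  refine ⟨Ω₁, inferInstance, inferInstance, inferInstance, w, j₁, htriv, hVw, hpos, m, t', ?_⟩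
  rw [hr]
  exact ⟨hpt, hDt, fun f => hlt _ ⟨f, rfl⟩⟩

end QX

open QX in
/-- Log uniformization of the real valuations of the class. -/
theorem realCls_lim (p : ℕ) [Fact p.Prime] {k : Type u} [Field k] [IsAlgClosed k] [CharP k p] :
    RealCls (LimCls k 1) := by
  classical
  rintro K _ _ hK V hkV hR ⟨Ω, _, _, j, W, L, hk, hW, hV, hD, hd⟩
  obtain ⟨Ω₁, _, _, _, v, j₁, htriv, hVv, hpos, m, t, hpt, hDt, hlt⟩ :=
    exists_over hK hR.1 j hk hW hV hD hd
  let Ω₂ : Type u := AlgebraicClosure K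
  let _ : Algebra K Ω₁ := (j₁ : K →+* Ω₁).toAlgebra
  have hJ₀ : ∃ J : Ω₂ →ₐ[K] Ω₁, True := ⟨IsAlgClosed.lift, trivial⟩
  obtain ⟨J₀, -⟩ := hJ₀
  have hJ₀K : ∀ f : K, J₀ (algebraMap K Ω₂ f) = j₁ f := fun f => J₀.commutes f
  let J : Ω₂ →ₐ[k] Ω₁ :=
    { (J₀ : Ω₂ →+* Ω₁) with
      commutes' := fun c => by
        change J₀ (algebraMap k Ω₂ c) = algebraMap k Ω₁ c
        rw [IsScalarTower.algebraMap_apply k K Ω₂, hJ₀K, j₁.commutes] }
  have hJK : ∀ f : K, J (algebraMap K Ω₂ f) = j₁ f := hJ₀K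
  let ι : K →ₐ[k] Ω₂ := IsScalarTower.toAlgHom k K Ω₂
  have hι : ∀ f : K, ι f = algebraMap K Ω₂ f := fun f => rfl
  let w : RVal Ω₂ := pullE v (J : Ω₂ →+* Ω₁)
  have hw : ∀ f : K, w (ι f) = v (j₁ f) := by
    intro f
    rw [← hJK f]
    rfl
  let L₂ : IntermediateField k Ω₂ := IntermediateField.adjoin k (Set.range fun i => ι (t i))
  have hL₂ : L₂.map J = IntermediateField.adjoin k (Set.range fun i => j₁ (t i)) := by
    rw [IntermediateField.adjoin_map, ← Set.range_comp]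
    congr 2
    funext i
    exact hJK (t i)
  rw [← hL₂] at hpt hDt hlt
  have hV₂ : ∀ f : K, f ∈ V ↔ w.Ge 0 (algebraMap K Ω₂ f) := by
    intro f
    rw [hVv f, ← hJK f]
    exact pullE_ge.symm
  let E : IntermediateField k Ω₂ := ι.fieldRange
  have hE : E.toSubfield = (algebraMap K Ω₂).fieldRange := by
    ext f
    constructor
    · rintro ⟨g, hg⟩
      exact ⟨g, hg⟩
    · rintro ⟨g, hg⟩
      exact ⟨g, hg⟩
  have hEfg : E.FG := by
    obtain ⟨S, hS⟩ := hK
    refine ⟨S.image ι, ?_⟩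
    rw [Finset.coe_image, ← IntermediateField.adjoin_map, hS]
    exact (AlgHom.fieldRange_eq_map ι).symm
  have halg : ∀ g : Ω₂, IsAlgebraic E g := by
    intro g
    obtain ⟨P, hP0, hP⟩ := (Algebra.IsAlgebraic.isAlgebraic g : IsAlgebraic K g)
    let i : K →+* E := (ι.rangeRestrict : K →ₐ[k] ι.range).toRingHom
    refine ⟨P.map i, ?_, ?_⟩
    · exact (Polynomial.map_ne_zero_iff i.injective).2 hP0
    · rw [Polynomial.aeval_def, Polynomial.eval₂_map]
      exact hP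
  have hL₂fg : L₂.FG := by
    refine ⟨(Finset.univ : Finset (Fin m)).image fun i => ι (t i), ?_⟩
    rw [Finset.coe_image, Finset.coe_univ, Set.image_univ]
  have hfin : LUs w (algebraMap k Ω₂).range E.toSubfield := by
    refine lus_of_limAlg p (triv_pullE J htriv) hEfg halg ?_ hL₂fg ?_ (defL_pull J hDt) ?_
    · obtain ⟨f, hf, hfv⟩ := hpos
      refine ⟨ι f, ⟨f, rfl⟩, (map_ne_zero ι).2 hf, ?_⟩
      rw [hw]
      exact hfv
    · obtain ⟨a, ha, ha0, hav⟩ := hpt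
      obtain ⟨b, hb, rfl⟩ := (IntermediateField.mem_map _).1 ha
      refine ⟨b, hb, fun h0 => ha0 ?_, hav⟩
      rw [h0, map_zero]
    · rintro _ ⟨f, rfl⟩
      refine limAlg_pull J ?_
      have h1 := hlt f
      rw [← hJK f] at h1
      exact h1
  rw [hE] at hfin
  exact lur_of_lurV (hfin.lurV hV₂ hkV)

end Pool.Agent.TW
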