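import Pool.Agent.Lib.TWQ.QX
import Pool.Agent.Lib.TW.TopZ

/-!
# TANK W, row QX: the final theorem for the components approximable from a field of small defect
-/

set_option autoImplicit false

namespace Pool.Agent.TW

open Pool.Agent.LU2 Pool.Agent.LU2G Pool.Agent.LU2H

/-- The component between the valuation rings `V₁ ⊂ V₂` is approximable: for some field `Ω` over `k`
which contains the residue field of `V₂`, some valuation ring `W` of rank one of `Ω` which cuts out
the image of `V₁` in it, and some subfield `L` of `Ω` over `k` of finite transcendence degree, this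
degree is at most the sum of the transcendence degree over `k` of the residue field of `W ∩ L`, of
the rational rank of the value group of `W ∩ L`, and of one, and all elements of the residue field
of `V₂` are limits, for `W`, of elements of `L`. -/
def LimComponent {k K : Type} [Field k] [Field K] (ι : k →+* K) (V₁ V₂ : ValuationSubring K)
    (_h₁ : ∀ a, ι a ∈ V₁) (h₂ : ∀ a, ι a ∈ V₂) : Prop :=
  ∃ (Ω : Type) (_ : Field Ω) (_ : Algebra k Ω) (j : IsLocalRing.ResidueField V₂ →+* Ω)
    (W : ValuationSubring Ω) (L : IntermediateField k Ω)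
    (hL : ∀ a : k, algebraMap k L a ∈ W.comap (algebraMap L Ω)),
    (∀ a : k, j (IsLocalRing.residue V₂ ⟨ι a, h₂ a⟩) = algebraMap k Ω a) ∧
    (∀ f : V₂, j (IsLocalRing.residue V₂ f) ∈ W ↔ (f : K) ∈ V₁) ∧ W ⋖ ⊤ ∧
    Algebra.trdeg k L < Cardinal.aleph0 ∧
    Algebra.trdeg k L ≤ resDegree (algebraMap k L) (W.comap (algebraMap L Ω)) hL +
      compRank (W.comap (algebraMap L Ω)) ⊤ + 1 ∧
    ∀ (f : IsLocalRing.ResidueField V₂) (g : Ω), g ≠ 0 →
      ∃ α ∈ L, W.valuation (j f - α) < W.valuation g

theorem LimComponent.cls {k K : Type} [Field k] [Field K] [Algebra k K]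
    {V₁ V₂ : ValuationSubring K} (hle : V₁ ≤ V₂) (h₁ : ∀ a : k, algebraMap k K a ∈ V₁)
    (h₂ : ∀ a : k, algebraMap k K a ∈ V₂) (h : LimComponent (algebraMap k K) V₁ V₂ h₁ h₂) :
    @LimCls k _ 1 (IsLocalRing.ResidueField V₂) _ (((IsLocalRing.residue V₂).comp
      ((algebraMap k K).codRestrict V₂ h₂)).toAlgebra) (imgV hle) := by
  let alg : Algebra k (IsLocalRing.ResidueField V₂) :=
    ((IsLocalRing.residue V₂).comp ((algebraMap k K).codRestrict V₂ h₂)).toAlgebra
  have hres : IsRes (k := k) V₁ V₂ (IsLocalRing.residue V₂) (imgV hle) :=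
    isRes_residue hle h₁ h₂
  obtain ⟨Ω, _, _, j, W, L, hkL, hj, hV, hW, hfin, hdeg, hd⟩ := h
  let j' : IsLocalRing.ResidueField V₂ →ₐ[k] Ω := { j with commutes' := hj }
  refine ⟨Ω, inferInstance, inferInstance, j', W, L, fun c => hkL c, hW, ?_, ?_, hd⟩
  · ext f
    obtain ⟨y, rfl⟩ := hres.surj f
    rw [ValuationSubring.mem_comap, hres.mem]
    exact hV y
  · have h4 : Algebra.trdeg k L ≤ compRank (W.comap (algebraMap L Ω)) ⊤ +
        resDegree (algebraMap k L) (W.comap (algebraMap L Ω)) hkL + ((1 : ℕ) : Cardinal) := by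
      rw [add_comm (compRank _ _), Nat.cast_one]
      exact hdeg
    obtain ⟨r, d, hr, hd', hT⟩ := exists_nat_split hfin h4
    obtain ⟨x, -, hx⟩ := exists_units (W.comap (algebraMap L Ω)) ⊤ hr
    obtain ⟨z, hz⟩ := exists_indRes' (W.comap (algebraMap L Ω)) hkL hd'
    exact ⟨r, d, hT, ⟨x, hx⟩, ⟨z, hz⟩⟩

/-- The final theorem for the approximable components. -/
theorem logUniformizable_lim (p : ℕ) [Fact p.Prime] (k : Type) [Field k] [IsAlgClosed k]
    [CharP k p] (A : Type) [CommRing A] [IsDomain A] [Algebra k A] [Algebra.EssFiniteType k A]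
    (V : ValuationSubring (FractionRing A)) (hV : ∀ a : A, algebraMap A (FractionRing A) a ∈ V)
    (F : IntermediateField k (FractionRing A)) (hF : F.FG)
    (hdense : ∀ a b : FractionRing A, b ≠ 0 → ∃ c ∈ F, V.valuation (a - c) < V.valuation b)
    (s : Finset (FractionRing A)) (hs : AlgebraicIndependent F (Subtype.val : s → FractionRing A))
    (hsep : Algebra.IsSeparable (IntermediateField.adjoin F (s : Set (FractionRing A)))
      (FractionRing A))
    (hdef : StdComponents p (algebraMap k F) (V.comap (algebraMap F (FractionRing A)))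
      (LimComponent (algebraMap k F))) :
    LogUniformizable V :=
  logUniformizable_std p k (LimCls.sub k 1) (realCls_lim p) A V hV F hF hdense s hs hsep
    (Q := LimComponent (algebraMap k F)) (fun _ _ hle h₁ h₂ hQ _ => hQ.cls hle h₁ h₂) hdef

end Pool.Agent.TW
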