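import Pool.Agent.Lib.TWQ.Q6
import Pool.Agent.Lib.TWQ.Q7
import Pool.Agent.Lib.LU2_h15z.Entry

/-!
# TANK W, row QX: the restriction along embeddings, and the reduction to generators in the field
-/

set_option autoImplicit false

open Polynomial

namespace Pool.Agent.TW

open Pool.Agent.H15JM (RVal)
open Pool.Agent.LU1 (VPos)
open Pool.Agent.LU2

universe u

namespace QX

section Pull

variable {k Ω₁ Ω₂ : Type u} [Field k] [Field Ω₁] [Field Ω₂] [Algebra k Ω₁] [Algebra k Ω₂]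

/-- The restriction of a real valuation along an embedding. -/
def pullE (v : RVal Ω₁) (J : Ω₂ →+* Ω₁) : RVal Ω₂ where
  toFun f := v (J f)
  map_mul' x y hx hy := by
    rw [map_mul, v.map_mul ((map_ne_zero J).2 hx) ((map_ne_zero J).2 hy)]
  map_add' x y hx hy hxy := by
    rw [map_add]
    refine v.map_add ((map_ne_zero J).2 hx) ((map_ne_zero J).2 hy) ?_
    rw [← map_add]
    exact (map_ne_zero J).2 hxy

theorem pullE_apply (v : RVal Ω₁) (J : Ω₂ →+* Ω₁) (f : Ω₂) : pullE v J f = v (J f) := rfl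

theorem pullE_ge {v : RVal Ω₁} {J : Ω₂ →+* Ω₁} {c : ℝ} {f : Ω₂} :
    (pullE v J).Ge c f ↔ v.Ge c (J f) :=
  ⟨fun h h0 => h ((map_ne_zero J).1 h0), fun h h0 => h ((map_ne_zero J).2 h0)⟩

theorem triv_pullE {v : RVal Ω₁} (J : Ω₂ →ₐ[k] Ω₁) (h : Triv k v) :
    Triv k (pullE v (J : Ω₂ →+* Ω₁)) := by
  intro c hc
  rw [pullE_apply, RingHom.coe_coe, J.commutes]
  exact h c hc

/-- The elements algebraic over the image of `L` come from elements algebraic over `L`. -/
theorem exists_alg_preimage [IsAlgClosed Ω₂] (J : Ω₂ →ₐ[k] Ω₁) {L : IntermediateField k Ω₂}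
    {α : Ω₁} (hα : IsAlgebraic (L.map J) α) : ∃ β : Ω₂, J β = α ∧ IsAlgebraic L β := by
  classical
  obtain ⟨P, hP0, hP⟩ := hα
  obtain ⟨Q, hQ⟩ : ∃ Q : L[X], Q.map ((L.equivMap J : L →ₐ[k] L.map J) : L →+* L.map J) = P := by
    refine ⟨P.map (((L.equivMap J).symm : L.map J →ₐ[k] L) : L.map J →+* L), ?_⟩
    rw [Polynomial.map_map]
    have h1 : (((L.equivMap J : L →ₐ[k] L.map J) : L →+* L.map J)).comp
        (((L.equivMap J).symm : L.map J →ₐ[k] L) : L.map J →+* L) = RingHom.id _ := by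
      ext x
      simp
    rw [h1, Polynomial.map_id]
  have hQ0 : Q ≠ 0 := by
    rintro rfl
    rw [Polynomial.map_zero] at hQ
    exact hP0 hQ.symm
  have h2 : (Q.map (algebraMap L Ω₂)).map (J : Ω₂ →+* Ω₁) = P.map (algebraMap (L.map J) Ω₁) := by
    rw [← hQ, Polynomial.map_map, Polynomial.map_map]
    rfl
  have h3 : (Q.map (algebraMap L Ω₂)).Splits := IsAlgClosed.splits _
  have h4 : Q.map (algebraMap L Ω₂) ≠ 0 := (Polynomial.map_ne_zero_iff
    (algebraMap L Ω₂).injective).2 hQ0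
  have h5 : α ∈ ((Q.map (algebraMap L Ω₂)).map (J : Ω₂ →+* Ω₁)).roots := by
    rw [Polynomial.mem_roots ((Polynomial.map_ne_zero_iff (J : Ω₂ →+* Ω₁).injective).2 h4), h2,
      Polynomial.IsRoot.def, Polynomial.eval_map]
    exact hP
  rw [h3.roots_map, Multiset.mem_map] at h5
  obtain ⟨β, hβ, rfl⟩ := h5
  refine ⟨β, rfl, Q, hQ0, ?_⟩
  rw [Polynomial.mem_roots h4, Polynomial.IsRoot.def, Polynomial.eval_map] at hβ
  exact hβ

theorem limAlg_pull [IsAlgClosed Ω₂] {v : RVal Ω₁} (J : Ω₂ →ₐ[k] Ω₁)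
    {L : IntermediateField k Ω₂} {z : Ω₂} (h : LimAlg v (L.map J) (J z)) :
    LimAlg (pullE v (J : Ω₂ →+* Ω₁)) L z := by
  intro c
  obtain ⟨α, hα, h1⟩ := h c
  obtain ⟨β, rfl, hβ⟩ := exists_alg_preimage J hα
  refine ⟨β, hβ, pullE_ge.2 ?_⟩
  rw [map_sub]
  exact h1

/-- The images of the elements of `L`. -/
theorem defL_pull {v : RVal Ω₁} (J : Ω₂ →ₐ[k] Ω₁) {L : IntermediateField k Ω₂} {δ : ℕ}
    (h : DefL v (L.map J) δ) : DefL (pullE v (J : Ω₂ →+* Ω₁)) L δ := by
  obtain ⟨r, q, x, y, ht, hx, hxi, hy, hyi⟩ := h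
  choose x' hx' hJx using fun i => (IntermediateField.mem_map _).1 (hx i).1
  choose y' hy' hJy using fun i => (IntermediateField.mem_map _).1 (hy i).1
  have hx0 : ∀ i, x' i ≠ 0 := by
    intro i h0
    apply (hx i).2
    rw [← hJx i, h0, map_zero]
  refine ⟨r, q, x', y', ?_, fun i => ⟨hx' i, hx0 i⟩, ?_, fun i => ⟨hy' i, ?_⟩, fun P hP => ?_⟩
  · rw [(L.equivMap J).trdeg_eq]
    exact ht
  · have h1 : (fun i => pullE v (J : Ω₂ →+* Ω₁) (x' i)) = fun i => v (x i) := by
      funext i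
      rw [pullE_apply, RingHom.coe_coe, hJx]
    rw [h1]
    exact hxi
  · rw [pullE_ge, RingHom.coe_coe, hJy]
    exact (hy i).2
  · obtain ⟨h1, h2⟩ := hyi P hP
    have h3 : J (MvPolynomial.aeval y' P) = MvPolynomial.aeval y P := by
      rw [MvPolynomial.comp_aeval_apply]
      congr 2
      funext i
      exact hJy i
    refine ⟨fun h0 => h1 ?_, ?_⟩
    · rw [← h3, h0, map_zero]
    · rw [pullE_apply, RingHom.coe_coe, h3]
      exact h2

theorem defL_of_defLE {K : Type u} [Field K] [Algebra k K] {V : ValuationSubring K}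
    {v : RVal Ω₁} (J : K →ₐ[k] Ω₁) (hV : Rel V (pullE v (J : K →+* Ω₁)))
    (hk : ∀ c : k, algebraMap k K c ∈ V) {δ : ℕ} (hD : DefLE k V δ) :
    DefL v J.fieldRange δ := by
  obtain ⟨r, q, ht, ⟨x, hx⟩, ⟨z, hz⟩⟩ := hD
  obtain ⟨hx0, hxi⟩ := hV.indVal_iff.1 hx
  have hmem : ∀ a : K, J a ∈ J.fieldRange := fun a => ⟨a, rfl⟩
  refine ⟨r, q, fun i => J (x i), fun i => J (z i), ?_, fun i => ⟨hmem _, ?_⟩, hxi,
    fun i => ⟨hmem _, ?_⟩, fun P hP => ?_⟩
  · exact ((AlgEquiv.ofInjectiveField J).trdeg_eq.symm.le).trans ht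
  · exact (map_ne_zero J).2 (hx0 i)
  · exact pullE_ge.1 ((hV.mem_iff _).1 (hz.1 i))
  · have h3 : MvPolynomial.aeval (fun i => J (z i)) P = J (MvPolynomial.aeval z P) := by
      rw [MvPolynomial.comp_aeval_apply]
    have hmemV : MvPolynomial.aeval z P ∈ V := by
      let A : Subalgebra k K := { V.toSubring with algebraMap_mem' := hk }
      have h5 : MvPolynomial.aeval z P ∈ Algebra.adjoin k (Set.range z) := by
        rw [Algebra.adjoin_range_eq_range_aeval]
        exact ⟨P, rfl⟩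
      have h6 : Algebra.adjoin k (Set.range z) ≤ A := by
        rw [Algebra.adjoin_le_iff]
        rintro _ ⟨i, rfl⟩
        exact hz.1 i
      exact h6 h5
    have hval : ¬ V.valuation (MvPolynomial.aeval z P) < 1 := fun h => hP (hz.2 P h)
    have h0 : MvPolynomial.aeval z P ≠ 0 := by
      intro h0
      apply hval
      rw [h0, map_zero]
      exact zero_lt_one
    refine ⟨?_, ?_⟩
    · rw [h3]
      exact (map_ne_zero J).2 h0
    · rw [h3]
      have h7 : V.valuation (MvPolynomial.aeval z P) = 1 :=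
        le_antisymm ((V.valuation_le_one_iff _).2 hmemV) (not_lt.1 hval)
      exact (hV.eq_one_iff h0).1 h7

end Pull

section Core

variable {k Ω : Type u} [Field k] [Field Ω] [Algebra k Ω] {v : RVal Ω}

/-- Finitely generated fields of limits are fields of limits of elements algebraic over a
subfield generated by some of their own elements. -/
theorem exists_small [IsAlgClosed k] [IsAlgClosed Ω] {δ : ℕ} (h : Triv k v)
    {E : IntermediateField k Ω} (hE : E.FG) (hpos : ∃ a ∈ E, a ≠ 0 ∧ 0 < v a)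
    {L₀ : IntermediateField k Ω} (hD : DefL v L₀ δ) (hlim : ∀ e ∈ E, LimAlg v L₀ e) :
    ∃ (m : ℕ) (t : Fin m → Ω), (∀ i, t i ∈ E) ∧
      (∃ a ∈ IntermediateField.adjoin k (Set.range t), a ≠ 0 ∧ 0 < v a) ∧
      DefL v (IntermediateField.adjoin k (Set.range t)) δ ∧
      ∀ e ∈ E, LimAlg v (IntermediateField.adjoin k (Set.range t)) e := by
  obtain ⟨m, s, t, t', hind, ht, ht', hsep, hpt, hlt, hfar⟩ := exists_core h hE hpos
  have hind' : AlgebraicIndependent k t := by
    have h1 := hind.comp (Sum.inl : Fin m → Fin m ⊕ Fin s) Sum.inl_injective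
    exact h1
  refine ⟨m, t, ht, hpt, DefL.of_core' h hind' hfar hD fun i => hlim _ (ht i), fun e he => ?_⟩
  refine LimAlg.field hpt (S := Set.range t') ?_
    (D2P.isAlgebraic_mono ?_ (hsep e he).isIntegral.isAlgebraic)
  · rintro _ ⟨i, rfl⟩
    exact hlt i
  · rw [IntermediateField.adjoin_le_iff]
    rintro a (ha | ha)
    · exact IntermediateField.subset_adjoin _ _ (Or.inl (IntermediateField.subset_adjoin _ _ ha))
    · exact IntermediateField.subset_adjoin _ _ (Or.inr ha)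

end Core

end QX

end Pool.Agent.TW
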