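import Pool.Agent.Lib.TWQ.Defs
import Pool.Agent.Lib.TWQ.Q5b
import Pool.Agent.Lib.D2P.A2m

/-!
# TANK W, rows NB2, Q2: `L(w, θ)` and `L(w + c θ)` have the same henselization
-/

set_option autoImplicit false

open Polynomial

namespace Pool.Agent.TW.Q2

open Pool.Agent.H15JM (RVal)
open Pool.Agent.LU1 (VPos adj)
open Pool.Agent.D2P (hen)

universe u

variable {k Ω : Type u} [Field k] [Field Ω] [Algebra k Ω] {v : RVal Ω}

/-- The value at `(x, y)`. -/
noncomputable def ev2 {L : IntermediateField k Ω} (x y : Ω) : MvPolynomial (Fin 2) L →ₐ[L] Ω :=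
  MvPolynomial.aeval ![x, y]

/-- Polynomials in the first variable. -/
noncomputable def in0 {L : IntermediateField k Ω} (D : L[X]) : MvPolynomial (Fin 2) L :=
  aeval (MvPolynomial.X 0) D

theorem ev2_in0 {L : IntermediateField k Ω} (x y : Ω) (D : L[X]) :
    ev2 x y (in0 D) = aeval x D := by
  rw [in0, ← aeval_algHom_apply, ev2, MvPolynomial.aeval_X]
  rfl

theorem pderiv_in0 {L : IntermediateField k Ω} (D : L[X]) :
    MvPolynomial.pderiv 1 (in0 D) = 0 := by
  rw [in0, Derivation.map_aeval, MvPolynomial.pderiv_X_of_ne (by decide), smul_zero]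

theorem exists_clear {L : IntermediateField k Ω} (w : Ω) (f : (adj L w)[X]) :
    ∃ (P : MvPolynomial (Fin 2) L) (D : L[X]), aeval w D ≠ 0 ∧
      (∀ y : Ω, ev2 w y P = aeval w D * aeval y f) ∧
      ∀ y : Ω, ev2 w y (MvPolynomial.pderiv 1 P) = aeval w D * aeval y (derivative f) := by
  induction f using Polynomial.induction_on' with
  | add f g hf hg =>
    obtain ⟨P, D, hD, h1, h2⟩ := hf
    obtain ⟨Q, E, hE, h3, h4⟩ := hg
    refine ⟨in0 E * P + in0 D * Q, D * E, ?_, fun y => ?_, fun y => ?_⟩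
    · rw [map_mul]
      exact mul_ne_zero hD hE
    · rw [map_add, map_mul, map_mul, ev2_in0, ev2_in0, h1, h3, map_mul, map_add]
      ring
    · rw [map_add, Derivation.leibniz, Derivation.leibniz, pderiv_in0, pderiv_in0, smul_zero,
        smul_zero, add_zero, add_zero, smul_eq_mul, smul_eq_mul, map_add, map_mul, map_mul,
        ev2_in0, ev2_in0, h2, h4, map_mul, derivative_add, map_add]
      ring
  | monomial n a =>
    obtain ⟨N, E, hE⟩ := D2P.mem_adj_frac a.2
    by_cases h0 : aeval w E = 0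
    · rw [h0, div_zero] at hE
      have ha : a = 0 := Subtype.ext hE
      refine ⟨0, 1, by rw [map_one]; exact one_ne_zero, fun y => ?_, fun y => ?_⟩
      · rw [ha, map_zero, map_zero, map_zero, mul_zero]
      · rw [ha, map_zero, map_zero, map_zero, derivative_zero, map_zero, mul_zero]
    · have h1 : algebraMap (adj L w) Ω a = aeval w N / aeval w E := hE
      refine ⟨in0 N * MvPolynomial.X 1 ^ n, E, h0, fun y => ?_, fun y => ?_⟩
      · rw [map_mul, ev2_in0, map_pow, ev2, MvPolynomial.aeval_X, aeval_monomial, h1]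
        change aeval w N * y ^ n = _
        field_simp
      · rw [Derivation.leibniz, pderiv_in0, smul_zero, add_zero, Derivation.leibniz_pow,
          MvPolynomial.pderiv_X_self, smul_eq_mul, smul_eq_mul, mul_one, derivative_monomial,
          aeval_monomial, map_mul, ev2_in0, map_mul, h1, map_nsmul, map_pow, ev2,
          MvPolynomial.aeval_X, map_natCast, nsmul_eq_mul]
        change aeval w N * ((n : Ω) * y ^ (n - 1)) = _
        field_simp

theorem exists_ge (x : Ω) : ∃ B : ℝ, v.Ge B x := ⟨v x, fun _ => le_rfl⟩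

/-- Taylor's formula. -/
theorem taylor {L : IntermediateField k Ω} (P : MvPolynomial (Fin 2) L) (x y : Ω) :
    ∃ B : ℝ, ∀ (m : ℝ) (a b : Ω), 0 ≤ m → v.Ge m a → v.Ge m b →
      v.Ge (B + 2 * m) (ev2 (x + a) (y + b) P - ev2 x y P - a * ev2 x y (MvPolynomial.pderiv 0 P) -
        b * ev2 x y (MvPolynomial.pderiv 1 P)) := by
  induction P using MvPolynomial.induction_on with
  | C c =>
    refine ⟨0, fun m a b _ _ _ => ?_⟩
    rw [MvPolynomial.pderiv_C, MvPolynomial.pderiv_C, ev2, ev2, MvPolynomial.aeval_C,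
      MvPolynomial.aeval_C, map_zero, mul_zero, mul_zero, sub_self, sub_zero, sub_zero]
    exact RVal.Ge.zero
  | add P Q hP hQ =>
    obtain ⟨B, hB⟩ := hP
    obtain ⟨B', hB'⟩ := hQ
    refine ⟨min B B', fun m a b hm ha hb => ?_⟩
    have h1 := (hB m a b hm ha hb).mono (c' := min B B' + 2 * m)
      (by linarith [min_le_left B B'])
    have h2 := (hB' m a b hm ha hb).mono (c' := min B B' + 2 * m)
      (by linarith [min_le_right B B'])
    have h3 := h1.add h2
    rw [map_add, map_add, map_add, map_add, map_add, map_add]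
    convert h3 using 1
    ring
  | mul_X P i hP =>
    obtain ⟨B, hB⟩ := hP
    obtain ⟨X₀, hX₀⟩ := exists_ge (v := v) (ev2 x y (MvPolynomial.X (R := L) i))
    obtain ⟨P₀, hP₀⟩ := exists_ge (v := v) (ev2 x y (MvPolynomial.pderiv 0 P))
    obtain ⟨P₁, hP₁⟩ := exists_ge (v := v) (ev2 x y (MvPolynomial.pderiv 1 P))
    refine ⟨min (B + min X₀ 0) (min P₀ P₁), fun m a b hm ha hb => ?_⟩
    set M := min (B + min X₀ 0) (min P₀ P₁) with hM
    have hM1 : M ≤ B + min X₀ 0 := min_le_left _ _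
    have hM2 : M ≤ P₀ := (min_le_right _ _).trans (min_le_left _ _)
    have hM3 : M ≤ P₁ := (min_le_right _ _).trans (min_le_right _ _)
    have h1 := hB m a b hm ha hb
    -- the increment of the variable
    have h2 : ∃ e : Ω, v.Ge m e ∧ ev2 (x + a) (y + b) (MvPolynomial.X (R := L) i) =
        ev2 x y (MvPolynomial.X (R := L) i) + e ∧
        e = a * ev2 x y (MvPolynomial.pderiv 0 (MvPolynomial.X (R := L) i)) +
          b * ev2 x y (MvPolynomial.pderiv 1 (MvPolynomial.X (R := L) i)) := by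
      fin_cases i
      · refine ⟨a, ha, ?_, ?_⟩
        · simp [ev2]
        · simp [ev2, MvPolynomial.pderiv_X]
      · refine ⟨b, hb, ?_, ?_⟩
        · simp [ev2]
        · simp [ev2, MvPolynomial.pderiv_X]
    obtain ⟨e, he, he1, he2⟩ := h2
    have h3 : v.Ge (min X₀ 0) (ev2 x y (MvPolynomial.X (R := L) i) + e) :=
      (hX₀.mono (min_le_left _ _)).add (he.mono ((min_le_right _ _).trans hm))
    have h4 := (h1.mul h3).mono (c' := M + 2 * m) (by linarith)
    have h5 := ((ha.mul hP₀).mul he).mono (c' := M + 2 * m) (by linarith)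
    have h6 := ((hb.mul hP₁).mul he).mono (c' := M + 2 * m) (by linarith)
    rw [map_mul, map_mul, Derivation.leibniz, Derivation.leibniz, map_add, map_add, smul_eq_mul,
      smul_eq_mul, smul_eq_mul, smul_eq_mul, map_mul, map_mul, map_mul, map_mul, he1]
    have h7 := (h4.add h5).add h6
    convert h7 using 1
    linear_combination (ev2 x y P) * he2

/-- The polynomial `P(z - c Y, Y)` over `L(z)`. -/
theorem exists_subst {L : IntermediateField k Ω} (z : Ω) (c : k) (P : MvPolynomial (Fin 2) L) :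
    ∃ R : (adj L z)[X], ∀ y : Ω, aeval y R = ev2 (z - algebraMap k Ω c * y) y P ∧
      aeval y (derivative R) = ev2 (z - algebraMap k Ω c * y) y (MvPolynomial.pderiv 1 P) -
        algebraMap k Ω c * ev2 (z - algebraMap k Ω c * y) y (MvPolynomial.pderiv 0 P) := by
  induction P using MvPolynomial.induction_on with
  | C a =>
    refine ⟨C ⟨a, (D2P.mem_adj_self L z).2 a.2⟩, fun y => ⟨?_, ?_⟩⟩
    · rw [aeval_C, ev2, MvPolynomial.aeval_C]
      rfl
    · rw [derivative_C, map_zero, MvPolynomial.pderiv_C, MvPolynomial.pderiv_C, map_zero, mul_zero,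
        sub_zero]
  | add P Q hP hQ =>
    obtain ⟨R, hR⟩ := hP
    obtain ⟨S, hS⟩ := hQ
    refine ⟨R + S, fun y => ⟨?_, ?_⟩⟩
    · rw [map_add, map_add, (hR y).1, (hS y).1]
    · rw [derivative_add, map_add, map_add, map_add, map_add, map_add, (hR y).2, (hS y).2]
      ring
  | mul_X P i hP =>
    obtain ⟨R, hR⟩ := hP
    have h1 : ∃ S : (adj L z)[X], ∀ y : Ω,
        aeval y S = ev2 (z - algebraMap k Ω c * y) y (MvPolynomial.X (R := L) i) ∧
        aeval y (derivative S) =
          ev2 (z - algebraMap k Ω c * y) y (MvPolynomial.pderiv 1 (MvPolynomial.X (R := L) i)) -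
          algebraMap k Ω c *
          ev2 (z - algebraMap k Ω c * y) y (MvPolynomial.pderiv 0 (MvPolynomial.X (R := L) i)) := by
      fin_cases i
      · refine ⟨C ⟨z, (D2P.mem_adj_self L z).1⟩ - C (algebraMap k _ c) * X, fun y => ⟨?_, ?_⟩⟩
        · rw [map_sub, map_mul, aeval_C, aeval_C, aeval_X]
          simp only [ev2, Fin.zero_eta, MvPolynomial.aeval_X, Matrix.cons_val_zero]
          rfl
        · rw [derivative_sub, derivative_C, zero_sub, derivative_C_mul, derivative_X, mul_one,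
            map_neg, aeval_C]
          simp [ev2, MvPolynomial.pderiv_X]
      · refine ⟨X, fun y => ⟨?_, ?_⟩⟩
        · rw [aeval_X]
          simp [ev2]
        · rw [derivative_X, map_one]
          simp [ev2, MvPolynomial.pderiv_X]
    obtain ⟨S, hS⟩ := h1
    refine ⟨R * S, fun y => ⟨?_, ?_⟩⟩
    · rw [map_mul, map_mul, (hR y).1, (hS y).1]
    · rw [derivative_mul, map_add, map_mul, map_mul, (hR y).1, (hS y).1, (hR y).2, (hS y).2,
        Derivation.leibniz, Derivation.leibniz, map_add, map_add, smul_eq_mul,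
        smul_eq_mul, smul_eq_mul, smul_eq_mul, map_mul, map_mul, map_mul, map_mul]
      ring

theorem sep_of_root {K : Type*} [Field K] [Algebra K Ω] {a : Ω} {G : Polynomial K}
    (h0 : aeval a G = 0) (hd : aeval a G.derivative ≠ 0) : IsSeparable K a := by
  have hG0 : G ≠ 0 := by
    rintro rfl
    rw [Polynomial.derivative_zero, map_zero] at hd
    exact hd rfl
  have hint : IsIntegral K a := by
    have h1 : IsAlgebraic K a := ⟨G, hG0, h0⟩
    exact h1.isIntegral
  obtain ⟨q, hq⟩ := minpoly.dvd K a h0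
  have h1 : aeval a (minpoly K a).derivative ≠ 0 := by
    intro h2
    apply hd
    rw [hq, Polynomial.derivative_mul, map_add, map_mul, map_mul, h2, minpoly.aeval]
    ring
  refine (Polynomial.separable_iff_derivative_ne_zero (minpoly.irreducible hint)).2 ?_
  intro h2
  apply h1
  rw [h2, map_zero]

theorem ge_of_smul (htriv : ∀ c : k, c ≠ 0 → v (algebraMap k Ω c) = 0) {c : k} (hc : c ≠ 0)
    {b : Ω} {B : ℝ} (h : v.Ge B (algebraMap k Ω c * b)) : v.Ge B b := by
  have h4 : algebraMap k Ω c ≠ 0 := (_root_.map_ne_zero _).2 hc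
  intro hb0
  have h5 := h (mul_ne_zero h4 hb0)
  rwa [v.map_mul h4 hb0, htriv _ hc, zero_add] at h5

theorem ge_smul (htriv : ∀ c : k, c ≠ 0 → v (algebraMap k Ω c) = 0) (c : k)
    {b : Ω} {B : ℝ} (h : v.Ge B b) : v.Ge B (algebraMap k Ω c * b) := by
  have h1 : v.Ge 0 (algebraMap k Ω c) := by
    intro h0
    rw [htriv c (by rintro rfl; exact h0 (map_zero _))]
  exact (h1.mul h).mono (by rw [zero_add])

/-- At most one `c` is bad. -/
theorem bad_subsingleton (htriv : ∀ c : k, c ≠ 0 → v (algebraMap k Ω c) = 0) {a b : Ω} {B : ℝ}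
    (hb : ¬ v.Ge B b) : {c : k | v.Ge B (a + algebraMap k Ω c * b)}.Subsingleton := by
  intro c hc c' hc'
  by_contra hne
  apply hb
  have h1 : v.Ge B (a + algebraMap k Ω c * b - (a + algebraMap k Ω c' * b)) :=
    RVal.Ge.sub hc hc'
  have h2 : a + algebraMap k Ω c * b - (a + algebraMap k Ω c' * b) =
      algebraMap k Ω (c - c') * b := by
    rw [map_sub]; ring
  rw [h2] at h1
  exact ge_of_smul htriv (sub_ne_zero.2 hne) h1

/-- At most one `c` is bad for the derivative. -/
theorem bad_deriv (htriv : ∀ c : k, c ≠ 0 → v (algebraMap k Ω c) = 0) {a b : Ω} (ha : a ≠ 0) :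
    {c : k | ¬ (a - algebraMap k Ω c * b ≠ 0 ∧
      v (a - algebraMap k Ω c * b) ≤ v a)}.Subsingleton := by
  have key : ∀ c : k, ¬ (a - algebraMap k Ω c * b ≠ 0 ∧ v (a - algebraMap k Ω c * b) ≤ v a) →
      ∃ t : ℝ, v a < t ∧ v.Ge t (a - algebraMap k Ω c * b) := by
    intro c hc
    by_cases h0 : a - algebraMap k Ω c * b = 0
    · exact ⟨v a + 1, by linarith, by rw [h0]; exact RVal.Ge.zero⟩
    · exact ⟨v (a - algebraMap k Ω c * b), not_le.1 fun h => hc ⟨h0, h⟩, fun _ => le_rfl⟩
  intro c hc c' hc'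
  by_contra hne
  obtain ⟨t, ht, h1⟩ := key c hc
  obtain ⟨t', ht', h2⟩ := key c' hc'
  have h3 : v.Ge (min t t') (algebraMap k Ω (c' - c) * b) := by
    have h4 := (h1.mono (min_le_left t t')).sub (h2.mono (min_le_right t t'))
    have h5 : a - algebraMap k Ω c * b - (a - algebraMap k Ω c' * b) =
        algebraMap k Ω (c' - c) * b := by
      rw [map_sub]; ring
    rwa [h5] at h4
  have h6 := ge_of_smul htriv (sub_ne_zero.2 (Ne.symm hne)) h3
  have h7 := (h1.mono (min_le_left t t')).add (ge_smul htriv c h6)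
  rw [sub_add_cancel] at h7
  exact absurd (h7 ha) (not_le.2 (lt_min ht ht'))

theorem map_ev2 {L : IntermediateField k Ω} (σ : Ω →+* Ω) (hσ : ∀ a ∈ L, σ a = a) (x y : Ω)
    (P : MvPolynomial (Fin 2) L) : σ (ev2 x y P) = ev2 (σ x) (σ y) P := by
  induction P using MvPolynomial.induction_on with
  | C a =>
    rw [ev2, ev2, MvPolynomial.aeval_C, MvPolynomial.aeval_C]
    exact hσ _ a.2
  | add P Q hP hQ => rw [map_add, map_add, map_add, hP, hQ]
  | mul_X P i hP =>
    rw [map_mul, map_mul, map_mul, hP]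
    congr 1
    fin_cases i <;> simp [ev2]

theorem map_aeval' {L : IntermediateField k Ω} (σ : Ω →+* Ω) (hσ : ∀ a ∈ L, σ a = a) (x : Ω)
    (F : L[X]) : σ (aeval x F) = aeval (σ x) F := by
  rw [← ev2_in0 x 0, map_ev2 σ hσ, ev2_in0]

theorem exists_gen [IsAlgClosed k] [IsAlgClosed Ω]
    (htriv : ∀ c : k, c ≠ 0 → v (algebraMap k Ω c) = 0)
    (haut : ∀ M : IntermediateField k Ω, hen v M = M → (∃ a ∈ M, a ≠ 0 ∧ 0 < v a) →
      (∀ g : Ω, IsAlgebraic M g) → ∀ (σ : Ω ≃ₐ[M] Ω) (a : Ω), v (σ a) = v a)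
    {L : IntermediateField k Ω} (hpos : ∃ a ∈ L, a ≠ 0 ∧ 0 < v a) {w θ : Ω}
    (hw : Transcendental L w) (hθ : IsSeparable (adj L w) θ) (hcl : LimAlg v L w)
    (hΩ : ∀ g : Ω, IsAlgebraic (adj L w) g) :
    ∃ z : Ω, Transcendental L z ∧ LimAlg v L z ∧ hen v (adj (adj L w) θ) = hen v (adj L z) := by
  classical
  -- the equation
  obtain ⟨P, D, hD, hP1, hP2⟩ := exists_clear w (minpoly (adj L w) θ)
  have hP : ev2 w θ P = 0 := by rw [hP1, minpoly.aeval, mul_zero]
  have hPY : ev2 w θ (MvPolynomial.pderiv 1 P) ≠ 0 := by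
    rw [hP2]
    exact mul_ne_zero hD (hθ.aeval_derivative_ne_zero (minpoly.aeval _ _))
  obtain ⟨B, hB⟩ := taylor (v := v) P w θ
  set dY := ev2 w θ (MvPolynomial.pderiv 1 P) with hdY
  set dX := ev2 w θ (MvPolynomial.pderiv 0 P) with hdX
  -- the bound
  set b : ℝ := max 0 (v dY - B) + 1 with hb
  have hb0 : 0 ≤ b := by positivity
  have hb1 : v dY - B < b := (le_max_right 0 (v dY - B)).trans_lt (lt_add_one _)
  -- limits
  have hlim : ∀ e : Ω, IsAlgebraic (adj L w) e → LimAlg v L e := by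
    intro e he
    refine LimAlg.field hpos (S := {w}) (fun s hs => by rw [Set.mem_singleton_iff.1 hs]; exact hcl)
      (D2P.isAlgebraic_mono ?_ he)
    refine D2P.adj_le (fun x hx => IntermediateField.subset_adjoin _ _ (Or.inl hx))
      (IntermediateField.subset_adjoin _ _ (Or.inr rfl))
  obtain ⟨α, hα, hα1⟩ := hcl b
  obtain ⟨τ, hτ, hτ1⟩ := hlim θ hθ.isIntegral.isAlgebraic b
  -- the choice of `c`
  set R₁ := (minpoly L α).rootSet Ω with hR₁
  set R₂ := (minpoly L τ).rootSet Ω with hR₂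
  have hfin1 : R₁.Finite := rootSet_finite _ _
  have hfin2 : R₂.Finite := rootSet_finite _ _
  set bad : Set k := {c : k | ¬ (dY - algebraMap k Ω c * dX ≠ 0 ∧
      v (dY - algebraMap k Ω c * dX) ≤ v dY)} ∪
    ⋃ a ∈ R₁, ⋃ t ∈ {t ∈ R₂ | ¬ v.Ge b (t - τ)},
      {c : k | v.Ge b ((a - α) + algebraMap k Ω c * (t - τ))} with hbad
  have hbadfin : bad.Finite := by
    refine (bad_deriv htriv hPY).finite.union (hfin1.biUnion fun a _ => ?_)
    exact (hfin2.subset (Set.sep_subset _ _)).biUnion fun t ht =>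
      (bad_subsingleton htriv ht.2).finite
  have : Infinite k := IsAlgClosed.instInfinite
  obtain ⟨c, hc⟩ := hbadfin.exists_notMem
  have hc1 : dY - algebraMap k Ω c * dX ≠ 0 ∧ v (dY - algebraMap k Ω c * dX) ≤ v dY := by
    by_contra h
    exact hc (Or.inl h)
  have hc2 : ∀ a ∈ R₁, ∀ t ∈ R₂, v.Ge b ((a - α) + algebraMap k Ω c * (t - τ)) →
      v.Ge b (t - τ) := by
    intro a ha t ht h
    by_contra h1
    exact hc (Or.inr (Set.mem_biUnion ha (Set.mem_biUnion ⟨ht, h1⟩ h)))
  clear hc hbadfin hbad bad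
  set z : Ω := w + algebraMap k Ω c * θ with hz
  have hzw : z - algebraMap k Ω c * θ = w := by rw [hz]; ring
  have hck : ∀ F : IntermediateField k Ω, algebraMap k Ω c ∈ F := fun F => F.algebraMap_mem c
  -- `θ` is separable over `L(z)`
  have hsep : IsSeparable (adj L z) θ := by
    obtain ⟨R, hR⟩ := exists_subst z c P
    refine sep_of_root (G := R) ?_ ?_
    · rw [(hR θ).1, hzw, hP]
    · rw [(hR θ).2, hzw]
      exact hc1.1
  have halg : ∀ a ∈ adj (adj L z) θ, IsAlgebraic (adj L z) a :=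
    D2P.isAlgebraic_sup (M := adj L z) {θ} fun s hs => by
      rw [Set.mem_singleton_iff.1 hs]
      exact hsep.isIntegral.isAlgebraic
  have hle1 : adj L w ≤ adj (adj L z) θ := by
    refine D2P.adj_le ((D2P.mem_adj_self L z).2.trans (D2P.mem_adj_self _ θ).2) ?_
    rw [← hzw]
    exact sub_mem ((D2P.mem_adj_self _ θ).2 (D2P.mem_adj_self L z).1)
      (mul_mem (hck _) (D2P.mem_adj_self _ θ).1)
  have hΩz : ∀ g : Ω, IsAlgebraic (adj L z) g := fun g =>
    D2P.isAlgebraic_trans (fun a ha => halg a (hle1 ha)) (hΩ g)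
  have hztr : Transcendental L z := by
    intro h
    apply hw
    refine D2P.isAlgebraic_trans (E := L) (F := adj L z) (fun a ha => ?_) (hΩz w)
    exact D2P.isAlgebraic_sup (M := L) {z} (fun s hs => by
      rw [Set.mem_singleton_iff.1 hs]
      exact h) a ha
  have hzalg : IsAlgebraic (adj L w) z := by
    have h1 : z ∈ adj (adj L w) θ := by
      rw [hz]
      exact add_mem ((D2P.mem_adj_self _ θ).2 (D2P.mem_adj_self L w).1)
        (mul_mem (hck _) (D2P.mem_adj_self _ θ).1)
    exact D2P.isAlgebraic_sup (M := adj L w) {θ} (fun s hs => by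
      rw [Set.mem_singleton_iff.1 hs]
      exact hθ.isIntegral.isAlgebraic) z h1
  refine ⟨z, hztr, hlim z hzalg, ?_⟩
  -- `θ` is in the henselization of `L(z)`
  have hleM : adj L z ≤ hen v (adj L z) := D2P.le_hen _
  have hM := D2P.hen_hen (v := v) (adj L z)
  set M := hen v (adj L z) with hMdef
  have hLM : L ≤ M := (D2P.mem_adj_self L z).2.trans hleM
  have hΩM : ∀ g : Ω, IsAlgebraic M g := fun g => D2P.isAlgebraic_mono hleM (hΩz g)
  have hθM : θ ∈ M := by
    refine D2P.mem_of_fixed hΩM (D2P.isSeparable_mono hleM hsep) fun σ => ?_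
    obtain ⟨a₀, ha₀, ha₁⟩ := hpos
    have hval : ∀ a, v (σ a) = v a := haut M hM ⟨a₀, hLM ha₀, ha₁⟩ hΩM σ
    have hge : ∀ {C : ℝ} {a : Ω}, v.Ge C a → v.Ge C (σ a) := by
      intro C a h h0
      rw [hval]
      exact h fun h1 => h0 (by rw [h1, map_zero])
    have hσM : ∀ a ∈ M, σ a = a := fun a ha => σ.commutes ⟨a, ha⟩
    have hσL : ∀ a ∈ L, (σ : Ω →+* Ω) a = a := fun a ha => hσM a (hLM ha)
    have hσc : σ (algebraMap k Ω c) = algebraMap k Ω c := hσM _ (hck _)
    have hσz : σ z = z := hσM z (hleM (D2P.mem_adj_self L z).1)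
    have hσw : σ w - w = -(algebraMap k Ω c * (σ θ - θ)) := by
      rw [← hzw, map_sub, map_mul, hσc, hσz]
      ring
    -- conjugates of the approximations
    have h1 : σ α ∈ R₁ := by
      rw [hR₁, mem_rootSet]
      refine ⟨minpoly.ne_zero hα.isIntegral, ?_⟩
      have := map_aeval' (σ : Ω →+* Ω) hσL α (minpoly L α)
      rw [minpoly.aeval, map_zero] at this
      exact this.symm
    have h2 : σ τ ∈ R₂ := by
      rw [hR₂, mem_rootSet]
      refine ⟨minpoly.ne_zero hτ.isIntegral, ?_⟩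
      have := map_aeval' (σ : Ω →+* Ω) hσL τ (minpoly L τ)
      rw [minpoly.aeval, map_zero] at this
      exact this.symm
    have h3 : v.Ge b ((σ α - α) + algebraMap k Ω c * (σ τ - τ)) := by
      have e1 : v.Ge b (-σ (w - α)) := (hge hα1).neg
      have e2 : v.Ge b (algebraMap k Ω c * (-σ (θ - τ))) := ge_smul htriv c (hge hτ1).neg
      have e3 : v.Ge b (algebraMap k Ω c * (θ - τ)) := ge_smul htriv c hτ1
      have e4 := ((e1.add hα1).add e2).add e3
      have e5 : -σ (w - α) + (w - α) + algebraMap k Ω c * -σ (θ - τ) +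
          algebraMap k Ω c * (θ - τ) = (σ α - α) + algebraMap k Ω c * (σ τ - τ) := by
        rw [map_sub, map_sub]
        linear_combination -hσw
      rwa [e5] at e4
    have h4 := hc2 _ h1 _ h2 h3
    have h5 : v.Ge b (σ θ - θ) := by
      have e1 := ((hge hτ1).add h4).add hτ1.neg
      have e2 : σ (θ - τ) + (σ τ - τ) + -(θ - τ) = σ θ - θ := by
        rw [map_sub]; ring
      rwa [e2] at e1
    by_contra hne
    have hδ : σ θ - θ ≠ 0 := sub_ne_zero.2 hne
    set δ := σ θ - θ with hδdef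
    have h6 : b ≤ v δ := h5 hδ
    have h7 := hB (v δ) (-(algebraMap k Ω c * δ)) δ (hb0.trans h6)
      (ge_smul htriv c (fun _ => le_rfl)).neg (fun _ => le_rfl)
    have h8 : w + -(algebraMap k Ω c * δ) = σ w := by rw [← hσw]; ring
    have h9 : θ + δ = σ θ := by rw [hδdef]; ring
    have h10 : ev2 (σ w) (σ θ) P = 0 := by
      have := map_ev2 (σ : Ω →+* Ω) hσL w θ P
      rw [hP, map_zero] at this
      exact this.symm
    rw [h8, h9, h10, hP] at h7
    have h11 : 0 - 0 - -(algebraMap k Ω c * δ) * dX - δ * dY =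
        -(δ * (dY - algebraMap k Ω c * dX)) := by ring
    rw [h11] at h7
    have h12 := h7 (neg_ne_zero.2 (mul_ne_zero hδ hc1.1))
    rw [v.map_neg _ (mul_ne_zero hδ hc1.1), v.map_mul hδ hc1.1] at h12
    linarith [hc1.2]
  refine le_antisymm ?_ ?_
  · refine D2P.hen_le hM (D2P.adj_le (D2P.adj_le hLM ?_) hθM)
    rw [← hzw]
    exact sub_mem (hleM (D2P.mem_adj_self L z).1) (mul_mem (hck _) hθM)
  · refine D2P.hen_mono (D2P.adj_le
      ((D2P.mem_adj_self L w).2.trans (D2P.mem_adj_self _ θ).2) ?_)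
    rw [hz]
    exact add_mem ((D2P.mem_adj_self _ θ).2 (D2P.mem_adj_self L w).1)
      (mul_mem (hck _) (D2P.mem_adj_self _ θ).1)

end Pool.Agent.TW.Q2
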