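import Pool.Agent.Lib.TWQ.Q5r
import Pool.Agent.Lib.TW.T1
import Pool.Agent.Lib.D2.G3
import Pool.Agent.Lib.D2P.H0

/-!
# TANK W, row Q5: the induction of theorem N

`lus_of_basis_of`: `t, t'` a separating transcendence basis of `E`, `t'` in the completion of the
algebraic closure of `k(t)`, which has defect at most one: `E` is log uniformizable. Induction on
the number of the `t'`: the last one is moved to a generator `z` of the henselization, the valuation
is replaced by one for which `z` has a transcendental residue.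
-/

set_option autoImplicit false

open Polynomial

namespace Pool.Agent.TW

open Pool.Agent.H15JM (RVal)
open Pool.Agent.LU1 (VPos adj)
open Pool.Agent.LUC (Cl LUs IsMod Par SM QuoIs lv)
open Pool.Agent.D2P (hen mem_hen mem_adj_self adj_le isAlgebraic_mono isSeparable_mono)

universe u

variable {k Ω : Type u} [Field k] [Field Ω] [Algebra k Ω]

namespace Q5

theorem ge_k {v : RVal Ω} (h : Triv k v) (c : k) : v.Ge 0 (algebraMap k Ω c) := by
  intro h0
  have hc : c ≠ 0 := fun h1 => h0 (by rw [h1, map_zero])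
  rw [h c hc]

theorem ge_aeval {v : RVal Ω} (h : Triv k v) {q : ℕ} {y : Fin q → Ω} (hy : ∀ i, v.Ge 0 (y i))
    (P : MvPolynomial (Fin q) k) : v.Ge 0 (MvPolynomial.aeval y P) := by
  have h1 := (ev h (fun i => (⟨y i, hy i⟩ : vr v)) P).2
  rw [coe_ev h] at h1
  exact h1

/-- Log uniformization depends only on the henselization. -/
theorem lus_of_hen {v : RVal Ω} [IsAlgClosed Ω] (h : Triv k v) {E E₁ : IntermediateField k Ω}
    (hE : E.FG) (hE₁ : E₁.FG) (hpos : ∃ a ∈ E, a ≠ 0 ∧ 0 < v a)
    (hΩ : ∀ g : Ω, IsAlgebraic E g) (hh : hen v E = hen v E₁)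
    (hL : LUs v (algebraMap k Ω).range E₁.toSubfield) :
    LUs v (algebraMap k Ω).range E.toSubfield := by
  have h1 : ∀ a ∈ E, a ∈ hen v E₁ := fun a ha => by
    rw [← hh]
    exact D2P.le_hen _ ha
  have h2 : ∀ a ∈ E₁, a ∈ hen v E := fun a ha => by
    rw [hh]
    exact D2P.le_hen _ ha
  exact D2.lus_of_cl E E₁ (ge_k h) hpos hE hE₁ hΩ (fun a ha => (mem_hen.1 (h1 a ha)).1)
    (fun a ha => (mem_hen.1 (h2 a ha)).1) (fun a ha => (mem_hen.1 (h1 a ha)).2)
    (fun a ha => (mem_hen.1 (h2 a ha)).2) hL

theorem aeval_mem {L : IntermediateField k Ω} {q : ℕ} {y : Fin q → Ω} (hy : ∀ i, y i ∈ L)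
    (P : MvPolynomial (Fin q) k) : MvPolynomial.aeval y P ∈ L := by
  induction P using MvPolynomial.induction_on with
  | C a => rw [MvPolynomial.aeval_C]; exact L.algebraMap_mem a
  | add P₁ P₂ h₁ h₂ => rw [map_add]; exact add_mem h₁ h₂
  | mul_X P₁ i h₁ => rw [map_mul, MvPolynomial.aeval_X]; exact mul_mem h₁ (hy i)

theorem prod_le {v : RVal Ω} {u : Ω} (m : Multiset Ω) (hm : ∀ β ∈ m, u ≠ β ∧ v (u - β) ≤ 0) :
    (m.map fun β => u - β).prod ≠ 0 ∧ v (m.map fun β => u - β).prod ≤ 0 := by
  induction m using Multiset.induction_on with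
  | empty =>
    rw [Multiset.map_zero, Multiset.prod_zero]
    exact ⟨one_ne_zero, v.map_one.le⟩
  | cons a m ih =>
    rw [Multiset.map_cons, Multiset.prod_cons]
    obtain ⟨h1, h2⟩ := ih fun β hβ => hm β (Multiset.mem_cons_of_mem hβ)
    obtain ⟨h3, h4⟩ := hm a (Multiset.mem_cons_self a m)
    have h5 : u - a ≠ 0 := sub_ne_zero.2 h3
    refine ⟨mul_ne_zero h5 h1, ?_⟩
    rw [v.map_mul h5 h1]
    linarith

/-- Independent residues, and a residue transcendental over the ones of algebraic elements. -/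
theorem IndRes.cons {v : RVal Ω} [IsAlgClosed Ω] (h : Triv k v) {L : IntermediateField k Ω}
    {q : ℕ} {y : Fin q → Ω} (hyL : ∀ i, y i ∈ L) (hy : ∀ i, v.Ge 0 (y i)) (hi : IndRes k v y)
    {u : Ω} (hu : v.Ge 0 u) (hg : GenRes v L u) :
    IndRes k v (Fin.cons u y : Fin (q + 1) → Ω) := by
  classical
  intro P hP
  set R := MvPolynomial.finSuccEquiv k q P with hR
  have hR0 : R ≠ 0 := by
    rw [hR]
    simpa using hP
  set Q : Polynomial Ω := R.map (MvPolynomial.aeval y : MvPolynomial (Fin q) k →ₐ[k] Ω).toRingHom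
    with hQ
  have hev : MvPolynomial.aeval (Fin.cons u y : Fin (q + 1) → Ω) P = Q.eval u := by
    rw [hQ, hR]
    clear hQ hR Q hR0 R hP
    induction P using MvPolynomial.induction_on with
    | C a => simp [MvPolynomial.finSuccEquiv_apply]
    | add P₁ P₂ h₁ h₂ => rw [map_add, map_add, Polynomial.map_add, eval_add, h₁, h₂]
    | mul_X P₁ i h₁ =>
      rw [map_mul, map_mul, Polynomial.map_mul, eval_mul, h₁, MvPolynomial.aeval_X]
      congr 1
      refine Fin.cases ?_ (fun j => ?_) i
      · simp [MvPolynomial.finSuccEquiv_X_zero]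
      · simp [MvPolynomial.finSuccEquiv_X_succ]
  set l : Ω := MvPolynomial.aeval y R.leadingCoeff with hl
  have hl0 : R.leadingCoeff ≠ 0 := leadingCoeff_ne_zero.2 hR0
  obtain ⟨hl1, hl2⟩ := hi _ hl0
  have hdeg : Q.natDegree = R.natDegree := natDegree_map_of_leadingCoeff_ne_zero _ hl1
  have hlead : Q.leadingCoeff = l := by
    rw [leadingCoeff, hdeg, hQ, coeff_map]
    rfl
  have hQ0 : Q ≠ 0 := by
    intro h1
    rw [h1, leadingCoeff_zero] at hlead
    exact hl1 hlead.symm
  have hQL : ∀ i, Q.coeff i ∈ L := by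
    intro i
    rw [hQ, coeff_map]
    exact aeval_mem hyL _
  have hroots : ∀ β ∈ Q.roots, u ≠ β ∧ v (u - β) ≤ 0 := by
    intro β hβ
    have hβa : IsAlgebraic L β := by
      have h1 := (mem_roots hQ0).1 hβ
      obtain ⟨q₁, hq₁⟩ : ∃ q₁ : L[X], q₁.map (algebraMap L Ω) = Q := by
        have h3 : Q ∈ Polynomial.lifts (algebraMap L Ω) :=
          (Polynomial.lifts_iff_coeff_lifts Q).2 fun i => ⟨⟨Q.coeff i, hQL i⟩, rfl⟩
        exact (Polynomial.mem_lifts Q).1 h3
      refine ⟨q₁, ?_, ?_⟩
      · rintro rfl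
        rw [Polynomial.map_zero] at hq₁
        exact hQ0 hq₁.symm
      · rw [aeval_def, ← eval_map, hq₁]
        exact h1
    by_cases hβ0 : v.Ge 0 β
    · obtain ⟨h1, h2⟩ := hg β hβa hβ0
      exact ⟨h1, h2.le⟩
    · have h1 : β ≠ 0 ∧ v β < 0 := by
        rw [RVal.Ge] at hβ0
        push Not at hβ0
        exact hβ0
      by_cases hu0 : u = 0
      · rw [hu0]
        refine ⟨fun h2 => h1.1 h2.symm, ?_⟩
        rw [zero_sub, v.map_neg _ h1.1]
        exact h1.2.le
      · have h2 : v u ≥ 0 := hu hu0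
        have h3 : -β ≠ 0 := neg_ne_zero.2 h1.1
        have h4 := v.add_of_lt h3 hu0 (by rw [v.map_neg _ h1.1]; linarith)
        have h5 : u - β = -β + u := by ring
        rw [h5, h4.2, v.map_neg _ h1.1]
        refine ⟨fun h6 => h4.1 (by rw [h6]; ring), h1.2.le⟩
  have hQe : Q.eval u = l * (Q.roots.map fun β => u - β).prod := by
    have h1 : Q = C Q.leadingCoeff * (Q.roots.map fun a => X - C a).prod :=
      (IsAlgClosed.splits Q).eq_prod_roots
    conv_lhs => rw [h1]
    rw [eval_mul, eval_C, hlead, eval_multiset_prod, Multiset.map_map]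
    congr 2
    refine Multiset.map_congr rfl fun β _ => ?_
    simp
  obtain ⟨h1, h2⟩ := prod_le Q.roots hroots
  have h3 : Q.eval u ≠ 0 := by
    rw [hQe]
    exact mul_ne_zero hl1 h1
  rw [hev]
  refine ⟨h3, le_antisymm ?_ ?_⟩
  · rw [hQe, v.map_mul hl1 h1, hl2, zero_add]
    exact h2
  · have h4 : v.Ge 0 (MvPolynomial.aeval (Fin.cons u y : Fin (q + 1) → Ω) P) :=
      ge_aeval h (fun i => by
        refine Fin.cases ?_ (fun j => ?_) i
        · exact hu
        · exact hy j) P
    rw [hev] at h4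
    exact h4 h3

/-- Small changes of an element with generic residue. -/
theorem GenRes.congr {v : RVal Ω} {L : IntermediateField k Ω} {u u' : Ω} (hg : GenRes v L u)
    (h : VPos v (u' - u)) : GenRes v L u' := by
  intro β hβ hβ0
  obtain ⟨h1, h2⟩ := hg β hβ hβ0
  have h3 : u - β ≠ 0 := sub_ne_zero.2 h1
  have h4 : u' - β = (u - β) + (u' - u) := by ring
  by_cases h5 : u' - u = 0
  · have h6 : u' = u := sub_eq_zero.1 h5
    rw [h6]
    exact ⟨h1, h2⟩
  · have h6 := v.add_of_lt h3 h5 (by rw [h2]; exact h h5)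
    rw [← h4] at h6
    exact ⟨sub_ne_zero.1 h6.1, by rw [h6.2, h2]⟩

end Q5

open Q5 in
/-- The induction (the other rows as hypotheses). -/
theorem lus_of_basis_of [IsAlgClosed k] [IsAlgClosed Ω]
    (H2 : ∀ v : RVal Ω, Triv k v → ∀ L : IntermediateField k Ω, (∃ a ∈ L, a ≠ 0 ∧ 0 < v a) →
      ∀ w θ : Ω, Transcendental L w → IsSeparable (adj L w) θ → LimAlg v L w →
        (∀ g : Ω, IsAlgebraic (adj L w) g) →
        ∃ z : Ω, Transcendental L z ∧ LimAlg v L z ∧
          hen v (adj (adj L w) θ) = hen v (adj L z))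
    (H4 : ∀ v : RVal Ω, Triv k v → ∀ L : IntermediateField k Ω, L.FG →
      (∃ a ∈ L, a ≠ 0 ∧ 0 < v a) → ∀ z : Ω, Transcendental L z →
      (∀ g : Ω, IsAlgebraic (adj L z) g) → LimAlg v L z →
      (∀ W : RVal Ω, Triv k W → (∀ f, f ≠ 0 → IsAlgebraic L f → W f = v f) →
        (∃ α c₀ : Ω, IsAlgebraic L α ∧ c₀ ∈ L ∧ c₀ ≠ 0 ∧ GenRes W L ((z - α) / c₀)) →
        LUs W (algebraMap k Ω).range (adj L z).toSubfield) →
      LUs v (algebraMap k Ω).range (adj L z).toSubfield)
    (H5a : ∀ v : RVal Ω, Triv k v → ∀ E : IntermediateField k Ω, E.FG →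
      (∃ a ∈ E, a ≠ 0 ∧ 0 < v a) → DefL v E 1 → LUs v (algebraMap k Ω).range E.toSubfield)
    (H5b : ∀ v : RVal Ω, ∀ C : IntermediateField k Ω, (∃ a ∈ C, a ≠ 0 ∧ 0 < v a) →
      ∀ S : Set Ω, (∀ s ∈ S, LimAlg v C s) → ∀ e : Ω,
        IsAlgebraic (IntermediateField.adjoin k ((C : Set Ω) ∪ S)) e → LimAlg v C e) :
    ∀ (s m : ℕ) (v : RVal Ω) (_ : Triv k v) (t : Fin m → Ω) (t' : Fin s → Ω)
      (_ : AlgebraicIndependent k (Sum.elim t t')) (E : IntermediateField k Ω) (_ : E.FG)
      (_ : ∀ i, t i ∈ E) (_ : ∀ i, t' i ∈ E)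
      (_ : ∀ e ∈ E, IsSeparable (IntermediateField.adjoin k (Set.range t ∪ Set.range t')) e)
      (_ : ∀ g : Ω, IsAlgebraic E g)
      (_ : ∃ a ∈ IntermediateField.adjoin k (Set.range t), a ≠ 0 ∧ 0 < v a)
      (_ : DefL v (IntermediateField.adjoin k (Set.range t)) 1)
      (_ : ∀ i, LimAlg v (IntermediateField.adjoin k (Set.range t)) (t' i)),
      LUs v (algebraMap k Ω).range E.toSubfield := by
  classical
  intro s
  induction s with
  | zero =>
    intro m v h t t' _ E hE ht _ hsep _ hpos hD _
    have hle : IntermediateField.adjoin k (Set.range t) ≤ E := by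
      rw [IntermediateField.adjoin_le_iff]
      rintro _ ⟨i, rfl⟩
      exact ht i
    have hre : (Set.range t ∪ Set.range t' : Set Ω) = Set.range t := by
      rw [Set.range_eq_empty t', Set.union_empty]
    obtain ⟨a, ha, ha0, hav⟩ := hpos
    refine H5a v h E hE ⟨a, hle ha, ha0, hav⟩ ?_
    obtain ⟨r, q, x, y, h1, h2, h3, h4, h5⟩ := hD
    refine ⟨r, q, x, y, ?_, fun i => ⟨hle (h2 i).1, (h2 i).2⟩, h3,
      fun i => ⟨hle (h4 i).1, (h4 i).2⟩, h5⟩
    rw [trdeg_eq_of_alg hle fun a ha => by
      have h6 := hsep a ha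
      rw [hre] at h6
      exact h6.isIntegral.isAlgebraic]
    exact h1
  | succ s ih =>
    intro m v h t t' hai E hE ht ht' hsep hΩ hpos hD hlim
    set C : IntermediateField k Ω := IntermediateField.adjoin k (Set.range t) with hC
    set t₁ : Fin s → Ω := fun i => t' i.castSucc with ht₁
    set w : Ω := t' (Fin.last s) with hw'
    set L : IntermediateField k Ω := IntermediateField.adjoin k (Set.range t ∪ Set.range t₁)
      with hL
    have hLfg : L.FG := IntermediateField.fg_adjoin_of_finite
      ((Set.finite_range t).union (Set.finite_range t₁))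
    have hCL : C ≤ L := IntermediateField.adjoin.mono k _ _ Set.subset_union_left
    have hadj : adj L w = IntermediateField.adjoin k (Set.range t ∪ Set.range t') := by
      rw [adj, hL, ← IntermediateField.adjoin_union]
      congr 1
      ext x
      constructor
      · rintro ((h1 | ⟨j, rfl⟩) | rfl)
        · exact Or.inl h1
        · exact Or.inr ⟨j.castSucc, rfl⟩
        · exact Or.inr ⟨Fin.last s, rfl⟩
      · rintro (h1 | ⟨j, rfl⟩)
        · exact Or.inl (Or.inl h1)
        · refine Fin.lastCases ?_ (fun j => ?_) j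
          · exact Or.inr rfl
          · exact Or.inl (Or.inr ⟨j, rfl⟩)
    -- independence
    have hai₁ : AlgebraicIndependent k (Sum.elim t t₁) := by
      have h1 := hai.comp (Sum.map id Fin.castSucc)
        (Function.Injective.sumMap Function.injective_id (Fin.castSucc_injective s))
      have h2 : Sum.elim t t' ∘ Sum.map id Fin.castSucc = Sum.elim t t₁ := by
        funext i
        rcases i with i | i <;> rfl
      rwa [h2] at h1
    have hw : Transcendental L w := by
      rw [hL, IntermediateField.transcendental_adjoin_iff]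
      have h1 := hai.transcendental_adjoin (s := {j | j ≠ Sum.inr (Fin.last s)})
        (i := Sum.inr (Fin.last s)) (fun h1 => h1 rfl)
      have h2 : Sum.elim t t' '' {j | j ≠ Sum.inr (Fin.last s)} =
          Set.range t ∪ Set.range t₁ := by
        ext x
        constructor
        · rintro ⟨i | i, hi, rfl⟩
          · exact Or.inl ⟨i, rfl⟩
          · refine Or.inr ?_
            have hi' : i ≠ Fin.last s := fun h3 => hi (by rw [h3])
            obtain ⟨j, rfl⟩ := Fin.exists_castSucc_eq.2 hi'
            exact ⟨j, rfl⟩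
        · rintro (⟨i, rfl⟩ | ⟨i, rfl⟩)
          · exact ⟨Sum.inl i, fun h3 => (by cases h3), rfl⟩
          · refine ⟨Sum.inr i.castSucc, fun h3 => ?_, rfl⟩
            have h4 := Sum.inr.inj h3
            exact (Fin.castSucc_lt_last i).ne h4
      rw [h2] at h1
      exact h1
    -- a primitive element
    obtain ⟨S, hS⟩ := id hE
    have hSE : ∀ s ∈ S, s ∈ E := by
      intro s hs
      rw [← hS]
      exact IntermediateField.subset_adjoin k _ hs
    have hwE : adj L w ≤ E := by
      rw [hadj, IntermediateField.adjoin_le_iff]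
      rintro _ (⟨i, rfl⟩ | ⟨i, rfl⟩)
      · exact ht i
      · exact ht' i
    have hsep' : ∀ e ∈ E, IsSeparable (adj L w) e := fun e he => by
      rw [hadj]
      exact hsep e he
    obtain ⟨θ, hθ, hEθ'⟩ := D2P.H0aux.exists_prim (T := adj L w) S fun s hs =>
      hsep' s (hSE s hs)
    have hEθ : adj (adj L w) θ = E := by
      rw [hEθ', hS]
      exact sup_eq_right.2 hwE
    obtain ⟨a, haC, ha0, hav⟩ := hpos
    have hposL : ∃ a ∈ L, a ≠ 0 ∧ 0 < v a := ⟨a, hCL haC, ha0, hav⟩
    have hmonoL : ∀ {x : Ω}, LimAlg v C x → LimAlg v L x := by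
      intro x hx b
      obtain ⟨α, hα, h1⟩ := hx b
      exact ⟨α, isAlgebraic_mono hCL hα, h1⟩
    obtain ⟨z, hz, hzl, hh⟩ := H2 v h L hposL w θ hw hθ (hmonoL (hlim _)) fun g =>
      D2P.isAlgebraic_trans (F := E) (fun a ha => (hsep' a ha).isIntegral.isAlgebraic) (hΩ g)
    rw [hEθ] at hh
    have hzfg : (adj L z).FG := D2P.fg_adj hLfg z
    have hΩz : ∀ g : Ω, IsAlgebraic (adj L z) g := fun g =>
      D2P.isAlgebraic_trans (F := E) (fun a ha => by
        have h1 : a ∈ hen v (adj L z) := by
          rw [← hh]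
          exact D2P.le_hen _ ha
        exact (mem_hen.1 h1).2.isIntegral.isAlgebraic) (hΩ g)
    refine lus_of_hen h hE hzfg ⟨a, hwE ((mem_adj_self L w).2 (hCL haC)), ha0, hav⟩ hΩ hh ?_
    refine H4 v h L hLfg hposL z hz hΩz hzl ?_
    -- the new valuation
    rintro W hWT hWv ⟨α, c₀, hα, hc₀, hc₀0, hgen⟩
    have hWge : ∀ {f : Ω} {b : ℝ}, IsAlgebraic L f → (W.Ge b f ↔ v.Ge b f) := by
      intro f b hf
      constructor
      · intro h1 h0
        rw [← hWv f h0 hf]
        exact h1 h0
      · intro h1 h0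
        rw [hWv f h0 hf]
        exact h1 h0
    have hLalg : ∀ {f : Ω}, f ∈ L → IsAlgebraic L f := fun hf => D2P.isAlgebraic_of_mem hf
    have hC₁ : IntermediateField.adjoin k (Set.range (Fin.cons z t : Fin (m + 1) → Ω)) =
        adj C z := by
      rw [adj, hC, ← IntermediateField.adjoin_union, Fin.range_cons, Set.insert_eq,
        Set.union_comm]
    have hzL : adj L z =
        IntermediateField.adjoin k (Set.range (Fin.cons z t : Fin (m + 1) → Ω) ∪ Set.range t₁) := by
      rw [adj, hL, ← IntermediateField.adjoin_union, Fin.range_cons, Set.insert_eq]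
      congr 1
      ext x
      simp only [Set.mem_union, Set.mem_singleton_iff]
      tauto
    have hlim₁ : ∀ x ∈ Set.range t₁, LimAlg v C x := by
      rintro _ ⟨i, rfl⟩
      exact hlim i.castSucc
    have hfield : ∀ {e : Ω}, IsAlgebraic L e → LimAlg v C e := by
      intro e he
      refine H5b v C ⟨a, haC, ha0, hav⟩ (Set.range t₁) hlim₁ e (isAlgebraic_mono ?_ he)
      rw [hL]
      refine IntermediateField.adjoin.mono k _ _ (Set.union_subset_union_left _ ?_)
      exact IntermediateField.subset_adjoin k _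
    -- the approximations over `C`
    obtain ⟨α', hα', h1⟩ := hfield hα (v c₀ + 1)
    obtain ⟨c', hc', h2⟩ := hfield (hLalg hc₀) (v c₀ + 1)
    have hc'v : c' ≠ 0 ∧ v c' = v c₀ := by
      by_cases h0 : c' - c₀ = 0
      · have h3 : c' = c₀ := sub_eq_zero.1 h0
        rw [h3]
        exact ⟨hc₀0, rfl⟩
      · have h3 : v c₀ < v (c' - c₀) := by
          have h4 : v.Ge (v c₀ + 1) (c' - c₀) := by
            have h5 := h2.neg
            rwa [neg_sub] at h5
          have := h4 h0
          linarith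
        have h4 := v.add_of_lt hc₀0 h0 h3
        rw [add_sub_cancel] at h4
        exact h4
    obtain ⟨hc'0, hc'v⟩ := hc'v
    have hα'L : IsAlgebraic L α' := isAlgebraic_mono hCL hα'
    have hc'L : IsAlgebraic L c' := isAlgebraic_mono hCL hc'
    set u : Ω := (z - α) / c₀ with hu
    set u' : Ω := (z - α') / c' with hu'
    have huge : W.Ge 0 u := by
      obtain ⟨h3, h4⟩ := hgen 0 isAlgebraic_zero RVal.Ge.zero
      rw [sub_zero] at h4
      exact fun _ => h4.ge
    have hWc' : W c' = v c₀ := by rw [hWv c' hc'0 hc'L, hc'v]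
    have hdiff : W.Ge 1 (u' - u) := by
      have h3 : u' - u = u * ((c₀ - c') / c') + (α - α') / c' := by
        rw [hu, hu']
        field_simp
        ring
      have h4 : W.Ge (v c₀ + 1) (c₀ - c') := (hWge ((hLalg hc₀).sub hc'L)).2 h2
      have h5 : W.Ge (v c₀ + 1) (α - α') := (hWge (hα.sub hα'L)).2 h1
      have h6 : W.Ge (-v c₀) c'⁻¹ := fun _ => by rw [W.map_inv hc'0, hWc']
      have h7 : W.Ge 1 ((c₀ - c') / c') := by
        have h8 := RVal.Ge.mul h4 h6
        rw [div_eq_mul_inv]
        exact h8.mono (by linarith)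
      have h8 : W.Ge 1 ((α - α') / c') := by
        have h9 := RVal.Ge.mul h5 h6
        rw [div_eq_mul_inv]
        exact h9.mono (by linarith)
      rw [h3]
      exact ((RVal.Ge.mul huge h7).mono (by linarith)).add h8
    have hgen' : GenRes W L u' := GenRes.congr hgen fun h0 => by
      have := hdiff h0
      linarith
    have hu'ge : W.Ge 0 u' := by
      have h3 : u' = u + (u' - u) := by ring
      rw [h3]
      exact huge.add (hdiff.mono zero_le_one)
    obtain ⟨r, q, x, y, hr1, hx1, hx2, hy1, hy2⟩ := hD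
    have hyL : ∀ i, y i ∈ L := fun i => hCL (hy1 i).1
    have hyge : ∀ i, W.Ge 0 (y i) := fun i => (hWge (hLalg (hyL i))).2 (hy1 i).2
    have hyind : IndRes k W y := by
      intro P hP
      obtain ⟨h3, h4⟩ := hy2 P hP
      exact ⟨h3, by rw [hWv _ h3 (hLalg (aeval_mem hyL P)), h4]⟩
    have hcons := IndRes.cons hWT hyL hyge hyind hu'ge hgen'
    have hCz : C ≤ adj C z := (mem_adj_self C z).2
    obtain ⟨y', hy'1, hy'2⟩ := exists_res_of_alg hWT (C := adj C z)
      (y := (Fin.cons u' y : Fin (q + 1) → Ω)) (fun i => by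
        refine Fin.cases ?_ (fun j => ?_) i
        · refine ⟨?_, hu'ge⟩
          rw [Fin.cons_zero, hu', div_eq_mul_inv]
          exact ((D2P.isAlgebraic_of_mem (mem_adj_self C z).1).sub
            (isAlgebraic_mono hCz hα')).mul (isAlgebraic_mono hCz hc').inv
        · exact ⟨D2P.isAlgebraic_of_mem (hCz (hy1 j).1), hyge j⟩) hcons
    -- the independence of `z, t, t₁`
    have hai₂ : AlgebraicIndependent k (Sum.elim (Fin.cons z t : Fin (m + 1) → Ω) t₁) := by
      have h3 : Transcendental (Algebra.adjoin k (Set.range (Sum.elim t t₁))) z := by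
        rw [← IntermediateField.transcendental_adjoin_iff, Set.Sum.elim_range]
        exact hz
      have h4 := (hai₁.option_iff_transcendental z).2 h3
      let ε : Fin (m + 1) ⊕ Fin s → Option (Fin m ⊕ Fin s) := fun i =>
        Sum.elim (fun i => Fin.cases none (fun j => some (Sum.inl j)) i)
          (fun j => some (Sum.inr j)) i
      have hε : Function.Injective ε := by
        rintro (i | i) (j | j) hij
        · revert hij
          refine Fin.cases ?_ (fun i => ?_) i <;> refine Fin.cases ?_ (fun j => ?_) j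
          · intro _; rfl
          · intro hij; simp [ε] at hij
          · intro hij; simp [ε] at hij
          · intro hij
            simp only [ε, Sum.elim_inl, Fin.cases_succ, Option.some.injEq, Sum.inl.injEq] at hij
            rw [hij]
        · revert hij
          refine Fin.cases ?_ (fun i => ?_) i
          · intro hij; simp [ε] at hij
          · intro hij; simp [ε] at hij
        · revert hij
          refine Fin.cases ?_ (fun j => ?_) j
          · intro hij; simp [ε] at hij
          · intro hij; simp [ε] at hij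
        · simp only [ε, Sum.elim_inr, Option.some.injEq, Sum.inr.injEq] at hij
          rw [hij]
      have h5 := h4.comp ε hε
      have h6 : (fun o : Option (Fin m ⊕ Fin s) => o.elim z (Sum.elim t t₁)) ∘ ε =
          Sum.elim (Fin.cons z t : Fin (m + 1) → Ω) t₁ := by
        funext i
        rcases i with i | i
        · refine Fin.cases ?_ (fun j => ?_) i
          · rfl
          · rfl
        · rfl
      rwa [h6] at h5
    have hait : AlgebraicIndependent k t := hai.comp Sum.inl Sum.inl_injective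
    have haizt : AlgebraicIndependent k (Fin.cons z t : Fin (m + 1) → Ω) :=
      hai₂.comp Sum.inl Sum.inl_injective
    have htrC : Algebra.trdeg k C = (m : Cardinal) := by
      rw [hC, trdeg_adjoin_eq hait.to_subtype_range]
      have h3 := Cardinal.mk_range_eq_of_injective hait.injective
      simpa using h3
    have htrC₁ : Algebra.trdeg k (adj C z) = ((m + 1 : ℕ) : Cardinal) := by
      rw [← hC₁, trdeg_adjoin_eq haizt.to_subtype_range]
      have h3 := Cardinal.mk_range_eq_of_injective haizt.injective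
      simpa using h3
    have hmr : m ≤ r + q + 1 := by
      rw [htrC] at hr1
      exact_mod_cast hr1
    refine ih (m + 1) W hWT (Fin.cons z t) t₁ hai₂ (adj L z) hzfg ?_ ?_ ?_ hΩz ?_ ?_ ?_
    · intro i
      refine Fin.cases ?_ (fun j => ?_) i
      · exact (mem_adj_self L z).1
      · exact (mem_adj_self L z).2 (hCL (IntermediateField.subset_adjoin k _ ⟨j, rfl⟩))
    · intro i
      exact (mem_adj_self L z).2 (IntermediateField.subset_adjoin k _ (Or.inr ⟨i, rfl⟩))
    · intro e he
      rw [hzL] at he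
      exact isSeparable_algebraMap (F := IntermediateField.adjoin k
        (Set.range (Fin.cons z t : Fin (m + 1) → Ω) ∪ Set.range t₁))
        (⟨e, he⟩ : IntermediateField.adjoin k
        (Set.range (Fin.cons z t : Fin (m + 1) → Ω) ∪ Set.range t₁))
    · rw [hC₁]
      exact ⟨a, hCz haC, ha0, by rw [hWv a ha0 (hLalg (hCL haC))]; exact hav⟩
    · rw [hC₁]
      refine ⟨r, q + 1, x, y', ?_, fun i => ⟨hCz (hx1 i).1, (hx1 i).2⟩, ?_, hy'1, hy'2⟩
      · rw [htrC₁]
        have h3 : m + 1 ≤ r + (q + 1) + 1 := by omega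
        exact_mod_cast h3
      · have h3 : (fun i => W (x i)) = fun i => v (x i) := by
          funext i
          exact hWv _ (hx1 i).2 (hLalg (hCL (hx1 i).1))
        rw [h3]
        exact hx2
    · rw [hC₁]
      intro i b
      obtain ⟨β, hβ, h3⟩ := hlim i.castSucc b
      refine ⟨β, isAlgebraic_mono hCz hβ, (hWge ?_).2 h3⟩
      exact (hLalg (IntermediateField.subset_adjoin k _ (Or.inr ⟨i, rfl⟩))).sub
        (isAlgebraic_mono hCL hβ)

end Pool.Agent.TW
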