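import Pool.Agent.Lib.TWQ.Defs
import Pool.Agent.Lib.TW.A2

/-!
# TANK W, Q: residues of algebraic elements

`exists_res_of_alg`: if there are `q` elements algebraic over `C` with algebraically independent
residues, there are `q` such elements in `C`.
-/

set_option autoImplicit false

open Polynomial

namespace Pool.Agent.TW

open Pool.Agent.H15JM (RVal)
open Pool.Agent.LU1 (VPos adj)

universe u

variable {k Ω : Type u} [Field k] [Field Ω] [Algebra k Ω] {v : RVal Ω}

/-- The residues of the `y i` are algebraically independent. -/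
def IndRes (k : Type u) {Ω : Type u} [Field k] [Field Ω] [Algebra k Ω] (v : RVal Ω) {q : ℕ}
    (y : Fin q → Ω) : Prop :=
  ∀ P : MvPolynomial (Fin q) k, P ≠ 0 →
    MvPolynomial.aeval y P ≠ 0 ∧ v (MvPolynomial.aeval y P) = 0

namespace Q5

/-- The valuation ring. -/
def vr (v : RVal Ω) : ValuationSubring Ω where
  carrier := {a | v.Ge 0 a}
  mul_mem' := by
    intro a b ha hb
    have h := RVal.Ge.mul ha hb
    rwa [add_zero] at h
  one_mem' := fun _ => by rw [v.map_one]
  add_mem' := fun ha hb => RVal.Ge.add ha hb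
  zero_mem' := RVal.Ge.zero
  neg_mem' := fun ha => RVal.Ge.neg ha
  mem_or_inv_mem' := by
    intro x
    by_cases hx : x = 0
    · exact Or.inl fun h => absurd hx h
    · rcases le_total 0 (v x) with h | h
      · exact Or.inl fun _ => h
      · right
        intro _
        rw [v.map_inv hx]
        linarith

theorem mem_vr {f : Ω} : f ∈ vr v ↔ v.Ge 0 f := Iff.rfl

/-- The residue field. -/
abbrev κ (v : RVal Ω) : Type u := IsLocalRing.ResidueField (vr v)

theorem res_eq_zero (f : vr v) : IsLocalRing.residue (vr v) f = 0 ↔ VPos v (f : Ω) := by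
  rw [IsLocalRing.residue_eq_zero_iff, IsLocalRing.mem_maximalIdeal, mem_nonunits_iff]
  constructor
  · intro h h0
    have h1 : 0 ≤ v (f : Ω) := f.2 h0
    refine lt_of_le_of_ne h1 fun h2 => h ?_
    refine IsUnit.of_mul_eq_one (⟨(f : Ω)⁻¹, fun _ => by
      rw [v.map_inv h0, ← h2, neg_zero]⟩ : vr v) (Subtype.ext (mul_inv_cancel₀ h0))
  · intro h hu
    obtain ⟨g, hg⟩ := hu.exists_right_inv
    have h1 : (f : Ω) * (g : Ω) = 1 := congrArg Subtype.val hg
    have hf0 : (f : Ω) ≠ 0 := left_ne_zero_of_mul (h1.symm ▸ one_ne_zero)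
    have hg0 : (g : Ω) ≠ 0 := right_ne_zero_of_mul (h1.symm ▸ one_ne_zero)
    have h2 := v.map_mul hf0 hg0
    rw [h1, v.map_one] at h2
    have h3 := h hf0
    have h4 : 0 ≤ v (g : Ω) := g.2 hg0
    linarith

/-- The constants. -/
def ιk (h : Triv k v) : k →+* vr v :=
  (algebraMap k Ω).codRestrict (vr v).toSubring fun c => by
    intro h0
    have hc : c ≠ 0 := fun h1 => h0 (by rw [h1, map_zero])
    rw [h c hc]

/-- The residue field as algebra over `k`. -/
@[reducible]
noncomputable def algκ (h : Triv k v) : Algebra k (κ v) :=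
  ((IsLocalRing.residue (vr v)).comp (ιk h)).toAlgebra

/-- The value of a polynomial. -/
noncomputable def ev (h : Triv k v) {q : ℕ} (y : Fin q → vr v) (P : MvPolynomial (Fin q) k) :
    vr v := MvPolynomial.eval₂ (ιk h) y P

theorem coe_ev (h : Triv k v) {q : ℕ} (y : Fin q → vr v) (P : MvPolynomial (Fin q) k) :
    ((ev h y P : vr v) : Ω) = MvPolynomial.aeval (fun i => (y i : Ω)) P := by
  have h1 := MvPolynomial.eval₂_comp_left (vr v).subtype (ιk h) y P
  exact h1

theorem res_ev (h : Triv k v) {q : ℕ} (y : Fin q → vr v) (P : MvPolynomial (Fin q) k) :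
    IsLocalRing.residue (vr v) (ev h y P) =
      @MvPolynomial.aeval k (κ v) (Fin q) _ _ (algκ h) (fun i => IsLocalRing.residue (vr v) (y i))
        P := by
  have h1 := MvPolynomial.eval₂_comp_left (IsLocalRing.residue (vr v)) (ιk h) y P
  exact h1

theorem indRes_iff (h : Triv k v) {q : ℕ} (y : Fin q → vr v) :
    IndRes k v (fun i => (y i : Ω)) ↔
      @AlgebraicIndependent (Fin q) k (κ v) (fun i => IsLocalRing.residue (vr v) (y i)) _ _
        (algκ h) := by
  let _ := algκ h
  rw [algebraicIndependent_iff]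
  constructor
  · intro hi P hP
    by_contra hP0
    obtain ⟨h1, h2⟩ := hi P hP0
    rw [← coe_ev h] at h1 h2
    rw [← res_ev h, res_eq_zero] at hP
    have := hP h1
    linarith
  · intro hi P hP0
    by_contra hcon
    apply hP0
    apply hi
    rw [← res_ev h, res_eq_zero]
    intro h1
    rw [coe_ev h] at h1 ⊢
    have h2 : 0 ≤ v ((ev h y P : vr v) : Ω) := (ev h y P).2 (by rw [coe_ev h]; exact h1)
    rw [coe_ev h] at h2
    rcases h2.lt_or_eq with h3 | h3
    · exact h3
    · exact absurd ⟨h1, h3.symm⟩ hcon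

/-- The residues of the elements of `C`. -/
noncomputable def κC (h : Triv k v) (C : IntermediateField k Ω) :
    @IntermediateField k (κ v) _ _ (algκ h) :=
  @Subfield.toIntermediateField k (κ v) _ _ (algκ h)
    { carrier := {a | ∃ f : vr v, (f : Ω) ∈ C ∧ IsLocalRing.residue (vr v) f = a}
      mul_mem' := by
        rintro _ _ ⟨f, hf, rfl⟩ ⟨g, hg, rfl⟩
        exact ⟨f * g, mul_mem hf hg, map_mul _ _ _⟩
      one_mem' := ⟨1, one_mem C, map_one _⟩
      add_mem' := by
        rintro _ _ ⟨f, hf, rfl⟩ ⟨g, hg, rfl⟩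
        exact ⟨f + g, add_mem hf hg, map_add _ _ _⟩
      zero_mem' := ⟨0, zero_mem C, map_zero _⟩
      neg_mem' := by
        rintro _ ⟨f, hf, rfl⟩
        exact ⟨-f, neg_mem hf, map_neg _ _⟩
      inv_mem' := by
        rintro _ ⟨f, hf, rfl⟩
        by_cases h0 : IsLocalRing.residue (vr v) f = 0
        · exact ⟨0, zero_mem C, by rw [h0, inv_zero, map_zero]⟩
        · have h1 : ¬ VPos v (f : Ω) := fun h2 => h0 ((res_eq_zero f).2 h2)
          have hf0 : (f : Ω) ≠ 0 := fun h2 => h1 fun h3 => absurd h2 h3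
          have hv0 : v (f : Ω) = 0 := by
            have h2 : 0 ≤ v (f : Ω) := f.2 hf0
            rcases h2.lt_or_eq with h3 | h3
            · exact absurd (fun _ => h3) h1
            · exact h3.symm
          let g : vr v := ⟨(f : Ω)⁻¹, fun _ => by rw [v.map_inv hf0, hv0, neg_zero]⟩
          refine ⟨g, inv_mem hf, ?_⟩
          rw [eq_comm, inv_eq_iff_eq_inv, eq_comm, inv_eq_of_mul_eq_one_left]
          rw [← map_mul]
          have h3 : f * g = 1 := Subtype.ext (mul_inv_cancel₀ hf0)
          rw [h3, map_one] }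
    (fun c => ⟨ιk h c, C.algebraMap_mem c, rfl⟩)

theorem mem_κC (h : Triv k v) {C : IntermediateField k Ω} {a : κ v} :
    (letI := algκ h; a ∈ κC h C) ↔
      ∃ f : vr v, (f : Ω) ∈ C ∧ IsLocalRing.residue (vr v) f = a := Iff.rfl

/-- The residues of the algebraic elements are algebraic. -/
theorem isAlgebraic_res (h : Triv k v) {C : IntermediateField k Ω} (f : vr v)
    (hf : IsAlgebraic C (f : Ω)) :
    (letI := algκ h; IsAlgebraic (κC h C) (IsLocalRing.residue (vr v) f)) := by
  classical
  let _ := algκ h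
  obtain ⟨P, hP0, hP⟩ := hf
  -- the coefficient of smallest value
  obtain ⟨i₀, hi₀, hmin⟩ := Finset.exists_min_image P.support (fun i => v ((P.coeff i : C) : Ω))
    (support_nonempty.2 hP0)
  have hc0 : ((P.coeff i₀ : C) : Ω) ≠ 0 := by
    have := mem_support_iff.1 hi₀
    exact fun h1 => this (Subtype.ext h1)
  have hg : ∀ i, v.Ge 0 (((P.coeff i : C) : Ω) / ((P.coeff i₀ : C) : Ω)) := by
    intro i h1
    have h2 : ((P.coeff i : C) : Ω) ≠ 0 := fun h3 => h1 (by rw [h3, zero_div])
    rw [v.map_div h2 hc0]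
    have h3 : i ∈ P.support := mem_support_iff.2 fun h4 => h2 (by rw [h4]; rfl)
    have := hmin i h3
    linarith
  let g : ℕ → vr v := fun i => ⟨((P.coeff i : C) : Ω) / ((P.coeff i₀ : C) : Ω), hg i⟩
  have hgC : ∀ i, (g i : Ω) ∈ C := fun i => div_mem (P.coeff i).2 (P.coeff i₀).2
  let gb : ℕ → κC h C := fun i => ⟨IsLocalRing.residue (vr v) (g i), ⟨g i, hgC i, rfl⟩⟩
  refine ⟨∑ i ∈ Finset.range (P.natDegree + 1), monomial i (gb i), ?_, ?_⟩
  · intro h1
    have h2 := congrArg (fun Q : (κC h C)[X] => Q.coeff i₀) h1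
    simp only [finsetSum_coeff, coeff_monomial, coeff_zero] at h2
    rw [Finset.sum_ite_eq' , if_pos (Finset.mem_range.2 (Nat.lt_succ_of_le
      (le_natDegree_of_mem_supp _ hi₀)))] at h2
    have h3 : IsLocalRing.residue (vr v) (g i₀) = 0 := congrArg Subtype.val h2
    have h4 : g i₀ = 1 := Subtype.ext (div_self hc0)
    rw [h4, map_one] at h3
    exact one_ne_zero h3
  · rw [map_sum]
    have h1 : ∑ i ∈ Finset.range (P.natDegree + 1), g i * f ^ i = 0 := by
      apply Subtype.ext
      rw [aeval_eq_sum_range] at hP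
      have h2 : ((∑ i ∈ Finset.range (P.natDegree + 1), g i * f ^ i : vr v) : Ω) =
          (∑ i ∈ Finset.range (P.natDegree + 1), P.coeff i • (f : Ω) ^ i) /
            ((P.coeff i₀ : C) : Ω) := by
        rw [Finset.sum_div]
        push_cast
        refine Finset.sum_congr rfl fun i _ => ?_
        rw [Algebra.smul_def]
        change ((P.coeff i : C) : Ω) / ((P.coeff i₀ : C) : Ω) * (f : Ω) ^ i = _
        rw [div_mul_eq_mul_div]
        rfl
      rw [h2, hP, zero_div]
      rfl
    have h2 := congrArg (IsLocalRing.residue (vr v)) h1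
    rw [map_sum, map_zero] at h2
    rw [← h2]
    refine Finset.sum_congr rfl fun i _ => ?_
    rw [aeval_monomial, map_mul, map_pow]
    rfl

end Q5

open Q5 in
/-- Independent residues of algebraic elements. -/
theorem exists_res_of_alg (h : Triv k v) {C : IntermediateField k Ω} {q : ℕ} {y : Fin q → Ω}
    (hy : ∀ i, IsAlgebraic C (y i) ∧ v.Ge 0 (y i)) (hi : IndRes k v y) :
    ∃ y' : Fin q → Ω, (∀ i, y' i ∈ C ∧ v.Ge 0 (y' i)) ∧ IndRes k v y' := by
  classical
  let _ := algκ h
  let Y : Fin q → vr v := fun i => ⟨y i, (hy i).2⟩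
  have hY := (indRes_iff h Y).1 hi
  set M : IntermediateField k (κ v) := (algebraicClosure (κC h C) (κ v)).restrictScalars k with hM
  have hmem : ∀ i, IsLocalRing.residue (vr v) (Y i) ∈ M := fun i =>
    mem_algebraicClosure_iff.2 (isAlgebraic_res h (Y i) (hy i).1)
  have hYM : AlgebraicIndependent k
      (fun i => (⟨IsLocalRing.residue (vr v) (Y i), hmem i⟩ : M)) :=
    AlgebraicIndependent.of_comp M.val hY
  have h1 := hYM.lift_cardinalMk_le_trdeg
  have h2 : Algebra.trdeg k M = Algebra.trdeg k (κC h C) :=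
    trdeg_eq_of_alg (fun a ha => mem_algebraicClosure_iff.2
      (isAlgebraic_algebraMap (⟨a, ha⟩ : κC h C))) fun a ha => mem_algebraicClosure_iff.1 ha
  rw [h2] at h1
  obtain ⟨ι, x, hx⟩ := exists_isTranscendenceBasis' k (κC h C)
  have h3 : (q : Cardinal.{u}) ≤ Cardinal.mk ι := by
    rw [hx.cardinalMk_eq_trdeg]
    simpa using h1
  have h4 : Nonempty (Fin q ↪ ι) := by
    have h5 : Cardinal.lift.{u} (Cardinal.mk (Fin q)) ≤ Cardinal.lift.{0} (Cardinal.mk ι) := by
      simpa using h3
    exact Cardinal.lift_mk_le'.1 h5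
  obtain ⟨j⟩ := h4
  have h5 : AlgebraicIndependent k (x ∘ j) := hx.1.comp j j.injective
  have h6 : AlgebraicIndependent k (fun i => ((x (j i) : κC h C) : κ v)) :=
    h5.map' (f := (κC h C).val) (κC h C).val.injective
  choose f hfC hfx using fun i : Fin q => (mem_κC h (C := C)).1 (x (j i)).2
  refine ⟨fun i => (f i : Ω), fun i => ⟨hfC i, (f i).2⟩, (indRes_iff h f).2 ?_⟩
  simp only [hfx]
  exact h6

end Pool.Agent.TW
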