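import Pool.Agent.Lib.TWN.Defs
import Pool.Agent.Lib.LU1_h15.Base_G0s
import Mathlib.FieldTheory.SeparablyGenerated

/-!
# TANK W, row Q6: the core of a finitely generated field
-/

set_option autoImplicit false

open Polynomial

namespace Pool.Agent.TW

open Pool.Agent.H15JM (RVal)
open Pool.Agent.LU1 (VPos adj)

universe u

variable {k Ω : Type u} [Field k] [Field Ω] [Algebra k Ω] {v : RVal Ω}

namespace Q6

theorem limAlg_of_mem {C : IntermediateField k Ω} {z : Ω} (hz : z ∈ C) : LimAlg v C z := by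
  intro c
  refine ⟨z, isAlgebraic_algebraMap (⟨z, hz⟩ : C), ?_⟩
  rw [sub_self]
  exact RVal.Ge.zero

theorem limAlg_mono {C C' : IntermediateField k Ω} (h : C ≤ C') {z : Ω} (hz : LimAlg v C z) :
    LimAlg v C' z := by
  intro c
  obtain ⟨α, hα, h1⟩ := hz c
  refine ⟨α, ?_, h1⟩
  obtain ⟨P, hP, hP0⟩ := hα
  let j : C →+* C' := (IntermediateField.inclusion h).toRingHom
  refine ⟨P.map j, (Polynomial.map_ne_zero_iff j.injective).2 hP, ?_⟩
  rw [Polynomial.aeval_def, Polynomial.eval₂_map]
  exact hP0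

/-- A limit which is transcendental: the valuation is not trivial. -/
theorem pos_of_limAlg {C : IntermediateField k Ω} {z : Ω} (hz : LimAlg v C z)
    (hz' : ¬ IsAlgebraic C z) : ∃ a ∈ C, a ≠ 0 ∧ 0 < v a := by
  obtain ⟨α, hα, h1⟩ := hz 1
  have h2 : z - α ≠ 0 := fun h => hz' (by
    rw [sub_eq_zero.1 h]
    exact hα)
  obtain ⟨β, hβ, h3⟩ := hz (v (z - α) + 1)
  have h4 : z - β ≠ 0 := fun h => hz' (by
    rw [sub_eq_zero.1 h]
    exact hβ)
  have h5 := h1 h2
  have h6 := h3 h4
  have h7 : β - α ≠ 0 := by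
    intro h
    rw [sub_eq_zero] at h
    rw [h] at h6
    linarith
  have h8 : v (β - α) = v (z - α) := by
    have h9 : β - α = (z - α) - (z - β) := by ring
    apply le_antisymm
    · by_contra hcon
      push Not at hcon
      -- `z - α = (β - α) + (z - β)` would have bigger value
      have h10 : v.Ge (min (v (β - α)) (v (z - β))) (z - α) := by
        have h11 : z - α = (β - α) + (z - β) := by ring
        rw [h11]
        exact RVal.Ge.add (fun _ => min_le_left _ _) fun _ => min_le_right _ _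
      have h12 := h10 h2
      have h13 : v (z - α) < min (v (β - α)) (v (z - β)) := lt_min hcon (by linarith)
      exact absurd h12 (not_le.2 h13)
    · have h10 : v.Ge (v (z - α)) (β - α) := by
        rw [h9]
        exact RVal.Ge.sub (fun _ => le_rfl) fun _ => by linarith
      exact h10 h7
  obtain ⟨f, hf0, m, hm, hfv⟩ := LU1.comm_value (v := v) C (β - α) h7 (hβ.sub hα)
  refine ⟨f, f.2, hf0, ?_⟩
  rw [hfv, h8]
  have : (0 : ℝ) < m := by exact_mod_cast hm
  exact mul_pos this (by linarith)

/-- Separability through the embedding of `E`. -/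
theorem isSeparable_map {E : IntermediateField k Ω} (s : Set E) {e : E}
    (he : IsSeparable (IntermediateField.adjoin k s) e) :
    IsSeparable (IntermediateField.adjoin k ((fun x : E => (x : Ω)) '' s)) (e : Ω) := by
  have hmap : (IntermediateField.adjoin k s).map E.val =
      IntermediateField.adjoin k ((fun x : E => (x : Ω)) '' s) := by
    rw [IntermediateField.adjoin_map]
    rfl
  have hmem : ∀ x : IntermediateField.adjoin k s, ((x : E) : Ω) ∈
      IntermediateField.adjoin k ((fun x : E => (x : Ω)) '' s) := by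
    intro x
    rw [← hmap]
    exact ⟨x, x.2, rfl⟩
  let j : IntermediateField.adjoin k s →+*
      IntermediateField.adjoin k ((fun x : E => (x : Ω)) '' s) :=
    (E.val.toRingHom.comp (algebraMap (IntermediateField.adjoin k s) E)).codRestrict _ hmem
  have h1 : ((minpoly (IntermediateField.adjoin k s) e).map j).Separable := Separable.map he
  have h2 : aeval (e : Ω) ((minpoly (IntermediateField.adjoin k s) e).map j) = 0 := by
    rw [aeval_def, eval₂_map]
    have h3 := congrArg (fun x : E => (x : Ω)) (minpoly.aeval (IntermediateField.adjoin k s) e)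
    have h4 : ((aeval e (minpoly (IntermediateField.adjoin k s) e) : E) : Ω) =
        eval₂ (E.val.toRingHom.comp (algebraMap (IntermediateField.adjoin k s) E)) (e : Ω)
          (minpoly (IntermediateField.adjoin k s) e) := by
      rw [aeval_def]
      exact hom_eval₂ _ _ E.val.toRingHom _
    have h5 : eval₂ (E.val.toRingHom.comp (algebraMap (IntermediateField.adjoin k s) E)) (e : Ω)
          (minpoly (IntermediateField.adjoin k s) e) = 0 := by
      rw [← h4]
      exact h3
    exact h5
  exact h1.of_dvd (minpoly.dvd _ _ h2)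

/-- The minimal subfamily. -/
theorem exists_min [IsAlgClosed k]
    (hfield : ∀ {C : IntermediateField k Ω}, (∃ a ∈ C, a ≠ 0 ∧ 0 < v a) → ∀ {S : Set Ω},
      (∀ s ∈ S, LimAlg v C s) → ∀ {e : Ω},
      IsAlgebraic (IntermediateField.adjoin k ((C : Set Ω) ∪ S)) e → LimAlg v C e)
    {ι : Type*} [Fintype ι] [DecidableEq ι] {u : ι → Ω} (hu : AlgebraicIndependent k u) :
    ∃ A : Finset ι, (∀ i, LimAlg v (IntermediateField.adjoin k (u '' A)) (u i)) ∧
      ∀ i ∈ A, ¬ LimAlg v (IntermediateField.adjoin k (u '' (A.erase i : Finset ι))) (u i) := by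
  classical
  let P : Finset ι → Prop := fun A => ∀ i, LimAlg v (IntermediateField.adjoin k (u '' A)) (u i)
  have hne : (Finset.univ.filter P).Nonempty := by
    refine ⟨Finset.univ, Finset.mem_filter.2 ⟨Finset.mem_univ _, fun i => ?_⟩⟩
    exact limAlg_of_mem (IntermediateField.subset_adjoin _ _ ⟨i, Finset.mem_coe.2
      (Finset.mem_univ i), rfl⟩)
  obtain ⟨A, hA, hmin⟩ := Finset.exists_min_image _ Finset.card hne
  refine ⟨A, (Finset.mem_filter.1 hA).2, fun i hi hlim => ?_⟩
  have htr : ¬ IsAlgebraic (IntermediateField.adjoin k (u '' (A.erase i : Finset ι))) (u i) := by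
    have h1 : Transcendental (IntermediateField.adjoin k (u '' (A.erase i : Finset ι))) (u i) := by
      rw [IntermediateField.transcendental_adjoin_iff]
      exact hu.transcendental_adjoin (by simp)
    exact h1
  have hpos := pos_of_limAlg hlim htr
  have hcard := hmin (A.erase i) (Finset.mem_filter.2 ⟨Finset.mem_univ _, fun j => ?_⟩)
  · rw [Finset.card_erase_of_mem hi] at hcard
    have := Finset.card_pos.2 ⟨i, hi⟩
    omega
  · -- transitivity
    intro c
    obtain ⟨α, hα, h1⟩ := (Finset.mem_filter.1 hA).2 j c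
    have h2 : LimAlg v (IntermediateField.adjoin k (u '' (A.erase i : Finset ι))) α := by
      refine hfield hpos (S := {u i}) (by
        rintro s rfl
        exact hlim) ?_
      have h3 : IntermediateField.adjoin k (u '' A) ≤ IntermediateField.adjoin k
          (((IntermediateField.adjoin k (u '' (A.erase i : Finset ι)) :
            IntermediateField k Ω) : Set Ω) ∪ {u i}) := by
        rw [IntermediateField.adjoin_le_iff]
        rintro _ ⟨l, hl, rfl⟩
        by_cases hli : l = i
        · rw [hli]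
          exact IntermediateField.subset_adjoin _ _ (Or.inr rfl)
        · exact IntermediateField.subset_adjoin _ _ (Or.inl (IntermediateField.subset_adjoin _ _
            ⟨l, Finset.mem_coe.2 (Finset.mem_erase.2 ⟨hli, Finset.mem_coe.1 hl⟩), rfl⟩))
      obtain ⟨Q, hQ, hQ0⟩ := hα
      let j : IntermediateField.adjoin k (u '' A) →+* IntermediateField.adjoin k
          (((IntermediateField.adjoin k (u '' (A.erase i : Finset ι)) :
            IntermediateField k Ω) : Set Ω) ∪ {u i}) := (IntermediateField.inclusion h3).toRingHom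
      refine ⟨Q.map j, (Polynomial.map_ne_zero_iff j.injective).2 hQ, ?_⟩
      rw [Polynomial.aeval_def, Polynomial.eval₂_map]
      exact hQ0
    obtain ⟨β, hβ, h4⟩ := h2 c
    refine ⟨β, hβ, ?_⟩
    have h5 : u j - β = (u j - α) + (α - β) := by ring
    rw [h5]
    exact h1.add h4

end Q6

/-- ROW Q6, from `LimAlg.field`. -/
theorem exists_core_of [IsAlgClosed k] [IsAlgClosed Ω]
    (_h : ∀ c : k, c ≠ 0 → v (algebraMap k Ω c) = 0)
    (hfield : ∀ {C : IntermediateField k Ω}, (∃ a ∈ C, a ≠ 0 ∧ 0 < v a) → ∀ {S : Set Ω},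
      (∀ s ∈ S, LimAlg v C s) → ∀ {e : Ω},
      IsAlgebraic (IntermediateField.adjoin k ((C : Set Ω) ∪ S)) e → LimAlg v C e)
    {E : IntermediateField k Ω} (hE : E.FG) (hpos : ∃ a ∈ E, a ≠ 0 ∧ 0 < v a) :
    ∃ (m s : ℕ) (t : Fin m → Ω) (t' : Fin s → Ω), AlgebraicIndependent k (Sum.elim t t') ∧
      (∀ i, t i ∈ E) ∧ (∀ i, t' i ∈ E) ∧
      (∀ e ∈ E, IsSeparable (IntermediateField.adjoin k (Set.range t ∪ Set.range t')) e) ∧
      (∃ a ∈ IntermediateField.adjoin k (Set.range t), a ≠ 0 ∧ 0 < v a) ∧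
      (∀ i, LimAlg v (IntermediateField.adjoin k (Set.range t)) (t' i)) ∧
      ∀ i, ¬ LimAlg v (IntermediateField.adjoin k (t '' {j | j ≠ i})) (t i) := by
  classical
  have hfin : Algebra.EssFiniteType k E := by
    rw [← IntermediateField.essFiniteType_iff] at hE
    exact hE
  obtain ⟨B, hB, hsep⟩ := exists_isTranscendenceBasis_and_isSeparable_of_perfectField k E
  obtain ⟨u, hu⟩ : ∃ u : {x // x ∈ B} → Ω, u = fun x => ((x.1 : E) : Ω) := ⟨_, rfl⟩
  have hind : AlgebraicIndependent k u := by
    have h1 := hB.1.map' (f := E.val) E.val.injective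
    rw [hu]
    exact h1
  have hrange : Set.range u = (fun x : E => (x : Ω)) '' (B : Set E) := by
    rw [hu]
    ext x
    constructor
    · rintro ⟨y, rfl⟩
      exact ⟨y, y.2, rfl⟩
    · rintro ⟨y, hy, rfl⟩
      exact ⟨⟨y, hy⟩, rfl⟩
  have hsep' : ∀ e ∈ E, IsSeparable (IntermediateField.adjoin k (Set.range u)) e := by
    intro e he
    have h1 : IsSeparable (IntermediateField.adjoin k (B : Set E)) (⟨e, he⟩ : E) :=
      Algebra.IsSeparable.isSeparable _ _
    have h2 := Q6.isSeparable_map (B : Set E) h1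
    rw [← hrange] at h2
    exact h2
  obtain ⟨A, hA, hA'⟩ := Q6.exists_min (v := v) hfield hind
  obtain ⟨f, hf⟩ : ∃ f : Fin A.card → {x // x ∈ B}, f = fun i => (A.equivFin.symm i).1 := ⟨_, rfl⟩
  obtain ⟨g, hg⟩ : ∃ g : Fin Aᶜ.card → {x // x ∈ B}, g = fun i => (Aᶜ.equivFin.symm i).1 := ⟨_, rfl⟩
  have hfA : ∀ i, f i ∈ A := fun i => by rw [hf]; exact (A.equivFin.symm i).2
  have hgA : ∀ i, g i ∉ A := fun i => by
    rw [hg]
    exact Finset.mem_compl.1 (Aᶜ.equivFin.symm i).2
  have hfi : Function.Injective f := by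
    rw [hf]
    exact Subtype.val_injective.comp A.equivFin.symm.injective
  have hgi : Function.Injective g := by
    rw [hg]
    exact Subtype.val_injective.comp Aᶜ.equivFin.symm.injective
  have hfs : ∀ a ∈ A, ∃ i, f i = a := fun a ha => ⟨A.equivFin ⟨a, ha⟩, by rw [hf]; simp⟩
  have hgs : ∀ a ∉ A, ∃ i, g i = a := fun a ha => ⟨Aᶜ.equivFin ⟨a, Finset.mem_compl.2 ha⟩, by
    rw [hg]; simp⟩
  have hrf : Set.range (u ∘ f) = u '' A := by
    ext x
    constructor
    · rintro ⟨i, rfl⟩
      exact ⟨f i, hfA i, rfl⟩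
    · rintro ⟨a, ha, rfl⟩
      obtain ⟨i, rfl⟩ := hfs a ha
      exact ⟨i, rfl⟩
  have hru : Set.range (u ∘ f) ∪ Set.range (u ∘ g) = Set.range u := by
    ext x
    constructor
    · rintro (⟨i, rfl⟩ | ⟨i, rfl⟩)
      · exact ⟨f i, rfl⟩
      · exact ⟨g i, rfl⟩
    · rintro ⟨a, rfl⟩
      by_cases ha : a ∈ A
      · obtain ⟨i, rfl⟩ := hfs a ha
        exact Or.inl ⟨i, rfl⟩
      · obtain ⟨i, rfl⟩ := hgs a ha
        exact Or.inr ⟨i, rfl⟩
  have huE : ∀ x, u x ∈ E := fun x => by rw [hu]; exact (x.1 : E).2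
  have hinj : Function.Injective (Sum.elim f g) := by
    rw [Sum.elim_injective]
    refine ⟨hfi, hgi, fun a b hab => ?_⟩
    exact hgA b (by rw [← hab]; exact hfA a)
  have hsum : AlgebraicIndependent k (Sum.elim (u ∘ f) (u ∘ g)) := by
    have h1 := hind.comp _ hinj
    rwa [Sum.comp_elim] at h1
  refine ⟨A.card, Aᶜ.card, u ∘ f, u ∘ g, hsum, fun i => huE _, fun i => huE _, ?_, ?_, ?_, ?_⟩
  · rw [hru]
    exact hsep'
  · -- positivity
    by_cases hAu : ∃ b, b ∉ A
    · obtain ⟨b, hb⟩ := hAu
      have h1 := hA b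
      rw [hrf]
      refine Q6.pos_of_limAlg h1 ?_
      have h2 : Transcendental (IntermediateField.adjoin k (u '' A)) (u b) := by
        rw [IntermediateField.transcendental_adjoin_iff]
        exact hind.transcendental_adjoin hb
      exact h2
    · push Not at hAu
      obtain ⟨a, ha, ha0, hav⟩ := hpos
      have h1 := hsep' a ha
      have h2 : Set.range u = Set.range (u ∘ f) := by
        rw [hrf]
        ext x
        constructor
        · rintro ⟨y, rfl⟩
          exact ⟨y, hAu y, rfl⟩
        · rintro ⟨y, -, rfl⟩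
          exact ⟨y, rfl⟩
      rw [h2] at h1
      obtain ⟨c, hc0, m, hm, hcv⟩ := LU1.comm_value (v := v) _ a ha0 h1.isIntegral.isAlgebraic
      refine ⟨c, c.2, hc0, ?_⟩
      rw [hcv]
      have : (0 : ℝ) < m := by exact_mod_cast hm
      exact mul_pos this hav
  · intro i
    rw [hrf]
    exact hA _
  · intro i hlim
    refine hA' (f i) (hfA i) ?_
    have h1 : (u ∘ f) '' {j | j ≠ i} = u '' (A.erase (f i) : Finset B) := by
      ext x
      constructor
      · rintro ⟨j, hj, rfl⟩
        exact ⟨f j, Finset.mem_coe.2 (Finset.mem_erase.2 ⟨fun h => hj (hfi h), hfA j⟩), rfl⟩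
      · rintro ⟨b, hb, rfl⟩
        obtain ⟨hb1, hb2⟩ := Finset.mem_erase.1 (Finset.mem_coe.1 hb)
        obtain ⟨j, rfl⟩ := hfs b hb2
        exact ⟨j, fun h => hb1 (by rw [h]), rfl⟩
    rw [h1] at hlim
    exact hlim

end Pool.Agent.TW
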