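import Pool.Agent.Lib.TWQ.Q5b
import Pool.Agent.Lib.TWQ.Q6a
import Pool.Agent.Lib.TWQ.Defs

/-!
# TANK W, row Q6: the core of a finitely generated field
-/

set_option autoImplicit false

namespace Pool.Agent.TW

open Pool.Agent.H15JM (RVal)

universe u

variable {k Ω : Type u} [Field k] [Field Ω] [Algebra k Ω] {v : RVal Ω}

/-- ROW Q6.  Every finitely generated field `E` has a separating transcendence basis `t, t'` with
`t' i` in the completion of the algebraic closure of `k(t)`, and no `t i` in the completion of the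
algebraic closure of `k(t j : j ≠ i)`. -/
theorem exists_core [IsAlgClosed k] [IsAlgClosed Ω] (h : Triv k v) {E : IntermediateField k Ω}
    (hE : E.FG) (hpos : ∃ a ∈ E, a ≠ 0 ∧ 0 < v a) :
    ∃ (m s : ℕ) (t : Fin m → Ω) (t' : Fin s → Ω), AlgebraicIndependent k (Sum.elim t t') ∧
      (∀ i, t i ∈ E) ∧ (∀ i, t' i ∈ E) ∧
      (∀ e ∈ E, IsSeparable (IntermediateField.adjoin k (Set.range t ∪ Set.range t')) e) ∧
      (∃ a ∈ IntermediateField.adjoin k (Set.range t), a ≠ 0 ∧ 0 < v a) ∧
      (∀ i, LimAlg v (IntermediateField.adjoin k (Set.range t)) (t' i)) ∧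
      ∀ i, ¬ LimAlg v (IntermediateField.adjoin k (t '' {j | j ≠ i})) (t i) :=
  exists_core_of h (fun hpos _ hS _ he => LimAlg.field hpos hS he) hE hpos

end Pool.Agent.TW
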