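import Pool.Agent.Lib.TWQ.Q6
import Pool.Agent.Lib.LU2G.Real

/-!
# TANK W, row Q8: theorem N from the induction (Q5) and the perturbation (Q7)
-/

set_option autoImplicit false

namespace Pool.Agent.TW

open Pool.Agent.H15JM (RVal)
open Pool.Agent.LUC (LUs)

universe u

variable {k Ω : Type u} [Field k] [Field Ω] [Algebra k Ω] {v : RVal Ω}

/-- Theorem N (`lus_of_limAlg`) from `lus_of_basis` (`H5`) and `DefL.of_core` (`H7`). -/
theorem lus_of_limAlg_of [IsAlgClosed k] [IsAlgClosed Ω]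
    (H5 : ∀ (s m : ℕ) (t : Fin m → Ω) (t' : Fin s → Ω)
      (_ : AlgebraicIndependent k (Sum.elim t t')) (E : IntermediateField k Ω) (_ : E.FG)
      (_ : ∀ i, t i ∈ E) (_ : ∀ i, t' i ∈ E)
      (_ : ∀ e ∈ E, IsSeparable (IntermediateField.adjoin k (Set.range t ∪ Set.range t')) e)
      (_ : ∀ g : Ω, IsAlgebraic E g)
      (_ : ∃ a ∈ IntermediateField.adjoin k (Set.range t), a ≠ 0 ∧ 0 < v a)
      (_ : DefL v (IntermediateField.adjoin k (Set.range t)) 1)
      (_ : ∀ i, LimAlg v (IntermediateField.adjoin k (Set.range t)) (t' i)),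
      LUs v (algebraMap k Ω).range E.toSubfield)
    (H7 : ∀ (m : ℕ) (t : Fin m → Ω), AlgebraicIndependent k t →
      (∀ i, ¬ LimAlg v (IntermediateField.adjoin k (t '' {j | j ≠ i})) (t i)) →
      ∀ L₀ : IntermediateField k Ω, L₀.FG → (∃ a ∈ L₀, a ≠ 0 ∧ 0 < v a) → DefL v L₀ 1 →
        (∀ i, LimAlg v L₀ (t i)) → DefL v (IntermediateField.adjoin k (Set.range t)) 1)
    (h : Triv k v) {E : IntermediateField k Ω} (hE : E.FG) (hΩ : ∀ g : Ω, IsAlgebraic E g)
    (hpos : ∃ a ∈ E, a ≠ 0 ∧ 0 < v a) {L₀ : IntermediateField k Ω} (hL₀ : L₀.FG)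
    (hpos₀ : ∃ a ∈ L₀, a ≠ 0 ∧ 0 < v a) (hD : DefL v L₀ 1) (hlim : ∀ e ∈ E, LimAlg v L₀ e) :
    LUs v (algebraMap k Ω).range E.toSubfield := by
  obtain ⟨m, s, t, t', hind, htE, ht'E, hsep, hp, hl, hfar⟩ := exists_core h hE hpos
  have ht : AlgebraicIndependent k t := by
    have := hind.comp Sum.inl Sum.inl_injective
    simpa [Function.comp_def] using this
  exact H5 s m t t' hind E hE htE ht'E hsep hΩ hp
    (H7 m t ht hfar L₀ hL₀ hpos₀ hD fun i => hlim _ (htE i)) hl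

end Pool.Agent.TW
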